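import Pool.Agent.Lib.P086e3e.Poly

set_option autoImplicit false

open Complex Set

namespace Pool.Agent.P086e3e

/-- `T'` as an affine map. -/
noncomputable def T'aff (t : ℝ) : ℂ →ᵃ[ℝ] ℂ where
  toFun := T' t
  linear :=
    { toFun := fun v => ⟨v.re - kap t * (v.re + 11 * t * v.im), -v.im + 11 * t * kap t * (v.re + 11 * t * v.im)⟩
      map_add' := by
        intro x y
        apply Complex.ext <;> simp only [Complex.add_re, Complex.add_im] <;> ring
      map_smul' := by
        intro c x
        apply Complex.ext <;> simp only [Complex.smul_re, Complex.smul_im, smul_eq_mul, RingHom.id_apply] <;> ring }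
  map_vadd' := by
    intro p v
    apply Complex.ext <;>
    · simp only [T', mu_eq, vadd_eq_add, Complex.add_re, Complex.add_im, LinearMap.coe_mk, AddHom.coe_mk]
      ring

/-- `T` as an affine map. -/
noncomputable def Taff (t : ℝ) : ℂ →ᵃ[ℝ] ℂ where
  toFun := T t
  linear :=
    { toFun := fun v => ⟨v.re - kap t * (v.re - 11 * t * v.im), -v.im - 11 * t * kap t * (v.re - 11 * t * v.im)⟩
      map_add' := by
        intro x y
        apply Complex.ext <;> simp only [Complex.add_re, Complex.add_im] <;> ring
      map_smul' := by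
        intro c x
        apply Complex.ext <;> simp only [Complex.smul_re, Complex.smul_im, smul_eq_mul, RingHom.id_apply] <;> ring }
  map_vadd' := by
    intro p v
    apply Complex.ext <;>
    · simp only [T, ml_eq, vadd_eq_add, Complex.add_re, Complex.add_im, LinearMap.coe_mk, AddHom.coe_mk]
      ring

lemma Taff_coe (t : ℝ) : ⇑(Taff t) = T t := rfl
lemma T'aff_coe (t : ℝ) : ⇑(T'aff t) = T' t := rfl

lemma convex_T'_preimage (t : ℝ) {S : Set ℂ} (hS : Convex ℝ S) : Convex ℝ (T' t ⁻¹' S) := by
  rw [← T'aff_coe]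
  exact hS.affine_preimage _

lemma T'_preimage_eq (t : ℝ) (S : Set ℂ) : T' t ⁻¹' S = T t '' S :=
  (congrFun (Set.image_eq_preimage_of_inverse (T'_T t) (T_T' t)) S).symm

/-- The motion of a letter and its inverse. -/
noncomputable def tau' (d : Bool) (t : ℝ) (z : ℂ) : ℂ := if d then T' t z else z
noncomputable def tau (d : Bool) (t : ℝ) (z : ℂ) : ℂ := if d then T t z else z

@[simp] lemma tau'_false (t : ℝ) (z : ℂ) : tau' false t z = z := by simp [tau']
@[simp] lemma tau'_true (t : ℝ) (z : ℂ) : tau' true t z = T' t z := by simp [tau']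
@[simp] lemma tau_false (t : ℝ) (z : ℂ) : tau false t z = z := by simp [tau]
@[simp] lemma tau_true (t : ℝ) (z : ℂ) : tau true t z = T t z := by simp [tau]

lemma tau'_tau (d : Bool) (t : ℝ) (z : ℂ) : tau' d t (tau d t z) = z := by cases d <;> simp [T'_T]
lemma tau_tau' (d : Bool) (t : ℝ) (z : ℂ) : tau d t (tau' d t z) = z := by cases d <;> simp [T_T']

lemma continuous_tau' (d : Bool) (t : ℝ) : Continuous (tau' d t) := by
  cases d
  · have : tau' false t = fun z => z := by funext z; simp
    rw [this]; exact continuous_id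
  · have : tau' true t = T' t := by funext z; simp
    rw [this]; exact continuous_T' t

/-- The unfolded arm of a word. -/
noncomputable def A : List Bool → Set ℂ
  | [] => {z | z.re = -1 ∧ -1 ≤ z.im ∧ z.im ≤ 1}
  | d :: w => {z | z ∈ U (10 ^ w.length) ∨ tau' d (10 ^ w.length) z ∈ V (10 ^ w.length) ∪ A w}

lemma A_W (w : List Bool) {z : ℂ} (hz : z ∈ A w) : z ∈ W (10 ^ w.length) := by
  induction w generalizing z with
  | nil =>
    obtain ⟨h1, h2, h3⟩ := hz
    simp only [List.length_nil, pow_zero]
    refine ⟨?_, ?_, ?_⟩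
    · rw [lf_eq]; linarith
    · rw [tu_eq]; linarith
    · rw [tl_eq]; linarith
  | cons d w ih =>
    have ht := pow10_pos w.length
    rw [List.length_cons, ← pow10_succ']
    rcases hz with h | h
    · exact (U_sub ht h).1
    · cases d
      · rw [tau'_false] at h
        rcases h with h | h
        · exact V_W ht h
        · exact W_mono ht (by linarith) (ih h)
      · rw [tau'_true] at h
        rw [← T_T' (10 ^ w.length) z]
        apply quad_T (one_le_pow10 _)
        rcases h with h | h
        · exact V_quad ht h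
        · exact W_quad ht (ih h)

lemma isClosed_A (w : List Bool) : IsClosed (A w) := by
  induction w with
  | nil =>
    exact (isClosed_eq Complex.continuous_re continuous_const).inter
      ((isClosed_le continuous_const Complex.continuous_im).inter
        (isClosed_le Complex.continuous_im continuous_const))
  | cons d w ih =>
    exact (isClosed_U _).union (((isClosed_V _).union ih).preimage (continuous_tau' d _))

/-- The column at the left end belongs to the arm. -/
lemma A_col (w : List Bool) {z : ℂ} (h1 : lf (10 ^ w.length) z = 0) (h2 : tu (10 ^ w.length) z ≤ 0)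
    (h3 : tl (10 ^ w.length) z ≤ 0) : z ∈ A w := by
  cases w with
  | nil =>
    simp only [List.length_nil, pow_zero] at h1 h2 h3
    rw [lf_eq] at h1
    rw [tu_eq] at h2
    rw [tl_eq] at h3
    exact ⟨by linarith, by linarith, by linarith⟩
  | cons d w =>
    rw [List.length_cons, ← pow10_succ'] at h1 h2 h3
    have ht := pow10_pos w.length
    set t : ℝ := 10 ^ w.length with htd
    left
    rw [lf_eq] at h1
    rw [tu_eq] at h2
    rw [tl_eq] at h3
    have i1 : z.im ≤ 10 * t := by
      have : (20 * t) * z.im ≤ (20 * t) * (10 * t) := by nlinarith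
      exact le_of_mul_le_mul_left this (by positivity)
    have i2 : -(10 * t) ≤ z.im := by
      have : (20 * t) * (-(10 * t)) ≤ (20 * t) * z.im := by nlinarith
      exact le_of_mul_le_mul_left this (by positivity)
    refine ⟨?_, ?_, ?_⟩
    · rw [lf_eq]; linarith
    · rw [mu_eq, ← htd]; nlinarith
    · rw [el_eq, ← htd]; nlinarith

lemma V_col {t : ℝ} (ht : 0 < t) {z : ℂ} (h1 : rt t z = 0) (h2 : tu t z ≤ 0) (h3 : tl t z ≤ 0) : z ∈ V t := by
  rw [rt_eq] at h1
  rw [tu_eq] at h2
  rw [tl_eq] at h3
  have i1 : z.im ≤ t := by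
    have : (2 * t) * z.im ≤ (2 * t) * t := by nlinarith
    exact le_of_mul_le_mul_left this (by positivity)
  have i2 : -t ≤ z.im := by
    have : (2 * t) * (-t) ≤ (2 * t) * z.im := by nlinarith
    exact le_of_mul_le_mul_left this (by positivity)
  refine ⟨?_, ?_, ?_⟩
  · rw [ml_eq]; nlinarith
  · rw [el_eq]; nlinarith
  · rw [rt_eq]; linarith

lemma convex_N (w : List Bool) (h : Convex ℝ (A w)) : Convex ℝ (V (10 ^ w.length) ∪ A w) := by
  have ht := pow10_pos w.length
  refine glue_convex (convex_V _) h (a := 1) (b := 0) (c := (10 ^ w.length) ^ 2)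
    (a1 := 1) (b1 := 2 * 10 ^ w.length) (c1 := -((10 ^ w.length) ^ 2))
    (a2 := 1) (b2 := -(2 * 10 ^ w.length)) (c2 := -((10 ^ w.length) ^ 2)) ?_ ?_ ?_ ?_ ?_
  · exact fun z hz => hz.2.2
  · intro z hz
    have h1 := (A_W w hz).1
    change 0 ≤ rt _ z
    rw [lf_eq] at h1
    rw [rt_eq]
    linarith
  · rintro z (hz | hz)
    · exact (V_sub ht hz).1
    · exact (A_W w hz).2.1
  · rintro z (hz | hz)
    · exact (V_sub ht hz).2.1
    · exact (A_W w hz).2.2
  · intro z h1 h2 h3
    refine ⟨V_col ht h1 h2 h3, A_col w ?_ h2 h3⟩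
    have h1' : rt (10 ^ w.length) z = 0 := h1
    rw [rt_eq] at h1'
    rw [lf_eq]
    linarith

/-- On the common edge of the two pieces of a block. -/
lemma seg_false {t : ℝ} (ht : 0 < t) {z : ℂ} (h1 : el t z = 0) (h2 : tl (10 * t) z ≤ 0) (h3 : tu t z ≤ 0) :
    z ∈ U t ∧ z ∈ V t := by
  rw [el_eq] at h1
  rw [tl_eq] at h2
  rw [tu_eq] at h3
  have i1 : z.im ≤ t := by
    have : (11 * t) * z.im ≤ (11 * t) * t := by nlinarith
    exact le_of_mul_le_mul_left this (by positivity)
  have i2 : -(10 * t) ≤ z.im := by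
    have : (11 * t) * (-(10 * t)) ≤ (11 * t) * z.im := by nlinarith
    exact le_of_mul_le_mul_left this (by positivity)
  refine ⟨⟨?_, ?_, ?_⟩, ?_, ?_, ?_⟩
  · rw [lf_eq]; nlinarith
  · rw [mu_eq]; nlinarith
  · rw [el_eq]; linarith
  · rw [ml_eq]; nlinarith
  · rw [el_eq]; linarith
  · rw [rt_eq]; nlinarith

lemma seg_true {t : ℝ} (ht : 0 < t) {z : ℂ} (h1 : mu t z = 0) (h2 : tu (10 * t) z ≤ 0) (h3 : tl t (T' t z) ≤ 0) :
    z ∈ U t ∧ T' t z ∈ V t := by
  rw [T'_of_mu h1] at h3 ⊢
  rw [mu_eq] at h1
  rw [tu_eq] at h2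
  rw [tl_eq] at h3
  simp only [Complex.conj_re, Complex.conj_im] at h3
  have i1 : z.im ≤ 10 * t := by
    have : (9 * t) * z.im ≤ (9 * t) * (10 * t) := by nlinarith
    exact le_of_mul_le_mul_left this (by positivity)
  have i2 : t ≤ z.im := by
    have : (9 * t) * t ≤ (9 * t) * z.im := by nlinarith
    exact le_of_mul_le_mul_left this (by positivity)
  refine ⟨⟨?_, ?_, ?_⟩, ?_, ?_, ?_⟩
  · rw [lf_eq]; nlinarith
  · rw [mu_eq]; linarith
  · rw [el_eq]; nlinarith
  · rw [ml_eq, Complex.conj_re, Complex.conj_im]; nlinarith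
  · rw [el_eq, Complex.conj_re, Complex.conj_im]; nlinarith
  · rw [rt_eq, Complex.conj_re]; nlinarith

lemma tlT'_af (t : ℝ) (z : ℂ) : tl t (T' t z) =
    af ((11 / 20 - kap t * (22 * t ^ 2 + 1)) + 9 / 20)
      ((11 / 20 - kap t * (22 * t ^ 2 + 1)) * (11 * t) - 9 / 20 * (9 * t))
      (-((11 / 20 - kap t * (22 * t ^ 2 + 1)) * (10 * t ^ 2)) + 9 / 20 * (10 * t ^ 2)) z := by
  rw [tl_eq]
  simp only [T', af, mu_eq]
  ring

lemma convex_A (w : List Bool) : Convex ℝ (A w) := by
  induction w with
  | nil =>
    have h1 := (convex_af_le 1 0 1).inter ((convex_af_ge 1 0 1).inter ((convex_af_le 0 (-1) (-1)).inter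
      (convex_af_le 0 1 (-1))))
    convert h1 using 1
    ext z
    simp only [A, af, mem_ofPred_eq, mem_inter_iff]
    constructor
    · rintro ⟨h1, h2, h3⟩
      exact ⟨by linarith, by linarith, by linarith, by linarith⟩
    · rintro ⟨h1, h2, h3, h4⟩
      exact ⟨by linarith, by linarith, by linarith⟩
  | cons d w ih =>
    have hN := convex_N w ih
    have ht := pow10_pos w.length
    have ht1 := one_le_pow10 w.length
    set t : ℝ := 10 ^ w.length with htd
    cases d
    · have e : A (false :: w) = U t ∪ (V t ∪ A w) := by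
        ext z
        simp only [A, tau'_false, ← htd]
        rfl
      rw [e]
      refine glue_convex (convex_U t) hN (a := 1) (b := -(9 * t)) (c := 10 * t ^ 2)
        (a1 := 1) (b1 := -(2 * (10 * t))) (c1 := -((10 * t) ^ 2))
        (a2 := 1) (b2 := 2 * t) (c2 := -(t ^ 2)) ?_ ?_ ?_ ?_ ?_
      · exact fun z hz => hz.2.2
      · rintro z (hz | hz)
        · exact hz.2.1
        · exact (W_sub ht (A_W w hz)).2.2.1
      · rintro z (hz | hz | hz)
        · exact (U_sub ht hz).1.2.2
        · exact (V_W ht hz).2.2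
        · exact (W_mono (s := 10 * t) ht (by linarith) (A_W w hz)).2.2
      · rintro z (hz | hz | hz)
        · exact (U_sub ht hz).2.2.1
        · exact (V_sub ht hz).1
        · exact (A_W w hz).2.1
      · intro z h1 h2 h3
        have := seg_false ht h1 h2 h3
        exact ⟨this.1, Or.inl this.2⟩
    · have e : A (true :: w) = U t ∪ (T' t ⁻¹' (V t ∪ A w)) := by
        ext z
        simp only [A, tau'_true, ← htd]
        rfl
      rw [e]
      have hq : ∀ z, T' t z ∈ V t ∪ A w → T' t z ∈ Quad t := by
        rintro z (hz | hz)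
        · exact V_quad ht hz
        · exact W_quad ht (A_W w hz)
      refine glue_convex (convex_U t) (convex_T'_preimage t hN) (a := 1) (b := 11 * t) (c := -(10 * t ^ 2))
        (a1 := 1) (b1 := 2 * (10 * t)) (c1 := -((10 * t) ^ 2))
        (a2 := ((11 / 20 - kap t * (22 * t ^ 2 + 1)) + 9 / 20))
        (b2 := ((11 / 20 - kap t * (22 * t ^ 2 + 1)) * (11 * t) - 9 / 20 * (9 * t)))
        (c2 := (-((11 / 20 - kap t * (22 * t ^ 2 + 1)) * (10 * t ^ 2)) + 9 / 20 * (10 * t ^ 2))) ?_ ?_ ?_ ?_ ?_
      · exact fun z hz => hz.2.1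
      · intro z hz
        change 0 ≤ mu t z
        have h1 := ml_T' t z
        have h2 := (hq z hz).1
        linarith
      · rintro z (hz | hz)
        · exact (U_sub ht hz).1.2.1
        · have := quad_T ht1 (hq z hz)
          rw [T_T'] at this
          exact this.2.1
      · rintro z (hz | hz)
        · rw [← tlT'_af]
          exact T'_tl ht1 hz.2.1 hz.2.2
        · rw [← tlT'_af]
          exact (hq z hz).2.2.1
      · intro z h1 h2 h3
        rw [← tlT'_af] at h3
        have := seg_true ht h1 h2 h3
        exact ⟨this.1, Or.inl this.2⟩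

open Classical in
lemma A_hull_cons (d : Bool) (w : List Bool) (h : ∃ F : Finset ℂ, A w = convexHull ℝ (F : Set ℂ)) :
    ∃ F : Finset ℂ, A (d :: w) = convexHull ℝ (F : Set ℂ) ∧
      ∀ z ∈ F, z = pa (10 * 10 ^ w.length) ∨ z = pb (10 * 10 ^ w.length) ∨ -(10 ^ w.length) ^ 2 ≤ z.re := by
  obtain ⟨F, hF⟩ := h
  have ht := pow10_pos w.length
  have ht1 := one_le_pow10 w.length
  have hN := convex_N w (convex_A w)
  have hA := convex_A (d :: w)
  set t : ℝ := 10 ^ w.length with htd
  -- hull of the right part
  have e1 : V t ∪ A w = convexHull ℝ ((({pa (10 * t), pa t, pb t} : Finset ℂ) ∪ F : Finset ℂ) : Set ℂ) := by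
    rw [Finset.coe_union]
    apply hull_union _ hF hN
    rw [V_hull ht]
    simp
  set G : Finset ℂ := ({pa (10 * t), pa t, pb t} : Finset ℂ) ∪ F with hG
  have hGsub : ∀ z ∈ G, z ∈ V t ∪ A w := by
    intro z hz
    rw [e1]
    exact subset_convexHull ℝ _ hz
  have e2 : (tau' d t) ⁻¹' (V t ∪ A w) = convexHull ℝ ((G.image (tau d t) : Finset ℂ) : Set ℂ) := by
    rw [Finset.coe_image]
    cases d
    · have : tau' false t = fun z => z := by funext z; simp
      rw [this]
      have : tau false t = fun z => z := by funext z; simp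
      rw [this]
      simp only [image_id', preimage_id']
      exact e1
    · have : tau' true t = T' t := by funext z; simp
      rw [this]
      have : tau true t = T t := by funext z; simp
      rw [this, T'_preimage_eq, e1, ← Taff_coe, AffineMap.image_convexHull]
  have e3 : A (d :: w) = U t ∪ (tau' d t) ⁻¹' (V t ∪ A w) := by
    ext z
    simp only [A, ← htd]
    rfl
  refine ⟨({pa (10 * t), pb t, pb (10 * t)} : Finset ℂ) ∪ G.image (tau d t), ?_, ?_⟩
  · rw [e3] at hA ⊢
    rw [Finset.coe_union]
    apply hull_union _ e2 hA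
    rw [U_hull ht]
    simp
  · intro z hz
    rw [Finset.mem_union] at hz
    rcases hz with hz | hz
    · simp only [Finset.mem_insert, Finset.mem_singleton] at hz
      rcases hz with rfl | rfl | rfl
      · exact Or.inl rfl
      · right; right; simp [pb]
      · right; left; rfl
    · rw [Finset.mem_image] at hz
      obtain ⟨v, hv, rfl⟩ := hz
      rw [hG, Finset.mem_union] at hv
      have hcase : v = pa (10 * t) ∨ (-t ^ 2 ≤ v.re ∧ v ∈ Quad t) := by
        rcases hv with hv | hv
        · simp only [Finset.mem_insert, Finset.mem_singleton] at hv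
          obtain ⟨v1, v2, v3⟩ := V_vert ht
          rcases hv with rfl | rfl | rfl
          · exact Or.inl rfl
          · right; exact ⟨by simp [pa], V_quad ht v2⟩
          · right; exact ⟨by simp [pb], V_quad ht v3⟩
        · right
          have h1 : v ∈ A w := by rw [hF]; exact subset_convexHull ℝ _ hv
          have h2 := A_W w h1
          refine ⟨?_, W_quad ht h2⟩
          have h3 := h2.1
          rw [lf_eq] at h3
          rw [← htd] at h3
          linarith
      rcases hcase with rfl | ⟨h1, h2⟩
      · cases d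
        · left; simp
        · right; left
          rw [tau_true, T_of_ml]
          · apply Complex.ext <;> simp [pa, pb]
          · simp only [ml_eq, pa]; ring
      · right; right
        cases d
        · rw [tau_false]; exact h1
        · rw [tau_true]
          simp only [T]
          have h3 : 0 ≤ kap t * (-ml t v) := mul_nonneg (kap_pos t).le (by linarith [h2.1])
          linarith

lemma A_hull (w : List Bool) : ∃ F : Finset ℂ, A w = convexHull ℝ (F : Set ℂ) := by
  induction w with
  | nil =>
    classical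
    refine ⟨{⟨-1, -1⟩, ⟨-1, 1⟩}, ?_⟩
    simp only [Finset.coe_insert, Finset.coe_singleton]
    rw [convexHull_pair]
    ext z
    rw [segment_eq_image_lineMap]
    constructor
    · rintro ⟨h1, h2, h3⟩
      refine ⟨(z.im + 1) / 2, ⟨by linarith, by linarith⟩, ?_⟩
      apply Complex.ext
      · simp [AffineMap.lineMap_apply, h1]
      · simp only [AffineMap.lineMap_apply, vsub_eq_sub, vadd_eq_add, Complex.add_im, Complex.smul_im,
          Complex.sub_im, smul_eq_mul]
        ring
    · rintro ⟨θ, ⟨h0, h1⟩, rfl⟩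
      refine ⟨?_, ?_, ?_⟩
      · simp [AffineMap.lineMap_apply]
      · simp only [AffineMap.lineMap_apply, vsub_eq_sub, vadd_eq_add, Complex.add_im, Complex.smul_im,
          Complex.sub_im, smul_eq_mul]
        linarith
      · simp only [AffineMap.lineMap_apply, vsub_eq_sub, vadd_eq_add, Complex.add_im, Complex.smul_im,
          Complex.sub_im, smul_eq_mul]
        linarith
  | cons d w ih =>
    obtain ⟨F, hF, _⟩ := A_hull_cons d w ih
    exact ⟨F, hF⟩

end Pool.Agent.P086e3e
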