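import Pool.Agent.Lib.P086e3e.Defs

set_option autoImplicit false

open Complex Set

namespace Pool.Agent.P086e3e

/-- A real affine functional on the plane. -/
def af (α β γ : ℝ) (z : ℂ) : ℝ := α * z.re + β * z.im + γ

lemma continuous_af (α β γ : ℝ) : Continuous (af α β γ) := by
  unfold af
  exact ((continuous_const.mul Complex.continuous_re).add (continuous_const.mul Complex.continuous_im)).add
    continuous_const

lemma af_lineMap (α β γ : ℝ) (x y : ℂ) (θ : ℝ) :
    af α β γ (AffineMap.lineMap x y θ) = (1 - θ) * af α β γ x + θ * af α β γ y := by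
  simp only [af, AffineMap.lineMap_apply, vsub_eq_sub, vadd_eq_add, Complex.add_re, Complex.add_im,
    Complex.smul_re, Complex.smul_im, Complex.sub_re, Complex.sub_im, smul_eq_mul]
  ring

lemma convex_af_le (α β γ : ℝ) : Convex ℝ {z | af α β γ z ≤ 0} := by
  rw [convex_iff_segment_subset]
  intro x hx y hy w hw
  rw [segment_eq_image_lineMap] at hw
  obtain ⟨θ, ⟨h0, h1⟩, rfl⟩ := hw
  simp only [mem_ofPred_eq] at hx hy ⊢
  rw [af_lineMap]
  nlinarith

lemma convex_af_ge (α β γ : ℝ) : Convex ℝ {z | 0 ≤ af α β γ z} := by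
  rw [convex_iff_segment_subset]
  intro x hx y hy w hw
  rw [segment_eq_image_lineMap] at hw
  obtain ⟨θ, ⟨h0, h1⟩, rfl⟩ := hw
  simp only [mem_ofPred_eq] at hx hy ⊢
  rw [af_lineMap]
  nlinarith

lemma isClosed_af_le (α β γ : ℝ) : IsClosed {z | af α β γ z ≤ 0} :=
  isClosed_le (continuous_af α β γ) continuous_const

lemma isClosed_af_ge (α β γ : ℝ) : IsClosed {z | 0 ≤ af α β γ z} :=
  isClosed_le continuous_const (continuous_af α β γ)

lemma isOpen_af_lt (α β γ : ℝ) : IsOpen {z | af α β γ z < 0} :=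
  isOpen_lt (continuous_af α β γ) continuous_const

lemma isOpen_af_gt (α β γ : ℝ) : IsOpen {z | 0 < af α β γ z} :=
  isOpen_lt continuous_const (continuous_af α β γ)

/-- At an interior point a supporting functional is negative. -/
lemma af_lt_of_interior {α β γ : ℝ} (h : α ≠ 0 ∨ β ≠ 0) {S : Set ℂ} (hS : ∀ x ∈ S, af α β γ x ≤ 0) {z : ℂ}
    (hz : z ∈ interior S) : af α β γ z < 0 := by
  obtain ⟨ε, hε, hb⟩ := Metric.isOpen_iff.1 isOpen_interior z hz
  have hpos : 0 < α ^ 2 + β ^ 2 := by
    rcases h with h | h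
    · have := sq_nonneg β; have := pow_pos (abs_pos.2 h) 2; rw [sq_abs] at this; linarith
    · have := sq_nonneg α; have := pow_pos (abs_pos.2 h) 2; rw [sq_abs] at this; linarith
  set v : ℂ := ⟨α, β⟩ with hv
  have hvn : 0 ≤ ‖v‖ := norm_nonneg v
  set δ : ℝ := ε / (2 * (‖v‖ + 1)) with hδ
  have hδ0 : 0 < δ := by positivity
  have hmem : z + δ • v ∈ Metric.ball z ε := by
    rw [Metric.mem_ball, dist_eq_norm, add_sub_cancel_left, norm_smul, Real.norm_eq_abs, abs_of_pos hδ0, hδ,
      div_mul_eq_mul_div, div_lt_iff₀ (by positivity)]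
    nlinarith
  have h1 := hS _ (interior_subset (hb hmem))
  have h2 : af α β γ (z + δ • v) = af α β γ z + δ * (α ^ 2 + β ^ 2) := by
    simp only [af, Complex.add_re, Complex.add_im, Complex.smul_re, Complex.smul_im, smul_eq_mul, hv]
    ring
  rw [h2] at h1
  have : 0 < δ * (α ^ 2 + β ^ 2) := by positivity
  linarith

/-- Gluing two convex sets along a common edge. -/
lemma glue_convex {K N : Set ℂ} (hK : Convex ℝ K) (hN : Convex ℝ N) {a b c a1 b1 c1 a2 b2 c2 : ℝ}
    (hKg : ∀ z ∈ K, af a b c z ≤ 0) (hNg : ∀ z ∈ N, 0 ≤ af a b c z)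
    (h1 : ∀ z ∈ K ∪ N, af a1 b1 c1 z ≤ 0) (h2 : ∀ z ∈ K ∪ N, af a2 b2 c2 z ≤ 0)
    (hseg : ∀ z, af a b c z = 0 → af a1 b1 c1 z ≤ 0 → af a2 b2 c2 z ≤ 0 → z ∈ K ∧ z ∈ N) :
    Convex ℝ (K ∪ N) := by
  have key : ∀ x ∈ K, ∀ y ∈ N, segment ℝ x y ⊆ K ∪ N := by
    intro x hx y hy w hw
    rw [segment_eq_image_lineMap] at hw
    obtain ⟨θ, ⟨hθ0, hθ1⟩, rfl⟩ := hw
    have gx := hKg x hx
    have gy := hNg y hy
    have x1 := h1 x (Or.inl hx)
    have x2 := h2 x (Or.inl hx)
    have y1 := h1 y (Or.inr hy)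
    have y2 := h2 y (Or.inr hy)
    rcases eq_or_lt_of_le (sub_nonneg.2 (gx.trans gy)) with h0 | h0
    · have e1 : af a b c x = 0 := by linarith
      have e2 : af a b c y = 0 := by linarith
      refine Or.inl (hseg _ ?_ ?_ ?_).1
      · rw [af_lineMap, e1, e2]; ring
      · rw [af_lineMap]; nlinarith
      · rw [af_lineMap]; nlinarith
    · set θ₀ : ℝ := -af a b c x / (af a b c y - af a b c x) with hθ₀
      have t0 : 0 ≤ θ₀ := div_nonneg (by linarith) h0.le
      have t1 : θ₀ ≤ 1 := by rw [hθ₀, div_le_one h0]; linarith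
      have hmul : θ₀ * (af a b c y - af a b c x) = -af a b c x := by
        rw [hθ₀]; field_simp
      have hz : AffineMap.lineMap x y θ₀ ∈ K ∧ AffineMap.lineMap x y θ₀ ∈ N := by
        refine hseg _ ?_ ?_ ?_
        · rw [af_lineMap]; linarith
        · rw [af_lineMap]; nlinarith
        · rw [af_lineMap]; nlinarith
      rcases le_total θ θ₀ with h | h
      · left
        have h3 : AffineMap.lineMap x y θ ∈ segment ℝ x (AffineMap.lineMap x y θ₀) := by
          have h4 : AffineMap.lineMap x y '' segment ℝ (0:ℝ) θ₀ =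
              segment ℝ (AffineMap.lineMap x y (0:ℝ)) (AffineMap.lineMap x y θ₀) :=
            image_segment ℝ (AffineMap.lineMap x y : ℝ →ᵃ[ℝ] ℂ) 0 θ₀
          rw [AffineMap.lineMap_apply_zero] at h4
          rw [← h4, segment_eq_Icc t0]
          exact ⟨θ, ⟨hθ0, h⟩, rfl⟩
        exact (convex_iff_segment_subset.1 hK) hx hz.1 h3
      · right
        have h3 : AffineMap.lineMap x y θ ∈ segment ℝ (AffineMap.lineMap x y θ₀) y := by
          have h4 : AffineMap.lineMap x y '' segment ℝ θ₀ (1:ℝ) =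
              segment ℝ (AffineMap.lineMap x y θ₀) (AffineMap.lineMap x y (1:ℝ)) :=
            image_segment ℝ (AffineMap.lineMap x y : ℝ →ᵃ[ℝ] ℂ) θ₀ 1
          rw [AffineMap.lineMap_apply_one] at h4
          rw [← h4, segment_eq_Icc t1]
          exact ⟨θ, ⟨h, hθ1⟩, rfl⟩
        exact (convex_iff_segment_subset.1 hN) hz.2 hy h3
  rw [convex_iff_segment_subset]
  rintro x (hx | hx) y (hy | hy)
  · exact ((convex_iff_segment_subset.1 hK) hx hy).trans subset_union_left
  · exact key x hx y hy
  · rw [segment_symm]; exact key y hy x hx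
  · exact ((convex_iff_segment_subset.1 hN) hx hy).trans subset_union_right

/-- If the union of two hulls is convex, it is the hull of the union. -/
lemma hull_union {K N : Set ℂ} {F G : Finset ℂ} (hK : K = convexHull ℝ (F : Set ℂ)) (hN : N = convexHull ℝ (G : Set ℂ))
    (h : Convex ℝ (K ∪ N)) : K ∪ N = convexHull ℝ ((F : Set ℂ) ∪ (G : Set ℂ)) := by
  apply subset_antisymm
  · apply union_subset
    · rw [hK]; exact convexHull_mono subset_union_left
    · rw [hN]; exact convexHull_mono subset_union_right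
  · apply convexHull_min _ h
    apply union_subset_union
    · rw [hK]; exact subset_convexHull ℝ _
    · rw [hN]; exact subset_convexHull ℝ _

section dist

variable {M : Set ℂ}

lemma bddBelow_dd (x y : ℂ) : BddBelow (range fun b : frontier M => (dist x (b : ℂ) + dist (b : ℂ) y)) :=
  ⟨0, by rintro _ ⟨b, rfl⟩; positivity⟩

lemma iInf_of_left {x y : ℂ} (hx : x ∈ frontier M) :
    (⨅ b : frontier M, (dist x (b : ℂ) + dist (b : ℂ) y)) = dist x y := by
  apply le_antisymm
  · refine (ciInf_le (bddBelow_dd x y) ⟨x, hx⟩).trans ?_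
    simp
  · have : Nonempty (frontier M) := ⟨⟨x, hx⟩⟩
    exact le_ciInf fun b => dist_triangle _ _ _

lemma iInf_comm (x y : ℂ) : (⨅ b : frontier M, (dist x (b : ℂ) + dist (b : ℂ) y)) =
    ⨅ b : frontier M, (dist y (b : ℂ) + dist (b : ℂ) x) := by
  congr 1
  funext b
  rw [dist_comm x, dist_comm _ y, add_comm]

lemma iInf_of_right {x y : ℂ} (hy : y ∈ frontier M) :
    (⨅ b : frontier M, (dist x (b : ℂ) + dist (b : ℂ) y)) = dist x y := by
  rw [iInf_comm, iInf_of_left hy, dist_comm]

lemma dblDist_sheet_same (s : Bool) (x y : ℂ) : dblDist M (sheet M s x) (sheet M s y) = dist x y := by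
  unfold dblDist sheet
  by_cases hx : x ∈ frontier M
  · by_cases hy : y ∈ frontier M
    · simp [hx, hy]
    · simp only [hx, hy, if_true, if_false]
      split_ifs
      · rfl
      · exact iInf_of_left hx
  · by_cases hy : y ∈ frontier M
    · simp only [hx, hy, if_true, if_false]
      split_ifs
      · rfl
      · exact iInf_of_right hy
    · simp [hx, hy]

lemma dblDist_sheet_diff {s t : Bool} (hst : s ≠ t) (x y : ℂ) : dblDist M (sheet M s x) (sheet M t y) =
    ⨅ b : frontier M, (dist x (b : ℂ) + dist (b : ℂ) y) := by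
  unfold dblDist sheet
  by_cases hx : x ∈ frontier M
  · by_cases hy : y ∈ frontier M
    · simp only [hx, hy, if_true]
      exact (iInf_of_left hx).symm
    · simp only [hx, hy, if_true, if_false]
      split_ifs
      · exact (iInf_of_left hx).symm
      · rfl
  · by_cases hy : y ∈ frontier M
    · simp only [hx, hy, if_true, if_false]
      split_ifs
      · exact (iInf_of_right hy).symm
      · rfl
    · simp only [hx, hy, if_false, hst]

/-- Crossing an edge: the distance between points on different faces near an inner point of an edge is the distance in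
the development. -/
lemma edge_cross (hMc : IsClosed M) {α β γ : ℝ} (h0 : α ≠ 0 ∨ β ≠ 0) (hM : ∀ x ∈ M, af α β γ x ≤ 0) {ρ : ℂ → ℂ}
    (hρ : ∀ x y, dist (ρ x) (ρ y) = dist x y) (hfix : ∀ x, af α β γ x = 0 → ρ x = x) {z : ℂ}
    {δ : ℝ} (hδ : ∀ x, dist x z < δ → af α β γ x ≤ 0 → x ∈ M) {x y : ℂ} (hx : dist x z < δ / 4)
    (hy : dist y z < δ / 4) (hgx : af α β γ x ≤ 0) (hgy : 0 ≤ af α β γ y) :
    (⨅ b : frontier M, (dist x (b : ℂ) + dist (b : ℂ) (ρ y))) = dist x y := by
  have hδ0 : 0 < δ := by
    have := dist_nonneg (x := x) (y := z)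
    linarith
  -- the crossing point
  have hcross : ∃ b, af α β γ b = 0 ∧ b ∈ segment ℝ x y := by
    rcases eq_or_lt_of_le (sub_nonneg.2 (hgx.trans hgy)) with h | h
    · exact ⟨x, by linarith, left_mem_segment ℝ x y⟩
    · refine ⟨AffineMap.lineMap x y (-af α β γ x / (af α β γ y - af α β γ x)), ?_, ?_⟩
      · rw [af_lineMap]
        field_simp
        ring
      · rw [segment_eq_image_lineMap]
        exact ⟨_, ⟨div_nonneg (by linarith) h.le, by rw [div_le_one h]; linarith⟩, rfl⟩
  obtain ⟨b, hb0, hbs⟩ := hcross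
  have hbz : dist b z < δ := by
    have : b ∈ Metric.ball z (δ / 4) :=
      (convex_iff_segment_subset.1 (convex_ball z (δ / 4))) hx hy hbs
    rw [Metric.mem_ball] at this
    linarith
  have hbM : b ∈ M := hδ b hbz hb0.le
  have hbf : b ∈ frontier M := by
    rw [hMc.frontier_eq]
    exact ⟨hbM, fun hi => by have := af_lt_of_interior h0 hM hi; linarith⟩
  apply le_antisymm
  · refine (ciInf_le (bddBelow_dd x (ρ y)) ⟨b, hbf⟩).trans ?_
    simp only
    have h1 : dist b (ρ y) = dist b y := by
      conv_lhs => rw [← hfix b hb0]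
      exact hρ b y
    rw [h1]
    exact (dist_add_dist_of_mem_segment hbs).le
  · have : Nonempty (frontier M) := ⟨⟨b, hbf⟩⟩
    refine le_ciInf fun c => ?_
    obtain ⟨c, hc⟩ := c
    simp only
    have hcM : c ∈ M := hMc.frontier_subset hc
    rcases eq_or_lt_of_le (hM c hcM) with h | h
    · have h1 : dist c (ρ y) = dist c y := by
        conv_lhs => rw [← hfix c h]
        exact hρ c y
      rw [h1]
      exact dist_triangle _ _ _
    · have hfar : δ ≤ dist c z := by
        by_contra hlt
        push Not at hlt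
        have hopen : IsOpen (Metric.ball z δ ∩ {w | af α β γ w < 0}) :=
          Metric.isOpen_ball.inter (isOpen_af_lt α β γ)
        have hsub : Metric.ball z δ ∩ {w | af α β γ w < 0} ⊆ M := by
          rintro w ⟨hw1, hw2⟩
          exact hδ w hw1 (le_of_lt hw2)
        have hint : c ∈ interior M := (interior_maximal hsub hopen) ⟨hlt, h⟩
        rw [hMc.frontier_eq] at hc
        exact hc.2 hint
      have t1 : dist c z ≤ dist x c + dist x z := by
        rw [dist_comm x c]; exact dist_triangle _ _ _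
      have t2 : dist x y ≤ dist x z + dist y z := by
        rw [dist_comm y z]; exact dist_triangle _ _ _
      have t3 := dist_nonneg (x := c) (y := ρ y)
      linarith

end dist

end Pool.Agent.P086e3e
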