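import Pool.Agent.Lib.P086e3e.Path2

set_option autoImplicit false

open Complex Set Topology

namespace Pool.Agent.P086e3e

lemma conj_P_conj (z : ℂ) : (starRingEnd ℂ) ((starRingEnd ℂ) z) = z := Complex.conj_conj z

/-- Reading the first letter. -/
lemma pa_mem_false (w : List Bool) : pa (10 ^ w.length) ∈ A (false :: w) := by
  right
  rw [tau'_false]
  exact Or.inl (V_vert (pow10_pos _)).2.1

lemma pa_not_mem_true (w : List Bool) : pa (10 ^ w.length) ∉ A (true :: w) := by
  have ht := pow10_pos w.length
  rintro (h | h)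
  · have := h.2.2
    rw [el_eq] at this
    simp only [pa] at this
    nlinarith
  · rw [tau'_true] at h
    have := (N_quad h).1
    rw [ml_T', mu_eq] at this
    simp only [pa] at this
    nlinarith

lemma pb_mem_A (d : Bool) (w : List Bool) : pb (10 ^ w.length) ∈ A (d :: w) := Or.inl (U_vert (pow10_pos _)).2.1

lemma A_false_iff (w : List Bool) (z : ℂ) : z ∈ A w ↔ z ∈ A (false :: w) ∧ lf (10 ^ w.length) z ≤ 0 := by
  have ht := pow10_pos w.length
  constructor
  · intro h
    refine ⟨?_, (A_W w h).1⟩
    right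
    rw [tau'_false]
    exact Or.inr h
  · rintro ⟨h | h, h'⟩
    · obtain ⟨_, h1, h2, h3⟩ := U_sub ht h
      refine A_col w ?_ h2 h3
      rw [lf_eq] at h' ⊢
      rw [rt_eq] at h1
      linarith
    · rw [tau'_false] at h
      rcases h with h | h
      · obtain ⟨h2, h3, _⟩ := V_sub ht h
        refine A_col w ?_ h2 h3
        have h1 := h.2.2
        rw [lf_eq] at h' ⊢
        rw [rt_eq] at h1
        linarith
      · exact h

lemma A_true_iff (w : List Bool) (z : ℂ) :
    z ∈ A w ↔ T (10 ^ w.length) z ∈ A (true :: w) ∧ lf (10 ^ w.length) z ≤ 0 ∧ ml (10 ^ w.length) z ≤ 0 := by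
  have ht := pow10_pos w.length
  constructor
  · intro h
    refine ⟨?_, (A_W w h).1, (W_sub ht (A_W w h)).1⟩
    right
    rw [tau'_true, T'_T]
    exact Or.inr h
  · rintro ⟨h | h, h', h''⟩
    · have h1 := h.2.1
      rw [mu_T] at h1
      have h2 : ml (10 ^ w.length) z = 0 := by linarith
      rw [T_of_ml h2] at h
      obtain ⟨_, h3, _, _⟩ := U_sub ht h
      rw [rt_eq, Complex.conj_re] at h3
      have h4 : lf (10 ^ w.length) z = 0 := by
        rw [lf_eq] at h' ⊢
        linarith
      rw [ml_eq] at h2
      have h5 : z.im = -(10 ^ w.length) := by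
        rw [lf_eq] at h4
        have : (11 * 10 ^ w.length) * z.im = (11 * 10 ^ w.length) * (-(10 ^ w.length)) := by nlinarith
        exact mul_left_cancel₀ (by positivity) this
      exact A_col' w h4 h5.ge (by linarith)
    · rw [tau'_true, T'_T] at h
      rcases h with h | h
      · obtain ⟨h2, h3, _⟩ := V_sub ht h
        refine A_col w ?_ h2 h3
        have h1 := h.2.2
        rw [lf_eq] at h' ⊢
        rw [rt_eq] at h1
        linarith
      · exact h

lemma A_inj {w w' : List Bool} (hl : w.length = w'.length) (h : A w = A w') : w = w' := by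
  induction w generalizing w' with
  | nil =>
    cases w' with
    | nil => rfl
    | cons d w' => simp at hl
  | cons d w ih =>
    cases w' with
    | nil => simp at hl
    | cons d' w' =>
      have hl' : w.length = w'.length := by simpa using hl
      have hd : d = d' := by
        cases d
        · cases d'
          · rfl
          · exfalso
            have := pa_mem_false w
            rw [h, hl'] at this
            exact pa_not_mem_true w' this
        · cases d'
          · exfalso
            have := pa_mem_false w'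
            rw [← h, ← hl'] at this
            exact pa_not_mem_true w this
          · rfl
      subst hd
      congr 1
      apply ih hl'
      ext z
      cases d
      · rw [A_false_iff w, A_false_iff w', h, hl']
      · rw [A_true_iff w, A_true_iff w', h, hl']

lemma A_conj_inj {w w' : List Bool} (hl : w.length = w'.length) (h : ∀ z, z ∈ A w' ↔ (starRingEnd ℂ) z ∈ A w) :
    w = w' := by
  induction w generalizing w' with
  | nil =>
    cases w' with
    | nil => rfl
    | cons d w' => simp at hl
  | cons d w ih =>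
    cases w' with
    | nil => simp at hl
    | cons d' w' =>
      have hl' : w.length = w'.length := by simpa using hl
      have hd : d = false := by
        cases d
        · rfl
        · exfalso
          have h1 := (h _).1 (pb_mem_A d' w')
          rw [conj_pb, ← hl'] at h1
          exact pa_not_mem_true w h1
      have hd' : d' = false := by
        cases d'
        · rfl
        · exfalso
          have h1 := (h (pa (10 ^ w.length))).2 (by rw [conj_pa]; exact pb_mem_A d w)
          rw [hl'] at h1
          exact pa_not_mem_true w' h1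
      subst hd hd'
      congr 1
      apply ih hl'
      intro z
      rw [A_false_iff w, A_false_iff w', h, ← hl']
      rw [lf_eq, lf_eq, Complex.conj_re]

lemma A_of_P (w : List Bool) (z : ℂ) : z ∈ A w ↔ z ∈ P w ∧ lf (10 ^ w.length) z ≤ 0 := by
  have hY := pow10_pos w.length
  constructor
  · intro h
    exact ⟨Or.inl h, (A_W w h).1⟩
  · rintro ⟨h | h, h'⟩
    · exact h
    · have h1 := A_W w h
      have h2 := h1.1
      rw [lf_R] at h2
      have h3 := W_im hY h1
      simp only [R] at h3
      exact A_col' w (by linarith) (by linarith [h3.2]) (by linarith [h3.1])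

lemma P_inj {w w' : List Bool} (hl : w.length = w'.length) (h : P w = P w') : w = w' := by
  apply A_inj hl
  ext z
  rw [A_of_P, A_of_P, h, hl]

lemma P_conj_inj {w w' : List Bool} (hl : w.length = w'.length) (h : ∀ z, z ∈ P w' ↔ (starRingEnd ℂ) z ∈ P w) :
    w = w' := by
  apply A_conj_inj hl
  intro z
  rw [A_of_P, A_of_P, h, ← hl, lf_eq, lf_eq, Complex.conj_re]

lemma P_R (w : List Bool) (z : ℂ) : R (10 ^ w.length) z ∈ P w ↔ z ∈ P w := by
  unfold P
  constructor
  · rintro (h | h)
    · exact Or.inr h
    · left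
      have h' : R (10 ^ w.length) (R (10 ^ w.length) z) ∈ A w := h
      rwa [R_R] at h'
  · rintro (h | h)
    · right
      rw [mem_preimage, R_R]
      exact h
    · exact Or.inl h

lemma isCompact_P (d : Bool) (w : List Bool) : IsCompact (P (d :: w)) := by
  obtain ⟨F, hF, _⟩ := P_hull d w
  rw [hF]
  exact F.finite_toSet.isCompact_convexHull ℝ

lemma P_im (d : Bool) (w : List Bool) {z : ℂ} (hz : z ∈ P (d :: w)) :
    z.im ≤ 10 * 10 ^ w.length ∧ (z.im = 10 * 10 ^ w.length → z = pb (10 * 10 ^ w.length)) := by
  have ht := pow10_pos w.length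
  unfold P at hz
  rw [len_eq] at hz
  rcases hz with h | h
  · have h1 := A_W _ h
    rw [len_eq] at h1
    refine ⟨(W_im (by positivity) h1).2, fun h2 => ?_⟩
    obtain ⟨g1, g2, g3⟩ := h1
    rw [lf_eq] at g1
    rw [tu_eq, h2] at g2
    apply Complex.ext
    · simp only [pb]; nlinarith
    · simp only [pb]; exact h2
  · have h1 := A_W _ h
    rw [len_eq] at h1
    have h3 := (W_im (by positivity) h1).1
    simp only [R] at h3
    refine ⟨by linarith, fun h2 => ?_⟩
    obtain ⟨g1, g2, g3⟩ := h1
    rw [lf_eq] at g1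
    rw [tl_eq] at g3
    simp only [R] at g1 g3
    rw [h2] at g3
    apply Complex.ext
    · simp only [pb]; nlinarith
    · simp only [pb]; exact h2

lemma pb_extreme (d : Bool) (w : List Bool) : pb (10 * 10 ^ w.length) ∈ (P (d :: w)).extremePoints ℝ := by
  have ht := pow10_pos w.length
  rw [mem_extremePoints_iff_left]
  refine ⟨Or.inl (Or.inl (U_vert ht).2.2), ?_⟩
  intro x hx y hy hxy
  rw [openSegment_eq_image_lineMap] at hxy
  obtain ⟨θ, ⟨h0, h1⟩, h2⟩ := hxy
  have e := af_lineMap 0 1 0 x y θ
  rw [h2] at e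
  simp only [af, pb] at e
  obtain ⟨g1, g2⟩ := P_im d w hx
  obtain ⟨g3, _⟩ := P_im d w hy
  apply g2
  nlinarith

theorem not_congr {d d' : Bool} {w w' : List Bool} (hl : w.length = w'.length)
    (h : Congr (P (d :: w)) (P (d' :: w'))) : (d :: w) = (d' :: w') := by
  obtain ⟨φ, hφ⟩ := h
  have ht := pow10_pos w.length
  have ht1 := one_le_pow10 w.length
  set t : ℝ := 10 ^ w.length with htd
  have hlen : (d :: w).length = (d' :: w').length := by simp [hl]
  set c : ℂ := ⟨-(10 * t) ^ 2, 0⟩ with hc
  have hRc : ∀ z, R (10 * t) z = c + c - z := by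
    intro z
    apply Complex.ext
    · simp only [R, hc, Complex.add_re, Complex.sub_re]; ring
    · simp only [R, hc, Complex.add_im, Complex.sub_im]; ring
  have hPR : ∀ z, R (10 * t) z ∈ P (d :: w) ↔ z ∈ P (d :: w) := by
    intro z
    have := P_R (d :: w) z
    rwa [len_eq] at this
  have hPR' : ∀ z, R (10 * t) z ∈ P (d' :: w') ↔ z ∈ P (d' :: w') := by
    intro z
    have := P_R (d' :: w') z
    rwa [len_eq, ← hl] at this
  -- the affine map
  set ψ : ℂ ≃ᵃⁱ[ℝ] ℂ := φ.toRealAffineIsometryEquiv with hψ
  have hψφ : ∀ z, ψ z = φ z := fun z => rfl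
  have hcomp := isCompact_P d' w'
  have hne : (P (d' :: w')).Nonempty := ⟨_, (pb_extreme d' w').1⟩
  -- the centre is fixed
  have hcc : φ c = c := by
    by_contra hcon
    have hsym : ∀ z ∈ P (d' :: w'), φ c + φ c - z ∈ P (d' :: w') := by
      intro z hz
      rw [← hφ] at hz
      obtain ⟨x, hx, rfl⟩ := hz
      have h1 : R (10 * t) x ∈ P (d :: w) := (hPR x).2 hx
      have h2 : φ (R (10 * t) x) ∈ P (d' :: w') := by rw [← hφ]; exact ⟨_, h1, rfl⟩
      have h3 : φ (midpoint ℝ x (R (10 * t) x)) = midpoint ℝ (φ x) (φ (R (10 * t) x)) :=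
        φ.map_midpoint x (R (10 * t) x)
      have h4 : midpoint ℝ x (R (10 * t) x) = c := by
        rw [hRc, midpoint_eq_smul_add]
        apply Complex.ext
        · simp; ring
        · simp; ring
      rw [h4, midpoint_eq_smul_add] at h3
      have h5 : φ c + φ c - φ x = φ (R (10 * t) x) := by
        rw [h3]
        apply Complex.ext
        · simp; ring
        · simp; ring
      rw [h5]
      exact h2
    set v : ℂ := φ c - c with hv
    have hv0 : v ≠ 0 := sub_ne_zero.2 hcon
    have hcont : ContinuousOn (fun z : ℂ => z.re * v.re + z.im * v.im) (P (d' :: w')) := by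
      exact ((Complex.continuous_re.mul continuous_const).add (Complex.continuous_im.mul continuous_const)).continuousOn
    obtain ⟨m, hm, hmax⟩ := hcomp.exists_isMaxOn hne hcont
    have h1 : R (10 * t) m ∈ P (d' :: w') := (hPR' m).2 hm
    have h2 := hsym _ h1
    have h3 := hmax h2
    have h4 : φ c + φ c - R (10 * t) m = m + (v + v) := by
      rw [hRc, hv]; ring
    rw [h4] at h3
    simp only [mem_ofPred_eq, Complex.add_re, Complex.add_im] at h3
    have h5 : 0 < v.re * v.re + v.im * v.im := by
      rw [← Complex.normSq_apply]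
      exact Complex.normSq_pos.2 hv0
    nlinarith
  -- the corner
  have hq : φ (pb (10 * t)) ∈ (P (d' :: w')).extremePoints ℝ := by
    have hext := pb_extreme d w
    rw [mem_extremePoints_iff_left] at hext ⊢
    refine ⟨by rw [← hφ]; exact ⟨_, hext.1, rfl⟩, ?_⟩
    intro x hx y hy hxy
    rw [← hφ] at hx hy
    obtain ⟨x', hx', rfl⟩ := hx
    obtain ⟨y', hy', rfl⟩ := hy
    have h1 : ψ '' openSegment ℝ x' y' = openSegment ℝ (ψ x') (ψ y') :=
      image_openSegment ℝ (ψ.toAffineEquiv.toAffineMap : ℂ →ᵃ[ℝ] ℂ) x' y'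
    have h2 : φ (pb (10 * t)) ∈ ψ '' openSegment ℝ x' y' := by rw [h1]; exact hxy
    obtain ⟨u, hu, hu'⟩ := h2
    have h3 : u = pb (10 * t) := φ.injective hu'
    rw [h3] at hu
    rw [hext.2 x' hx' y' hy' hu]
  have hdist : dist (φ (pb (10 * t))) c = 10 * t := by
    conv_lhs => rw [← hcc]
    rw [φ.dist_eq, Complex.dist_eq_re_im]
    simp only [pb, hc]
    have : ((-(10 * t) ^ 2 - -(10 * t) ^ 2) ^ 2 + (10 * t - 0) ^ 2) = (10 * t) ^ 2 := by ring
    rw [this, Real.sqrt_sq (by positivity)]
  have hcorner : φ (pb (10 * t)) = pa (10 * t) ∨ φ (pb (10 * t)) = pb (10 * t) := by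
    obtain ⟨F, hF, hF2⟩ := P_hull d' w'
    have h1 : φ (pb (10 * t)) ∈ F := by
      rw [hF] at hq
      exact extremePoints_convexHull_subset hq
    have h2 := hF2 _ h1
    rw [← hl] at h2
    have h3 : |(φ (pb (10 * t))).re - c.re| ≤ 10 * t := by
      have h4 := Complex.abs_re_le_norm (φ (pb (10 * t)) - c)
      rw [Complex.sub_re, ← Complex.dist_eq, hdist] at h4
      exact h4
    rw [abs_le] at h3
    simp only [hc] at h3
    rcases h2 with h2 | h2 | h2 | h2
    · exact Or.inl h2
    · exact Or.inr h2
    · exfalso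
      nlinarith [h3.1, h3.2]
    · exfalso
      nlinarith [h3.1, h3.2]
  -- the linear part
  have hlin : ∀ z, φ z = ψ.linearIsometryEquiv (z - c) + c := by
    intro z
    have h1 := ψ.map_vadd c (z - c)
    simp only [vadd_eq_add, sub_add_cancel] at h1
    rw [hψφ, hψφ, hcc] at h1
    exact h1
  have hpbc : pb (10 * t) - c = (10 * t : ℝ) * Complex.I := by
    apply Complex.ext
    · simp [pb, hc]
    · simp [pb, hc]
  have hpac : pa (10 * t) - c = -((10 * t : ℝ) * Complex.I) := by
    apply Complex.ext
    · simp [pa, hc]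
    · simp [pa, hc]
  have hne0 : ((10 * t : ℝ) : ℂ) * Complex.I ≠ 0 := by
    apply mul_ne_zero
    · exact_mod_cast (by positivity : (10 * t : ℝ) ≠ 0)
    · exact Complex.I_ne_zero
  have hsq : ψ.linearIsometryEquiv ((10 * t : ℝ) * Complex.I) = (10 * t : ℝ) * Complex.I ∨
      ψ.linearIsometryEquiv ((10 * t : ℝ) * Complex.I) = -((10 * t : ℝ) * Complex.I) := by
    have h1 := hlin (pb (10 * t))
    rw [hpbc] at h1
    rcases hcorner with h2 | h2
    · right
      rw [h2] at h1
      have e : ψ.linearIsometryEquiv ((10 * t : ℝ) * Complex.I) = pa (10 * t) - c := by rw [h1]; ring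
      rw [e, hpac]
    · left
      rw [h2] at h1
      have e : ψ.linearIsometryEquiv ((10 * t : ℝ) * Complex.I) = pb (10 * t) - c := by
        rw [eq_sub_iff_add_eq]; exact h1.symm
      rw [e, hpbc]
  have hall : (∀ z, φ z = z) ∨ (∀ z, φ z = R (10 * t) z) ∨ (∀ z, φ z = (starRingEnd ℂ) z) ∨
      (∀ z, φ z = R (10 * t) ((starRingEnd ℂ) z)) := by
    have hcconj : (starRingEnd ℂ) c = c := by
      apply Complex.ext <;> simp [hc]
    obtain ⟨a, ha⟩ := linear_isometry_complex ψ.linearIsometryEquiv
    rcases ha with ha | ha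
    · have hrot : ∀ z, ψ.linearIsometryEquiv z = (a : ℂ) * z := by
        intro z; rw [ha, rotation_apply]
      rw [hrot] at hsq
      rcases hsq with h1 | h1
      · left
        have ha1 : (a : ℂ) = 1 := by
          have : (a : ℂ) * ((10 * t : ℝ) * Complex.I) = 1 * ((10 * t : ℝ) * Complex.I) := by rw [h1, one_mul]
          exact mul_right_cancel₀ hne0 this
        intro z
        rw [hlin, hrot, ha1]; ring
      · right; left
        have ha1 : (a : ℂ) = -1 := by
          have : (a : ℂ) * ((10 * t : ℝ) * Complex.I) = -1 * ((10 * t : ℝ) * Complex.I) := by rw [h1]; ring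
          exact mul_right_cancel₀ hne0 this
        intro z
        rw [hlin, hrot, ha1, hRc]; ring
    · have hrot : ∀ z, ψ.linearIsometryEquiv z = (a : ℂ) * (starRingEnd ℂ) z := by
        intro z
        rw [ha, LinearIsometryEquiv.trans_apply, rotation_apply, Complex.conjLIE_apply]
      have hconjI : (starRingEnd ℂ) (((10 * t : ℝ) : ℂ) * Complex.I) = -(((10 * t : ℝ) : ℂ) * Complex.I) := by
        rw [map_mul, Complex.conj_ofReal, Complex.conj_I]; ring
      rw [hrot, hconjI] at hsq
      rcases hsq with h1 | h1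
      · right; right; right
        have ha1 : (a : ℂ) = -1 := by
          have : (a : ℂ) * (-(((10 * t : ℝ) : ℂ) * Complex.I)) = -1 * (-(((10 * t : ℝ) : ℂ) * Complex.I)) := by
            rw [h1]; ring
          exact mul_right_cancel₀ (neg_ne_zero.2 hne0) this
        intro z
        rw [hlin, hrot, ha1, hRc, map_sub, hcconj]; ring
      · right; right; left
        have ha1 : (a : ℂ) = 1 := by
          have : (a : ℂ) * (-(((10 * t : ℝ) : ℂ) * Complex.I)) = 1 * (-(((10 * t : ℝ) : ℂ) * Complex.I)) := by
            rw [h1]; ring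
          exact mul_right_cancel₀ (neg_ne_zero.2 hne0) this
        intro z
        rw [hlin, hrot, ha1, map_sub, hcconj]; ring
  rcases hall with h1 | h1 | h1 | h1
  · apply P_inj hlen
    rw [← hφ]
    ext z
    constructor
    · intro hz; exact ⟨z, hz, h1 z⟩
    · rintro ⟨x, hx, rfl⟩; rw [h1]; exact hx
  · apply P_inj hlen
    rw [← hφ]
    ext z
    constructor
    · intro hz
      refine ⟨R (10 * t) z, (hPR z).2 hz, ?_⟩
      rw [h1, R_R]
    · rintro ⟨x, hx, rfl⟩; rw [h1]; exact (hPR x).2 hx
  · apply P_conj_inj hlen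
    intro z
    rw [← hφ]
    constructor
    · rintro ⟨x, hx, rfl⟩
      rw [h1, Complex.conj_conj]; exact hx
    · intro hz
      refine ⟨(starRingEnd ℂ) z, hz, ?_⟩
      rw [h1, Complex.conj_conj]
  · apply P_conj_inj hlen
    have hRconj : ∀ z, (starRingEnd ℂ) (R (10 * t) z) = R (10 * t) ((starRingEnd ℂ) z) := by
      intro z
      apply Complex.ext <;> simp [R]
    intro z
    rw [← hφ]
    constructor
    · rintro ⟨x, hx, rfl⟩
      rw [h1, hRconj, Complex.conj_conj]; exact (hPR x).2 hx
    · intro hz
      refine ⟨R (10 * t) ((starRingEnd ℂ) z), (hPR _).2 hz, ?_⟩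
      rw [h1, hRconj, R_R, Complex.conj_conj]

end Pool.Agent.P086e3e
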