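import Mathlib

/-!
# Convex Hamiltonian unfoldings of doubly covered convex polygons: definitions

The doubly covered polygon `Q` over a planar convex body `M` is the set `Dbl M` of pairs `(z, s)`, `z ∈ M`, `s` the
face (`true` = top, `false` = bottom), where a point of the boundary of `M` is listed only once (with flag `true`).
`dblDist M` is the intrinsic distance of `Q`.
-/

set_option autoImplicit false

open Complex Set

namespace Pool.Agent.P086e3e

open Classical in
/-- The point of the doubly covered set `M` above `z` on the face `s` (boundary points lie on both faces and carry the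
flag `true`). -/
noncomputable def sheet (M : Set ℂ) (s : Bool) (z : ℂ) : ℂ × Bool :=
  (z, if z ∈ frontier M then true else s)

/-- The doubly covered set `M`. -/
def Dbl (M : Set ℂ) : Set (ℂ × Bool) :=
  {q | q.1 ∈ M ∧ (q.1 ∈ frontier M → q.2 = true)}

/-- The intrinsic distance of the doubly covered set `M`: the Euclidean distance on each face, and the length of a
shortest broken segment through a boundary point for points on different faces. -/
noncomputable def dblDist (M : Set ℂ) (p q : ℂ × Bool) : ℝ :=
  if p.2 = q.2 then dist p.1 q.1 else ⨅ b : frontier M, (dist p.1 (b : ℂ) + dist (b : ℂ) q.1)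

/-- `M` is a convex polygon with exactly `n` vertices. -/
def IsPolygon (M : Set ℂ) (n : ℕ) : Prop :=
  (∃ V : Finset ℂ, M = convexHull ℝ (V : Set ℂ)) ∧ (interior M).Nonempty ∧ (M.extremePoints ℝ).ncard = n

/-- The `j`-th arc of the path `p` with faces `σ`: the straight segment from `p j` to `p (j + 1)` on the face `σ j`. -/
noncomputable def arc (M : Set ℂ) (p : ℕ → ℂ) (σ : ℕ → Bool) (j : ℕ) : Set (ℂ × Bool) :=
  sheet M (σ j) '' segment ℝ (p j) (p (j + 1))

/-- The cut: the union of the `n - 1` arcs of the path with the `n` vertices `p 0, …, p (n - 1)`. -/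
noncomputable def cut (M : Set ℂ) (n : ℕ) (p : ℕ → ℂ) (σ : ℕ → Bool) : Set (ℂ × Bool) :=
  {q | ∃ j, j + 1 < n ∧ q ∈ arc M p σ j}

/-- `p, σ` is a Hamiltonian cut path of the doubly covered polygon `M` with `n` vertices: it visits every vertex of the
polygon exactly once, consecutive vertices are joined by a straight segment on one of the two faces, and the path is
simple: two consecutive arcs meet only in their common vertex and all other pairs of arcs are disjoint. -/
def IsCutPath (M : Set ℂ) (n : ℕ) (p : ℕ → ℂ) (σ : ℕ → Bool) : Prop :=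
  Set.BijOn p (Set.Iio n) (M.extremePoints ℝ) ∧
  (∀ j, j + 2 < n → arc M p σ j ∩ arc M p σ (j + 1) = {sheet M true (p (j + 1))}) ∧
  (∀ j l, j + 1 < l → l + 1 < n → arc M p σ j ∩ arc M p σ l = ∅)

/-- `P` is the unfolding of the doubly covered set `M` along the cut `γ`, and it is a convex polygon: `P` is a convex
polygon, and there is a bijection `f` from its interior onto the surface minus the cut which is a local isometry. -/
def IsConvexUnfolding (M : Set ℂ) (γ : Set (ℂ × Bool)) (P : Set ℂ) : Prop :=
  (∃ V : Finset ℂ, P = convexHull ℝ (V : Set ℂ)) ∧ (interior P).Nonempty ∧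
  ∃ f : ℂ → ℂ × Bool, Set.BijOn f (interior P) (Dbl M \ γ) ∧
    ∀ z ∈ interior P, ∃ ε > 0, ∀ x ∈ Metric.ball z ε, ∀ y ∈ Metric.ball z ε, dblDist M (f x) (f y) = dist x y

/-- Congruence of planar sets. -/
def Congr (P P' : Set ℂ) : Prop := ∃ φ : ℂ ≃ᵢ ℂ, φ '' P = P'

/-- The combinatorial cut tree of a path all of whose nodes are vertices of the polygon: the set of its arcs, each arc
being the unordered pair of its two end vertices. -/
def combTree (n : ℕ) (p : ℕ → ℂ) : Set (Sym2 ℂ) := {e | ∃ j, j + 1 < n ∧ e = s(p j, p (j + 1))}

/-- Some doubly covered convex polygon with `n` vertices has at least `m` convex Hamiltonian unfoldings along pairwise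
combinatorially distinct cut paths, and the unfolded convex polygons are pairwise incongruent. -/
def ManyConvexUnfoldings (n m : ℕ) : Prop :=
  ∃ M : Set ℂ, IsPolygon M n ∧
    ∃ (p : Fin m → ℕ → ℂ) (σ : Fin m → ℕ → Bool) (P : Fin m → Set ℂ),
      (∀ i, IsCutPath M n (p i) (σ i) ∧ IsConvexUnfolding M (cut M n (p i) (σ i)) (P i)) ∧
      (∀ i j, i ≠ j → combTree n (p i) ≠ combTree n (p j)) ∧
      (∀ i j, i ≠ j → ¬ Congr (P i) (P j))

end Pool.Agent.P086e3e
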