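import Pool.Agent.Lib.P086e3e.Fmap

set_option autoImplicit false

open Complex Set

namespace Pool.Agent.P086e3e

/-- The domain: the interior of the arm together with the part of the polygon left of it. -/
def D (r : ℕ) (w : List Bool) : Set ℂ := interior (Ml r (10 ^ w.length) ∪ A w)

/-- The open upper rim of the block `t`. -/
def rimO (t : ℝ) : Set ℂ := {z | mu t z = 0 ∧ t < z.im ∧ z.im < 10 * t}

/-- A neighbourhood of the open upper rim. -/
def Onb (t : ℝ) : Set ℂ := {z | lf (10 * t) z < 0 ∧ el t z < 0 ∧ 0 < el t (T' t z) ∧ rt t (T' t z) < 0}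

section prel

variable {r : ℕ} {w : List Bool}

lemma isOpen_D : IsOpen (D r w) := isOpen_interior

lemma Ml_sub_M {Y : ℝ} : Ml r Y ⊆ M r := fun _ h => h.1

lemma V_sub_Ml {j : ℕ} (h : j + 1 ≤ r) : V (10 ^ j) ⊆ Ml r (10 ^ j) := fun _ hz => ⟨V_sub_M h hz, hz.2.2⟩

lemma U_sub_Ml {j : ℕ} (h : j + 1 ≤ r) : U (10 ^ j) ⊆ Ml r (10 ^ j) := fun _ hz =>
  ⟨U_sub_M h hz, (U_sub (pow10_pos j) hz).2.1⟩

lemma isClosed_N (w : List Bool) : IsClosed (V (10 ^ w.length) ∪ A w) := (isClosed_V _).union (isClosed_A w)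

lemma isOpen_Onb (t : ℝ) : IsOpen (Onb t) :=
  (isOpen_af_lt _ _ _).inter ((isOpen_af_lt _ _ _).inter
    (((isOpen_af_gt _ _ _).preimage (continuous_T' t)).inter ((isOpen_af_lt _ _ _).preimage (continuous_T' t))))

lemma rimO_sub {t : ℝ} (ht : 0 < t) : rimO t ⊆ Onb t := by
  rintro z ⟨h1, h2, h3⟩
  refine ⟨?_, ?_, ?_, ?_⟩
  · rw [mu_eq] at h1
    rw [lf_eq]; nlinarith
  · rw [mu_eq] at h1
    rw [el_eq]; nlinarith
  · rw [T'_of_mu h1]
    rw [mu_eq] at h1
    rw [el_eq, Complex.conj_re, Complex.conj_im]; nlinarith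
  · rw [T'_of_mu h1]
    rw [mu_eq] at h1
    rw [rt_eq, Complex.conj_re]; nlinarith

lemma Onb_U {t : ℝ} {z : ℂ} (hz : z ∈ Onb t) (h : mu t z ≤ 0) : z ∈ U t := ⟨hz.1.le, h, hz.2.1.le⟩

lemma Onb_V {t : ℝ} {z : ℂ} (hz : z ∈ Onb t) (h : 0 ≤ mu t z) : T' t z ∈ V t :=
  ⟨by rw [ml_T']; linarith, hz.2.2.1.le, hz.2.2.2.le⟩

lemma rimO_frontier {j : ℕ} (hj : j + 1 ≤ r) {z : ℂ} (hz : z ∈ rimO (10 ^ j)) : z ∈ frontier (M r) :=
  frontier_of_mu (U_sub_M hj (Onb_U (rimO_sub (pow10_pos j) hz) hz.1.le)) hz.1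

lemma el_Ml {j : ℕ} {z : ℂ} (hz : z ∈ Ml r (10 * 10 ^ j)) : el (10 ^ j) z ≤ 0 := by
  have h1 := M_tl (10 * 10 ^ j) hz.1
  have h2 := hz.2
  have ht := pow10_pos j
  rw [tl_eq] at h1
  rw [rt_eq] at h2
  rw [el_eq]
  nlinarith

/-- A point of the polygon above the diagonal is left of the right column. -/
lemma rt_of_el {j : ℕ} {z : ℂ} (hz : z ∈ M r) (h : el (10 ^ j) z ≤ 0) : rt (10 ^ j) z ≤ 0 := by
  have h1 := M_mu j hz
  have ht := pow10_pos j
  rw [mu_eq] at h1
  rw [el_eq] at h
  rw [rt_eq]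
  nlinarith

lemma rt_of_el_lt {j : ℕ} {z : ℂ} (hz : z ∈ M r) (h : el (10 ^ j) z < 0) : rt (10 ^ j) z < 0 := by
  have h1 := M_mu j hz
  have ht := pow10_pos j
  rw [mu_eq] at h1
  rw [el_eq] at h
  rw [rt_eq]
  nlinarith

lemma N_not_of_mu {z : ℂ} (h : mu (10 ^ w.length) z < 0) :
    T' (10 ^ w.length) z ∉ V (10 ^ w.length) ∪ A w := by
  intro hc
  have h1 := (N_quad hc).1
  rw [ml_T'] at h1
  linarith

/-- Sufficient conditions for membership in `D`. -/
lemma mem_D_of_el (hw : w.length + 1 ≤ r) {z : ℂ} (hz : z ∈ interior (M r)) (h : el (10 ^ w.length) z < 0) :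
    z ∈ D r (true :: w) := by
  have hopen : IsOpen (interior (M r) ∩ {x | el (10 ^ w.length) x < 0}) :=
    isOpen_interior.inter (isOpen_af_lt _ _ _)
  refine interior_maximal ?_ hopen ⟨hz, h⟩
  rintro x ⟨hx1, hx2⟩
  have hxM := interior_subset hx1
  rw [List.length_cons, ← pow10_succ']
  rcases le_or_gt (rt (10 * 10 ^ w.length) x) 0 with h3 | h3
  · exact Or.inl ⟨hxM, h3⟩
  · right; left
    refine ⟨?_, M_mu _ hxM, le_of_lt hx2⟩
    rw [rt_eq] at h3
    rw [lf_eq]
    linarith

lemma mem_D_of_N {v : ℂ} (hv : v ∈ interior (V (10 ^ w.length) ∪ A w)) : T (10 ^ w.length) v ∈ D r (true :: w) := by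
  have hopen : IsOpen (T' (10 ^ w.length) ⁻¹' interior (V (10 ^ w.length) ∪ A w)) :=
    isOpen_interior.preimage (continuous_T' _)
  refine interior_maximal ?_ hopen (by rw [mem_preimage, T'_T]; exact hv)
  intro x hx
  right; right
  rw [tau'_true]
  exact interior_subset hx

lemma mem_D_of_rim {z : ℂ} (hz : z ∈ rimO (10 ^ w.length)) : z ∈ D r (true :: w) := by
  refine interior_maximal ?_ (isOpen_Onb _) (rimO_sub (pow10_pos _) hz)
  intro x hx
  right
  rcases le_total (mu (10 ^ w.length) x) 0 with h | h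
  · exact Or.inl (Onb_U hx h)
  · right
    rw [tau'_true]
    exact Or.inl (Onb_V hx h)

lemma D_true_cases (hw : w.length + 1 ≤ r) {z : ℂ} (hz : z ∈ D r (true :: w)) :
    (T' (10 ^ w.length) z ∉ V (10 ^ w.length) ∪ A w ∧ z ∈ interior (M r) ∧ el (10 ^ w.length) z < 0) ∨
    (T' (10 ^ w.length) z ∈ interior (V (10 ^ w.length) ∪ A w) ∧ T' (10 ^ w.length) z ∈ D r w ∧
      0 < el (10 ^ w.length) (T' (10 ^ w.length) z)) ∨
    z ∈ rimO (10 ^ w.length) := by
  have ht := pow10_pos w.length
  have ht1 := one_le_pow10 w.length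
  have hset : ∀ x ∈ Ml r (10 ^ (true :: w).length) ∪ A (true :: w),
      (x ∈ M r ∧ el (10 ^ w.length) x ≤ 0) ∨ T' (10 ^ w.length) x ∈ V (10 ^ w.length) ∪ A w := by
    intro x hx
    rw [List.length_cons, ← pow10_succ'] at hx
    rcases hx with hx | hx | hx
    · exact Or.inl ⟨hx.1, el_Ml hx⟩
    · exact Or.inl ⟨U_sub_M hw hx, hx.2.2⟩
    · right
      rw [tau'_true] at hx
      exact hx
  by_cases hN : T' (10 ^ w.length) z ∈ V (10 ^ w.length) ∪ A w
  · right
    by_cases hK : z ∈ M r ∧ el (10 ^ w.length) z ≤ 0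
    · right
      have hmu : mu (10 ^ w.length) z = 0 := by
        apply le_antisymm (M_mu _ hK.1)
        have := (N_quad hN).1
        rw [ml_T'] at this
        linarith
      have g1 : tu (10 * 10 ^ w.length) z < 0 := by
        refine af_lt_of_interior (S := Ml r (10 ^ (true :: w).length) ∪ A (true :: w)) (Or.inl one_ne_zero) ?_ hz
        intro x hx
        change tu (10 * 10 ^ w.length) x ≤ 0
        rcases hset x hx with h | h
        · exact M_tu _ h.1
        · have := quad_T ht1 (N_quad h)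
          rw [T_T'] at this
          exact this.2.1
      have g2 : tl (10 ^ w.length) (T' (10 ^ w.length) z) < 0 := by
        rw [tlT'_af]
        refine af_lt_of_interior (S := Ml r (10 ^ (true :: w).length) ∪ A (true :: w)) ?_ ?_ hz
        · -- nonzero coefficients
          by_contra hcon
          push Not at hcon
          obtain ⟨c1, c2⟩ := hcon
          have e := tlT'_af (10 ^ w.length) (pb (10 ^ w.length))
          have e' := tlT'_af (10 ^ w.length) (pa (10 ^ w.length) - ⟨(10 ^ w.length) ^ 2, 0⟩)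
          set t : ℝ := 10 ^ w.length with htd
          have hk := kap_mul t
          have hk0 := kap_pos t
          have ht2 : 1 ≤ t ^ 2 := by nlinarith
          have hk1 : kap t * t ^ 2 ≤ 2 / 121 := by nlinarith
          have hk2 : kap t ≤ 2 / 122 := by nlinarith
          nlinarith
        · intro x hx
          rw [← tlT'_af]
          rcases hset x hx with h | h
          · exact T'_tl ht1 (M_mu _ h.1) h.2
          · exact (N_quad h).2.2.1
      rw [T'_of_mu hmu] at g2
      refine ⟨hmu, ?_, ?_⟩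
      · rw [mu_eq] at hmu
        rw [tl_eq, Complex.conj_re, Complex.conj_im] at g2
        have : (9 * 10 ^ w.length) * 10 ^ w.length < (9 * 10 ^ w.length) * z.im := by nlinarith
        exact lt_of_mul_lt_mul_left this (by positivity)
      · rw [mu_eq] at hmu
        rw [tu_eq] at g1
        have : (9 * 10 ^ w.length) * z.im < (9 * 10 ^ w.length) * (10 * 10 ^ w.length) := by nlinarith
        exact lt_of_mul_lt_mul_left this (by positivity)
    · left
      have hKc : IsClosed {x | x ∈ M r ∧ el (10 ^ w.length) x ≤ 0} := (M_isClosed r).inter (isClosed_af_le _ _ _)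
      have hopen : IsOpen (D r (true :: w) ∩ {x | x ∈ M r ∧ el (10 ^ w.length) x ≤ 0}ᶜ) :=
        isOpen_D.inter hKc.isOpen_compl
      have hsub : D r (true :: w) ∩ {x | x ∈ M r ∧ el (10 ^ w.length) x ≤ 0}ᶜ ⊆
          T' (10 ^ w.length) ⁻¹' (V (10 ^ w.length) ∪ A w) := by
        rintro x ⟨hx1, hx2⟩
        rcases hset x (interior_subset hx1) with h | h
        · exact absurd h hx2
        · exact h
      have h1 : z ∈ interior (T' (10 ^ w.length) ⁻¹' (V (10 ^ w.length) ∪ A w)) :=
        interior_maximal hsub hopen ⟨hz, hK⟩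
      have h2 : T' (10 ^ w.length) z ∈ interior (V (10 ^ w.length) ∪ A w) := by
        have hop : IsOpen (T (10 ^ w.length) ⁻¹' interior (T' (10 ^ w.length) ⁻¹' (V (10 ^ w.length) ∪ A w))) :=
          isOpen_interior.preimage (continuous_T _)
        refine interior_maximal ?_ hop (by rw [mem_preimage, T_T']; exact h1)
        intro x hx
        have := interior_subset hx
        rwa [mem_preimage, T'_T] at this
      refine ⟨h2, ?_, ?_⟩
      · refine interior_mono ?_ h2
        exact union_subset_union_left _ (V_sub_Ml hw)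
      · have := af_lt_of_interior (S := V (10 ^ w.length) ∪ A w) (α := -1) (β := 9 * 10 ^ w.length)
          (γ := -(10 * (10 ^ w.length) ^ 2)) (Or.inl (by norm_num)) ?_ h2
        · simp only [af] at this
          rw [el_eq]
          linarith
        · intro x hx
          have := (N_quad hx).2.1
          rw [el_eq] at this
          simp only [af]
          linarith
  · left
    refine ⟨hN, ?_⟩
    have hopen : IsOpen (D r (true :: w) ∩ (T' (10 ^ w.length) ⁻¹' (V (10 ^ w.length) ∪ A w))ᶜ) :=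
      isOpen_D.inter ((isClosed_N w).preimage (continuous_T' _)).isOpen_compl
    have hsub : D r (true :: w) ∩ (T' (10 ^ w.length) ⁻¹' (V (10 ^ w.length) ∪ A w))ᶜ ⊆
        {x | x ∈ M r ∧ el (10 ^ w.length) x ≤ 0} := by
      rintro x ⟨hx1, hx2⟩
      rcases hset x (interior_subset hx1) with h | h
      · exact h
      · exact absurd h hx2
    have h1 : z ∈ interior {x | x ∈ M r ∧ el (10 ^ w.length) x ≤ 0} := interior_maximal hsub hopen ⟨hz, hN⟩
    refine ⟨interior_mono (fun x hx => hx.1) h1, ?_⟩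
    exact af_lt_of_interior (S := {x | x ∈ M r ∧ el (10 ^ w.length) x ≤ 0}) (Or.inl one_ne_zero)
      (fun x hx => hx.2) h1

lemma D_false (hw : w.length + 1 ≤ r) : D r (false :: w) = D r w := by
  unfold D
  congr 1
  have ht := pow10_pos w.length
  ext x
  rw [List.length_cons, ← pow10_succ']
  constructor
  · rintro (hx | hx | hx)
    · left
      refine ⟨hx.1, ?_⟩
      have := hx.2
      rw [rt_eq] at this ⊢
      nlinarith
    · exact Or.inl (U_sub_Ml hw hx)
    · rw [tau'_false] at hx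
      rcases hx with hx | hx
      · exact Or.inl (V_sub_Ml hw hx)
      · exact Or.inr hx
  · rintro (hx | hx)
    · rcases le_or_gt (rt (10 * 10 ^ w.length) x) 0 with h3 | h3
      · exact Or.inl ⟨hx.1, h3⟩
      · right
        rcases le_total (el (10 ^ w.length) x) 0 with h4 | h4
        · left
          refine ⟨?_, M_mu _ hx.1, h4⟩
          rw [rt_eq] at h3
          rw [lf_eq]
          linarith
        · right
          rw [tau'_false]
          exact Or.inl ⟨M_ml _ hx.1, h4, hx.2⟩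
    · right; right
      rw [tau'_false]
      exact Or.inr hx

lemma D_nil_sub (hr : 1 ≤ r) : D r [] ⊆ interior (M r) := by
  apply interior_mono
  rintro x (hx | hx)
  · exact hx.1
  · apply V_sub_M (j := 0) (by omega)
    obtain ⟨h1, h2, h3⟩ := A_W [] hx
    simp only [List.length_nil, pow_zero] at h1 h2 h3 ⊢
    refine V_col one_pos ?_ h2 h3
    obtain ⟨h4, _, _⟩ := hx
    rw [rt_eq]
    linarith

/-- Interior points of the polygon left of the column are in `D`. -/
lemma mem_D_of_rt {z : ℂ} (hz : z ∈ interior (M r)) (h : rt (10 ^ w.length) z < 0) : z ∈ D r w := by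
  have hopen : IsOpen (interior (M r) ∩ {x | rt (10 ^ w.length) x < 0}) :=
    isOpen_interior.inter (isOpen_af_lt _ _ _)
  refine interior_maximal ?_ hopen ⟨hz, h⟩
  rintro x ⟨hx1, hx2⟩
  exact Or.inl ⟨interior_subset hx1, le_of_lt hx2⟩

end prel

end Pool.Agent.P086e3e
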