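import Pool.Agent.Lib.P086e3e.Cong

/-!
# Exponentially many convex Hamiltonian unfoldings

For every `r ≥ 1` the doubly covered convex polygon with the `2 r + 2` vertices `(-100^i, ±10^i)`, `0 ≤ i ≤ r`, has
`2 ^ r` pairwise combinatorially distinct Hamiltonian cut paths whose unfoldings are convex polygons, pairwise
incongruent. The path of a word in `{rim, switch}^r` starts at a vertex of the leftmost column, runs to the tip, crosses
the tip side and runs back; in the `i`-th block its two strands are the two rim edges, or the two diagonals, one on the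
top face and one on the bottom face.
-/

set_option autoImplicit false

open Set

namespace Pool.Agent.Lib.P086e3e.ExponentiallyMany

open Pool.Agent.P086e3e

theorem many (r : ℕ) (hr : 1 ≤ r) : ManyConvexUnfoldings (2 * r + 2) (2 ^ r) := by
  obtain ⟨wd, hlen, hne⟩ : ∃ wd : Fin (2 ^ r) → List Bool, (∀ i, (wd i).length = r) ∧
      ∀ i j, i ≠ j → wd i ≠ wd j := by
    have hcard : Fintype.card (List.Vector Bool r) = 2 ^ r := by
      rw [card_vector, Fintype.card_bool]
    let e : Fin (2 ^ r) ≃ List.Vector Bool r := (Fintype.equivFinOfCardEq hcard).symm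
    refine ⟨fun i => (e i).toList, fun i => List.Vector.toList_length _, fun i j hij h => ?_⟩
    exact hij (e.injective (List.Vector.toList_injective h))
  refine ⟨M r, M_polygon hr, fun i => pth (wd i), fun i => fcs (wd i), fun i => P (wd i), ?_, ?_, ?_⟩
  · intro i
    refine ⟨isCutPath hr (hlen i), ?_⟩
    rw [cut_Gam hr (hlen i)]
    have h1 := hlen i
    change IsConvexUnfolding (M r) (Gam r (wd i)) (P (wd i))
    cases hw : wd i with
    | nil => rw [hw] at h1; simp at h1; omega
    | cons d w =>
      rw [hw, List.length_cons] at h1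
      subst h1
      exact unfolding d w
  · intro i j hij h
    have h1 := combTree_eq (wd i)
    have h2 := combTree_eq (wd j)
    rw [hlen i] at h1
    rw [hlen j] at h2
    rw [h1, h2] at h
    exact hne i j hij (EE_inj (by rw [hlen i, hlen j]) h)
  · intro i j hij h
    apply hne i j hij
    have h1 := hlen i
    have h2 := hlen j
    change Congr (P (wd i)) (P (wd j)) at h
    cases hw : wd i with
    | nil => rw [hw] at h1; simp at h1; omega
    | cons d w =>
      cases hw' : wd j with
      | nil => rw [hw'] at h2; simp at h2; omega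
      | cons d' w' =>
        rw [hw, List.length_cons] at h1
        rw [hw', List.length_cons] at h2
        rw [hw, hw'] at h
        exact not_congr (by omega) h

theorem result :
    (∀ r : ℕ, 1 ≤ r → ManyConvexUnfoldings (2 * r + 2) (2 ^ r)) ∧
    (∃ c : ℝ, 0 < c ∧ ∀ N : ℕ, ∃ n : ℕ, N ≤ n ∧ ∃ m : ℕ, (2 : ℝ) ^ (c * n) ≤ m ∧ ManyConvexUnfoldings n m) := by
  refine ⟨many, 1 / 4, by norm_num, fun N => ⟨2 * (N + 1) + 2, by omega, 2 ^ (N + 1), ?_, many (N + 1) (by omega)⟩⟩
  push_cast
  rw [← Real.rpow_natCast]
  apply Real.rpow_le_rpow_of_exponent_le (by norm_num)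
  push_cast
  have : (0:ℝ) ≤ N := Nat.cast_nonneg N
  linarith

end Pool.Agent.Lib.P086e3e.ExponentiallyMany
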