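import Pool.Agent.Lib.P086e3e.Arm

set_option autoImplicit false

open Complex Set

namespace Pool.Agent.P086e3e

/-- The point of the surface seen at `z` when the unfolding is on the face `s` (the bottom face is seen mirrored). -/
noncomputable def face (r : ℕ) (s : Bool) (z : ℂ) : ℂ × Bool :=
  if s then sheet (M r) true z else sheet (M r) false ((starRingEnd ℂ) z)

open Classical in
/-- The folding map of an arm. -/
noncomputable def F (r : ℕ) : Bool → List Bool → ℂ → ℂ × Bool
  | s, [], z => face r s z
  | s, d :: w, z => if tau' d (10 ^ w.length) z ∈ V (10 ^ w.length) ∪ A w then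
      F r (xor s d) w (tau' d (10 ^ w.length) z) else face r s z

section face

variable {r : ℕ}

lemma face_true (z : ℂ) : face r true z = sheet (M r) true z := by simp [face]
lemma face_false (z : ℂ) : face r false z = sheet (M r) false ((starRingEnd ℂ) z) := by simp [face]

lemma face_re (s : Bool) (z : ℂ) : (face r s z).1.re = z.re := by
  cases s <;> simp [face, sheet]

lemma face_frontier {s : Bool} {z : ℂ} : (face r s z).1 ∈ frontier (M r) ↔ z ∈ frontier (M r) := by
  cases s
  · simp only [face_false, sheet, conj_frontier]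
  · simp only [face_true, sheet]

lemma face_im (s : Bool) (z : ℂ) : (face r s z).1.im = if s then z.im else -z.im := by
  cases s <;> simp [face, sheet]

lemma face_inj_same {s : Bool} {z z' : ℂ} (h : face r s z = face r s z') : z = z' := by
  have h1 := congrArg (fun q => q.1.re) h
  have h2 := congrArg (fun q => q.1.im) h
  simp only [face_re, face_im] at h1 h2
  apply Complex.ext h1
  cases s
  · simpa using h2
  · simpa using h2

lemma face_inj {s s' : Bool} {z z' : ℂ} (hz : z ∉ frontier (M r)) (h : face r s z = face r s' z') :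
    s = s' ∧ z = z' := by
  have hz' : z' ∉ frontier (M r) := by
    rw [← face_frontier (s := s'), ← h, face_frontier]
    exact hz
  have hs : s = s' := by
    have h2 := congrArg Prod.snd h
    have key : ∀ (s : Bool) (z : ℂ), z ∉ frontier (M r) → (face r s z).2 = s := by
      intro s z hz
      cases s
      · simp [face_false, sheet, conj_frontier, hz]
      · simp [face_true, sheet]
    rw [key s z hz, key s' z' hz'] at h2
    exact h2
  subst hs
  exact ⟨rfl, face_inj_same h⟩

lemma face_flip {s : Bool} {z : ℂ} (hz : z ∈ frontier (M r)) :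
    face r (!s) ((starRingEnd ℂ) z) = face r s z := by
  cases s
  · simp only [Bool.not_false, face_true, face_false, sheet, conj_frontier, hz, if_true]
  · simp only [Bool.not_true, face_true, face_false, sheet, Complex.conj_conj, hz, if_true]

lemma face_mem {s : Bool} {z : ℂ} (hz : z ∈ M r) : face r s z ∈ Dbl (M r) := by
  cases s
  · rw [face_false]
    refine ⟨conj_mem_M hz, fun h => ?_⟩
    have h' : (starRingEnd ℂ) z ∈ frontier (M r) := h
    simp [sheet, h']
  · rw [face_true]
    refine ⟨hz, fun _ => ?_⟩
    simp [sheet]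

lemma dist_conj (x y : ℂ) : dist ((starRingEnd ℂ) x) ((starRingEnd ℂ) y) = dist x y := by
  rw [Complex.dist_conj_conj]

lemma dist_face (s : Bool) (x y : ℂ) : dblDist (M r) (face r s x) (face r s y) = dist x y := by
  cases s
  · rw [face_false, face_false, dblDist_sheet_same, dist_conj]
  · rw [face_true, face_true, dblDist_sheet_same]

lemma iInf_conj (x y : ℂ) :
    (⨅ b : frontier (M r), (dist ((starRingEnd ℂ) x) (b : ℂ) + dist (b : ℂ) ((starRingEnd ℂ) y))) =
      ⨅ b : frontier (M r), (dist x (b : ℂ) + dist (b : ℂ) y) := by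
  let e : frontier (M r) → frontier (M r) := fun b => ⟨(starRingEnd ℂ) b.1, conj_frontier.2 b.2⟩
  have he : Function.Surjective e := by
    intro b
    refine ⟨e b, ?_⟩
    apply Subtype.ext
    simp [e]
  refine (he.iInf_congr e ?_).symm
  intro b
  have : ((e b : frontier (M r)) : ℂ) = (starRingEnd ℂ) b.1 := rfl
  rw [this, dist_conj, dist_conj]

lemma dist_face_diff (s : Bool) (x y : ℂ) : dblDist (M r) (face r s x) (face r (!s) y) =
    ⨅ b : frontier (M r), (dist x (b : ℂ) + dist (b : ℂ) ((starRingEnd ℂ) y)) := by
  cases s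
  · rw [Bool.not_false, face_false, face_true, dblDist_sheet_diff (by simp)]
    rw [← iInf_conj x ((starRingEnd ℂ) y), Complex.conj_conj]
  · rw [Bool.not_true, face_false, face_true, dblDist_sheet_diff (by simp)]

lemma dblDist_comm {M' : Set ℂ} (p q : ℂ × Bool) : dblDist M' p q = dblDist M' q p := by
  unfold dblDist
  by_cases h : p.2 = q.2
  · rw [if_pos h, if_pos h.symm, dist_comm]
  · rw [if_neg h, if_neg (fun h' => h h'.symm), iInf_comm]

end face

section Fbasic

variable {r : ℕ}

lemma F_of_not {s : Bool} {w : List Bool} {z : ℂ} (hz : z ∉ A w) : F r s w z = face r s z := by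
  cases w with
  | nil => rfl
  | cons d w =>
    simp only [F]
    rw [if_neg]
    intro h
    exact hz (Or.inr h)

lemma frontier_of_ml {j : ℕ} {z : ℂ} (hz : z ∈ M r) (h : ml (10 ^ j) z = 0) : z ∈ frontier (M r) := by
  rw [(M_isClosed r).frontier_eq]
  refine ⟨hz, fun hi => ?_⟩
  have := af_lt_of_interior (S := M r) (Or.inl one_ne_zero) (fun x hx => M_ml j hx) hi
  change ml (10 ^ j) z < 0 at this
  linarith

lemma frontier_of_mu {j : ℕ} {z : ℂ} (hz : z ∈ M r) (h : mu (10 ^ j) z = 0) : z ∈ frontier (M r) := by
  rw [(M_isClosed r).frontier_eq]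
  refine ⟨hz, fun hi => ?_⟩
  have := af_lt_of_interior (S := M r) (Or.inl one_ne_zero) (fun x hx => M_mu j hx) hi
  change mu (10 ^ j) z < 0 at this
  linarith

lemma N_left {w : List Bool} {z : ℂ} (hz : z ∈ V (10 ^ w.length) ∪ A w) (h : rt (10 ^ w.length) z ≤ 0) :
    z ∈ V (10 ^ w.length) := by
  rcases hz with hz | hz
  · exact hz
  · obtain ⟨h1, h2, h3⟩ := A_W w hz
    refine V_col (pow10_pos _) ?_ h2 h3
    rw [lf_eq] at h1
    rw [rt_eq] at h ⊢
    linarith

lemma N_ml_zero {w : List Bool} {z : ℂ} (hz : z ∈ V (10 ^ w.length) ∪ A w) (h : ml (10 ^ w.length) z = 0) :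
    rt (10 ^ w.length) z ≤ 0 := by
  rcases hz with hz | hz
  · exact hz.2.2
  · exact (W_sub (pow10_pos _) (A_W w hz)).2.2.2 h

lemma N_quad {w : List Bool} {z : ℂ} (hz : z ∈ V (10 ^ w.length) ∪ A w) : z ∈ Quad (10 ^ w.length) := by
  rcases hz with hz | hz
  · exact V_quad (pow10_pos _) hz
  · exact W_quad (pow10_pos _) (A_W w hz)

/-- Left of the column (and on it) the folding map is the face map. -/
lemma F_left (s : Bool) (w : List Bool) (hw : w.length ≤ r) {z : ℂ} (hz : rt (10 ^ w.length) z ≤ 0) :
    F r s w z = face r s z := by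
  induction w generalizing s z with
  | nil => rfl
  | cons d w ih =>
    have ht := pow10_pos w.length
    rw [List.length_cons] at hw
    rw [List.length_cons, ← pow10_succ'] at hz
    simp only [F]
    split_ifs with hc
    · cases d
      · rw [tau'_false]
        rw [Bool.xor_false]
        apply ih s (by omega)
        rw [rt_eq] at hz ⊢
        nlinarith
      · rw [tau'_true] at hc ⊢
        have hq := N_quad hc
        have h1 : 0 ≤ lf (10 * 10 ^ w.length) (T (10 ^ w.length) (T' (10 ^ w.length) z)) := by
          rw [T_T', lf_eq]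
          rw [rt_eq] at hz
          linarith
        obtain ⟨h2, h3⟩ := lf_T_eq (one_le_pow10 _) hq h1
        have hV := N_left hc h3
        have hM : T' (10 ^ w.length) z ∈ M r := V_sub_M hw hV
        have hf := frontier_of_ml hM h2
        rw [Bool.xor_true, ih (!s) (by omega) h3]
        have h4 : z = (starRingEnd ℂ) (T' (10 ^ w.length) z) := by
          rw [← T_of_ml h2, T_T']
        conv_rhs => rw [h4]
        rw [← face_flip hf, Bool.not_not]
    · rfl

/-- On the triangle `U` the folding map is the face map. -/
lemma F_U (s d : Bool) (w : List Bool) (hw : w.length + 1 ≤ r) {z : ℂ} (hz : z ∈ U (10 ^ w.length)) :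
    F r s (d :: w) z = face r s z := by
  have ht := pow10_pos w.length
  simp only [F]
  split_ifs with hc
  · cases d
    · rw [tau'_false, Bool.xor_false]
      exact F_left s w (by omega) (U_sub ht hz).2.1
    · rw [tau'_true] at hc ⊢
      have h2 : ml (10 ^ w.length) (T' (10 ^ w.length) z) = 0 := by
        apply le_antisymm (N_quad hc).1
        rw [ml_T']
        linarith [hz.2.1]
      have h3 := N_ml_zero hc h2
      have hV := N_left hc h3
      have hM : T' (10 ^ w.length) z ∈ M r := V_sub_M hw hV
      have hf := frontier_of_ml hM h2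
      rw [Bool.xor_true, F_left (!s) w (by omega) h3]
      have h4 : z = (starRingEnd ℂ) (T' (10 ^ w.length) z) := by
        rw [← T_of_ml h2, T_T']
      conv_rhs => rw [h4]
      rw [← face_flip hf, Bool.not_not]
  · rfl

lemma F_true (s : Bool) {w : List Bool} {z : ℂ} (hz : T' (10 ^ w.length) z ∈ V (10 ^ w.length) ∪ A w) :
    F r s (true :: w) z = F r (!s) w (T' (10 ^ w.length) z) := by
  simp only [F]
  rw [if_pos (by rw [tau'_true]; exact hz), tau'_true, Bool.xor_true]

lemma F_true_not (s : Bool) {w : List Bool} {z : ℂ} (hz : T' (10 ^ w.length) z ∉ V (10 ^ w.length) ∪ A w) :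
    F r s (true :: w) z = face r s z := by
  simp only [F]
  rw [if_neg (by rw [tau'_true]; exact hz)]

lemma F_false (s : Bool) (w : List Bool) (z : ℂ) : F r s (false :: w) z = F r s w z := by
  simp only [F, tau'_false]
  split_ifs with hc
  · rw [Bool.xor_false]
  · rw [F_of_not]
    exact fun h => hc (Or.inr h)

end Fbasic

end Pool.Agent.P086e3e
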