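import Pool.Agent.Lib.P086e3e.Basic

set_option autoImplicit false

open Complex Set

namespace Pool.Agent.P086e3e

/-- Lower and upper vertices. -/
def pa (Y : ℝ) : ℂ := ⟨-Y ^ 2, -Y⟩
def pb (Y : ℝ) : ℂ := ⟨-Y ^ 2, Y⟩

/-- Upper rim, lower rim, diagonal, tangents at the column `Y`, left and right bounds. -/
def mu (t : ℝ) : ℂ → ℝ := af 1 (11 * t) (-(10 * t ^ 2))
def ml (t : ℝ) : ℂ → ℝ := af 1 (-(11 * t)) (-(10 * t ^ 2))
def el (t : ℝ) : ℂ → ℝ := af 1 (-(9 * t)) (10 * t ^ 2)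
def tu (Y : ℝ) : ℂ → ℝ := af 1 (2 * Y) (-(Y ^ 2))
def tl (Y : ℝ) : ℂ → ℝ := af 1 (-(2 * Y)) (-(Y ^ 2))
def lf (Y : ℝ) : ℂ → ℝ := af (-1) 0 (-(Y ^ 2))
def rt (Y : ℝ) : ℂ → ℝ := af 1 0 (Y ^ 2)

lemma mu_eq (t : ℝ) (z : ℂ) : mu t z = z.re + 11 * t * z.im - 10 * t ^ 2 := by simp only [mu, af]; ring
lemma ml_eq (t : ℝ) (z : ℂ) : ml t z = z.re - 11 * t * z.im - 10 * t ^ 2 := by simp only [ml, af]; ring
lemma el_eq (t : ℝ) (z : ℂ) : el t z = z.re - 9 * t * z.im + 10 * t ^ 2 := by simp only [el, af]; ring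
lemma tu_eq (Y : ℝ) (z : ℂ) : tu Y z = z.re + 2 * Y * z.im - Y ^ 2 := by simp only [tu, af]; ring
lemma tl_eq (Y : ℝ) (z : ℂ) : tl Y z = z.re - 2 * Y * z.im - Y ^ 2 := by simp only [tl, af]; ring
lemma lf_eq (Y : ℝ) (z : ℂ) : lf Y z = -z.re - Y ^ 2 := by simp only [lf, af]; ring
lemma rt_eq (Y : ℝ) (z : ℂ) : rt Y z = z.re + Y ^ 2 := by simp only [rt, af]; ring

noncomputable def kap (t : ℝ) : ℝ := 2 / (1 + 121 * t ^ 2)

lemma kap_mul (t : ℝ) : kap t * (1 + 121 * t ^ 2) = 2 := by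
  have : 0 < 1 + 121 * t ^ 2 := by positivity
  unfold kap; field_simp

lemma kap_pos (t : ℝ) : 0 < kap t := by unfold kap; positivity

/-- The motion taking the lower rim of the block `t` to its upper rim. -/
noncomputable def T (t : ℝ) (z : ℂ) : ℂ := ⟨z.re - kap t * ml t z, -z.im - 11 * t * kap t * ml t z⟩
noncomputable def T' (t : ℝ) (z : ℂ) : ℂ := ⟨z.re - kap t * mu t z, -z.im + 11 * t * kap t * mu t z⟩

lemma mu_T (t : ℝ) (z : ℂ) : mu t (T t z) = -ml t z := by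
  have := kap_mul t
  rw [mu_eq]
  simp only [T]
  have e : ml t z = z.re - 11 * t * z.im - 10 * t ^ 2 := ml_eq t z
  linear_combination (-ml t z) * this - e

lemma ml_T' (t : ℝ) (z : ℂ) : ml t (T' t z) = -mu t z := by
  have := kap_mul t
  rw [ml_eq]
  simp only [T']
  have e : mu t z = z.re + 11 * t * z.im - 10 * t ^ 2 := mu_eq t z
  linear_combination (-mu t z) * this - e

lemma T'_T (t : ℝ) (z : ℂ) : T' t (T t z) = z := by
  apply Complex.ext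
  · simp only [T', mu_T]
    simp only [T]
    ring
  · simp only [T', mu_T]
    simp only [T]
    ring

lemma T_T' (t : ℝ) (z : ℂ) : T t (T' t z) = z := by
  apply Complex.ext
  · simp only [T, ml_T']
    simp only [T']
    ring
  · simp only [T, ml_T']
    simp only [T']
    ring

lemma dist_T' (t : ℝ) (x y : ℂ) : dist (T' t x) (T' t y) = dist x y := by
  rw [Complex.dist_eq_re_im, Complex.dist_eq_re_im]
  congr 1
  have h := kap_mul t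
  simp only [T', mu_eq]
  set k := kap t
  linear_combination (k * ((x.re + 11 * t * x.im - 10 * t ^ 2) - (y.re + 11 * t * y.im - 10 * t ^ 2)) ^ 2) * h

lemma dist_T (t : ℝ) (x y : ℂ) : dist (T t x) (T t y) = dist x y := by
  conv_rhs => rw [← T'_T t x, ← T'_T t y]
  rw [dist_T']

lemma continuous_T' (t : ℝ) : Continuous (T' t) := by
  have : Isometry (T' t) := Isometry.of_dist_eq (dist_T' t)
  exact this.continuous

lemma continuous_T (t : ℝ) : Continuous (T t) := by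
  have : Isometry (T t) := Isometry.of_dist_eq (dist_T t)
  exact this.continuous

lemma T_of_ml {t : ℝ} {z : ℂ} (h : ml t z = 0) : T t z = (starRingEnd ℂ) z := by
  apply Complex.ext
  · simp [T, h]
  · simp [T, h]

lemma T'_of_mu {t : ℝ} {z : ℂ} (h : mu t z = 0) : T' t z = (starRingEnd ℂ) z := by
  apply Complex.ext
  · simp [T', h]
  · simp [T', h]

/-- The two triangles of the block `t`. -/
def U (t : ℝ) : Set ℂ := {z | lf (10 * t) z ≤ 0 ∧ mu t z ≤ 0 ∧ el t z ≤ 0}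
def V (t : ℝ) : Set ℂ := {z | ml t z ≤ 0 ∧ 0 ≤ el t z ∧ rt t z ≤ 0}
/-- The envelope of an arm starting at the column `Y`. -/
def W (Y : ℝ) : Set ℂ := {z | lf Y z ≤ 0 ∧ tu Y z ≤ 0 ∧ tl Y z ≤ 0}
def Quad (t : ℝ) : Set ℂ := {z | ml t z ≤ 0 ∧ 0 ≤ el t z ∧ tl t z ≤ 0 ∧ tu t z ≤ 0}

section ineq

variable {t : ℝ} {z : ℂ}

lemma W_sub (ht : 0 < t) (hz : z ∈ W t) :
    ml t z ≤ 0 ∧ mu t z ≤ 0 ∧ 0 ≤ el t z ∧ (ml t z = 0 → rt t z ≤ 0) := by
  obtain ⟨h1, h2, h3⟩ := hz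
  rw [lf_eq] at h1
  rw [tu_eq] at h2
  rw [tl_eq] at h3
  rw [ml_eq, mu_eq, el_eq, rt_eq]
  refine ⟨by nlinarith, by nlinarith, by nlinarith, fun h => by nlinarith⟩

lemma W_mono {s : ℝ} (ht : 0 < t) (hs : t ≤ s) (hz : z ∈ W t) : z ∈ W s := by
  obtain ⟨h1, h2, h3⟩ := hz
  rw [lf_eq] at h1
  rw [tu_eq] at h2
  rw [tl_eq] at h3
  have hq : t ^ 2 ≤ s ^ 2 := by nlinarith
  have hs0 : 0 < s := by linarith
  -- bounds on im
  have a1 : 2 * t * z.im ≤ t ^ 2 - z.re := by linarith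
  have a2 : 2 * t * (-z.im) ≤ t ^ 2 - z.re := by linarith
  have hx : z.re ≤ t ^ 2 := by linarith
  have hmain : s * (t ^ 2 - z.re) ≤ t * (s ^ 2 - z.re) := by
    nlinarith [mul_nonneg (sub_nonneg.2 hs) (by linarith : (0:ℝ) ≤ z.re + t ^ 2), mul_nonneg (sub_nonneg.2 hs) (mul_nonneg ht.le (sub_nonneg.2 hs))]
  have hmono : ∀ v : ℝ, 2 * t * v ≤ t ^ 2 - z.re → 2 * s * v ≤ s ^ 2 - z.re := by
    intro v hv
    have : s * (2 * t * v) ≤ s * (t ^ 2 - z.re) := mul_le_mul_of_nonneg_left hv hs0.le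
    have h5 : t * (2 * s * v) ≤ t * (s ^ 2 - z.re) := by linarith
    exact le_of_mul_le_mul_left h5 ht
  refine ⟨?_, ?_, ?_⟩
  · rw [lf_eq]; linarith
  · rw [tu_eq]; linarith [hmono _ a1]
  · rw [tl_eq]; linarith [hmono _ a2]

lemma V_sub (ht : 0 < t) (hz : z ∈ V t) : tu t z ≤ 0 ∧ tl t z ≤ 0 ∧ lf (10 * t) z ≤ 0 := by
  obtain ⟨h1, h2, h3⟩ := hz
  rw [ml_eq] at h1
  rw [el_eq] at h2
  rw [rt_eq] at h3
  rw [tu_eq, tl_eq, lf_eq]
  refine ⟨by nlinarith, by nlinarith, by nlinarith⟩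

lemma V_quad (ht : 0 < t) (hz : z ∈ V t) : z ∈ Quad t :=
  ⟨hz.1, hz.2.1, (V_sub ht hz).2.1, (V_sub ht hz).1⟩

lemma W_quad (ht : 0 < t) (hz : z ∈ W t) : z ∈ Quad t :=
  ⟨(W_sub ht hz).1, (W_sub ht hz).2.2.1, hz.2.2, hz.2.1⟩

lemma U_sub (ht : 0 < t) (hz : z ∈ U t) :
    z ∈ W (10 * t) ∧ rt t z ≤ 0 ∧ tu t z ≤ 0 ∧ tl t z ≤ 0 := by
  obtain ⟨h1, h2, h3⟩ := hz
  rw [lf_eq] at h1
  rw [mu_eq] at h2
  rw [el_eq] at h3
  refine ⟨⟨?_, ?_, ?_⟩, ?_, ?_, ?_⟩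
  · rw [lf_eq]; linarith
  · rw [tu_eq]; nlinarith
  · rw [tl_eq]; nlinarith
  · rw [rt_eq]; nlinarith
  · rw [tu_eq]; nlinarith
  · rw [tl_eq]; nlinarith

lemma V_W (ht : 0 < t) (hz : z ∈ V t) : z ∈ W (10 * t) := by
  obtain ⟨h1, h2, h3⟩ := hz
  rw [ml_eq] at h1
  rw [el_eq] at h2
  rw [rt_eq] at h3
  refine ⟨?_, ?_, ?_⟩
  · rw [lf_eq]; nlinarith
  · rw [tu_eq]; nlinarith
  · rw [tl_eq]; nlinarith

lemma quad_T (ht : 1 ≤ t) (hz : z ∈ Quad t) : T t z ∈ W (10 * t) := by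
  obtain ⟨h1, h2, h3, h4⟩ := hz
  have hk := kap_mul t
  have hk0 := kap_pos t
  have ht0 : 0 < t := by linarith
  have ht2 : 1 ≤ t ^ 2 := by nlinarith
  have hk1 : kap t * t ^ 2 ≤ 2 / 121 := by nlinarith
  have hk2 : kap t ≤ 2 / 122 := by nlinarith
  have e1 := ml_eq t z
  have e2 := el_eq t z
  rw [tl_eq] at h3
  rw [tu_eq] at h4
  set k := kap t with hkd
  set m := ml t z with hm
  have hkm : 0 ≤ k * (-m) := mul_nonneg hk0.le (by linarith)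
  refine ⟨?_, ?_, ?_⟩
  · rw [lf_eq]
    simp only [T, ← hkd, ← hm]
    nlinarith
  · rw [tu_eq]
    simp only [T, ← hkd, ← hm]
    have key : z.re - k * m + 2 * (10 * t) * (-z.im - 11 * t * k * m) - (10 * t) ^ 2 =
        (11 / 2 - k * (220 * t ^ 2 + 1)) * m - 9 / 2 * el t z := by
      rw [e2, e1]; ring
    rw [key]
    have hα : 0 ≤ 11 / 2 - k * (220 * t ^ 2 + 1) := by nlinarith
    nlinarith
  · rw [tl_eq]
    simp only [T, ← hkd, ← hm]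
    have h5 : 2 * (10 * t) * z.im + z.re ≤ 100 * t ^ 2 := by
      have : t * z.im ≤ t ^ 2 := by nlinarith
      nlinarith
    have h6 : 0 ≤ k * (-m) * (220 * t ^ 2 - 1) := mul_nonneg hkm (by nlinarith)
    nlinarith

lemma T'_tl (ht : 1 ≤ t) (h1 : mu t z ≤ 0) (h2 : el t z ≤ 0) : tl t (T' t z) ≤ 0 := by
  have hk := kap_mul t
  have hk0 := kap_pos t
  have ht2 : 1 ≤ t ^ 2 := by nlinarith
  have hk1 : kap t * t ^ 2 ≤ 2 / 121 := by nlinarith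
  have hk2 : kap t ≤ 2 / 122 := by nlinarith
  have e1 := mu_eq t z
  have e2 := el_eq t z
  rw [tl_eq]
  simp only [T']
  set k := kap t with hkd
  set m := mu t z with hm
  have key : z.re - k * m - 2 * t * (-z.im + 11 * t * k * m) - t ^ 2 =
      (11 / 20 - k * (22 * t ^ 2 + 1)) * m + 9 / 20 * el t z := by
    rw [e2, e1]; ring
  rw [key]
  have hα : 0 ≤ 11 / 20 - k * (22 * t ^ 2 + 1) := by nlinarith
  nlinarith

lemma lf_T_eq (ht : 1 ≤ t) (hz : z ∈ Quad t) (h : 0 ≤ lf (10 * t) (T t z)) : ml t z = 0 ∧ rt t z ≤ 0 := by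
  obtain ⟨h1, h2, h3, h4⟩ := hz
  have hk0 := kap_pos t
  have e1 := ml_eq t z
  have e2 := el_eq t z
  rw [lf_eq] at h
  simp only [T] at h
  have hkm : 0 ≤ kap t * (-ml t z) := mul_nonneg hk0.le (by linarith)
  have hx : -(100 * t ^ 2) ≤ z.re := by nlinarith
  have hkm0 : kap t * (-ml t z) = 0 := by
    apply le_antisymm _ hkm
    nlinarith
  have hm0 : ml t z = 0 := by
    rcases mul_eq_zero.1 hkm0 with h5 | h5
    · exact absurd h5 hk0.ne'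
    · linarith
  refine ⟨hm0, ?_⟩
  rw [rt_eq]
  nlinarith

end ineq

end Pool.Agent.P086e3e
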