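import Pool.Agent.Lib.P086e3e.Unf

set_option autoImplicit false

open Complex Set Topology

namespace Pool.Agent.P086e3e

/-- The vertices by column and side. -/
def vt (i : ℕ) (s : Bool) : ℂ := if s then pa (10 ^ i) else pb (10 ^ i)

lemma vt_re (i : ℕ) (s : Bool) : (vt i s).re = -(10 ^ i) ^ 2 := by cases s <;> simp [vt, pa, pb]

lemma vt_im (i : ℕ) (s : Bool) : (vt i s).im = if s then -(10 ^ i) else 10 ^ i := by cases s <;> simp [vt, pa, pb]

lemma pow10_inj {i j : ℕ} (h : ((10:ℝ) ^ i) ^ 2 = (10 ^ j) ^ 2) : i = j := by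
  have h1 : (10:ℝ) ^ i = 10 ^ j := by
    have := pow10_pos i
    have := pow10_pos j
    nlinarith
  exact Nat.pow_right_injective (le_refl 2 |>.trans (by norm_num : 2 ≤ 10)) (by exact_mod_cast h1)

lemma vt_inj {i j : ℕ} {s s' : Bool} (h : vt i s = vt j s') : i = j ∧ s = s' := by
  have h1 := congrArg Complex.re h
  rw [vt_re, vt_re] at h1
  have hij : i = j := pow10_inj (by linarith)
  subst hij
  refine ⟨rfl, ?_⟩
  have h2 := congrArg Complex.im h
  rw [vt_im, vt_im] at h2
  have := pow10_pos i
  cases s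
  · cases s'
    · rfl
    · rw [if_neg Bool.false_ne_true, if_pos rfl] at h2; linarith
  · cases s'
    · rw [if_neg Bool.false_ne_true, if_pos rfl] at h2; linarith
    · rfl

lemma verts_eq (r : ℕ) : verts r = (fun q : ℕ × Bool => vt q.1 q.2) '' (Set.Iic r ×ˢ Set.univ) := by
  ext z
  constructor
  · rintro ⟨i, hi, h | h⟩
    · exact ⟨(i, true), ⟨hi, trivial⟩, by simp [vt, h]⟩
    · exact ⟨(i, false), ⟨hi, trivial⟩, by simp [vt, h]⟩
  · rintro ⟨⟨i, s⟩, ⟨hi, _⟩, rfl⟩
    refine ⟨i, hi, ?_⟩
    cases s
    · right; simp [vt]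
    · left; simp [vt]

lemma vt_mem_verts {r i : ℕ} (h : i ≤ r) (s : Bool) : vt i s ∈ verts r := by
  rw [verts_eq]; exact ⟨(i, s), ⟨h, trivial⟩, rfl⟩

lemma verts_cases {r : ℕ} {z : ℂ} (hz : z ∈ verts r) : ∃ i s, i ≤ r ∧ z = vt i s := by
  rw [verts_eq] at hz
  obtain ⟨⟨i, s⟩, ⟨hi, _⟩, rfl⟩ := hz
  exact ⟨i, s, hi, rfl⟩

lemma verts_ncard (r : ℕ) : (verts r).ncard = 2 * r + 2 := by
  rw [verts_eq, Set.InjOn.ncard_image]
  · rw [Set.ncard_prod, Set.ncard_univ, Nat.card_eq_fintype_card, Fintype.card_bool]
    have : (Set.Iic r).ncard = r + 1 := by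
      rw [← Finset.coe_Iic, Set.ncard_coe_finset, Nat.card_Iic]
    rw [this]; ring
  · rintro ⟨i, s⟩ _ ⟨j, s'⟩ _ h
    obtain ⟨h1, h2⟩ := vt_inj h
    exact Prod.ext h1 h2

lemma M_parab {r : ℕ} {z : ℂ} (hz : z ∈ M r) : z.re + z.im ^ 2 ≤ 0 := by
  have hc : Convex ℝ {z : ℂ | z.re + z.im ^ 2 ≤ 0} := by
    intro x hx y hy a b ha hb hab
    simp only [mem_ofPred_eq] at hx hy ⊢
    simp only [Complex.add_re, Complex.add_im, Complex.smul_re, Complex.smul_im, smul_eq_mul]
    have hb' : b = 1 - a := by linarith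
    subst hb'
    nlinarith [mul_nonneg ha hb, sq_nonneg (x.im - y.im), mul_nonneg (mul_nonneg ha hb) (sq_nonneg (x.im - y.im))]
  have : M r ⊆ {z : ℂ | z.re + z.im ^ 2 ≤ 0} := by
    apply convexHull_min _ hc
    rintro z ⟨i, hi, rfl | rfl⟩ <;> simp [pa, pb]
  exact this hz

lemma extreme_M (r : ℕ) : (M r).extremePoints ℝ = verts r := by
  apply subset_antisymm
  · exact extremePoints_convexHull_subset
  · intro z hz
    obtain ⟨i, s, hi, rfl⟩ := verts_cases hz
    rw [mem_extremePoints_iff_left]
    refine ⟨subset_convexHull ℝ _ hz, ?_⟩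
    intro x hx y hy hxy
    have hpx := M_parab hx
    have hpy := M_parab hy
    -- supporting functional
    set c : ℝ := if s then -(10 ^ i) else 10 ^ i with hc
    have hzre : (vt i s).re = -c ^ 2 := by
      rw [vt_re, hc]
      cases s <;> simp
    have hzim : (vt i s).im = c := by rw [vt_im]
    rw [openSegment_eq_image_lineMap] at hxy
    obtain ⟨θ, ⟨h0, h1⟩, h2⟩ := hxy
    have e := af_lineMap 1 (2 * c) (-(c ^ 2)) x y θ
    rw [h2] at e
    simp only [af, hzre, hzim] at e
    have kx : 1 * x.re + 2 * c * x.im + -c ^ 2 ≤ 0 := by nlinarith [sq_nonneg (x.im - c)]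
    have ky : 1 * y.re + 2 * c * y.im + -c ^ 2 ≤ 0 := by nlinarith [sq_nonneg (y.im - c)]
    have h3 : (1 - θ) * (1 * x.re + 2 * c * x.im + -c ^ 2) = 0 := by
      have a1 : (1 - θ) * (1 * x.re + 2 * c * x.im + -c ^ 2) ≤ 0 :=
        mul_nonpos_of_nonneg_of_nonpos (by linarith) kx
      have a2 : θ * (1 * y.re + 2 * c * y.im + -c ^ 2) ≤ 0 :=
        mul_nonpos_of_nonneg_of_nonpos h0.le ky
      nlinarith
    have h4 : 1 * x.re + 2 * c * x.im + -c ^ 2 = 0 := by
      rcases mul_eq_zero.1 h3 with h5 | h5
      · linarith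
      · exact h5
    have h5 : (x.im - c) ^ 2 ≤ 0 := by nlinarith
    have h6 : x.im = c := by
      have := pow_eq_zero_iff (two_ne_zero) |>.1 (le_antisymm h5 (sq_nonneg _))
      linarith
    apply Complex.ext
    · rw [hzre]
      rw [h6] at h4
      linarith
    · rw [hzim]; exact h6

lemma M_polygon {r : ℕ} (hr : 1 ≤ r) : IsPolygon (M r) (2 * r + 2) := by
  refine ⟨⟨(verts_finite r).toFinset, by rw [Set.Finite.coe_toFinset]; rfl⟩, ?_, ?_⟩
  · have hO : IsOpen ({z : ℂ | mu (10 ^ 0) z < 0} ∩ {z | el (10 ^ 0) z < 0} ∩ {z | lf (10 * 10 ^ 0) z < 0}) :=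
      ((isOpen_af_lt _ _ _).inter (isOpen_af_lt _ _ _)).inter (isOpen_af_lt _ _ _)
    refine ⟨⟨-50, 0⟩, interior_maximal ?_ hO ⟨⟨?_, ?_⟩, ?_⟩⟩
    · rintro x ⟨⟨h1, h2⟩, h3⟩
      exact U_sub_M (j := 0) (by omega) ⟨le_of_lt h3, le_of_lt h1, le_of_lt h2⟩
    · simp only [mem_ofPred_eq, mu_eq]; norm_num
    · simp only [mem_ofPred_eq, el_eq]; norm_num
    · simp only [mem_ofPred_eq, lf_eq]; norm_num
  · rw [extreme_M, verts_ncard]

/-- The side of the first vertex of the path. -/
def sg : List Bool → Bool
  | [] => true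
  | d :: w => xor d (sg w)

/-- The vertex order of a word. -/
def pth : List Bool → ℕ → ℂ
  | [], j => if j = 0 then vt 0 true else vt 0 false
  | d :: w, 0 => vt (w.length + 1) (sg (d :: w))
  | d :: w, j + 1 => if j < 2 * w.length + 2 then pth w j else vt (w.length + 1) (!sg (d :: w))

/-- The faces of the arcs of a word. -/
def fcs : List Bool → ℕ → Bool
  | [], _ => true
  | d :: w, 0 => sg (d :: w)
  | d :: w, j + 1 => if j < 2 * w.length + 1 then fcs w j else !sg (d :: w)

lemma pth_zero (w : List Bool) : pth w 0 = vt w.length (sg w) := by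
  cases w with
  | nil => simp [pth, sg]
  | cons d w => simp only [pth, List.length_cons]

lemma pth_last (w : List Bool) : pth w (2 * w.length + 1) = vt w.length (!sg w) := by
  cases w with
  | nil => simp [pth, sg]
  | cons d w =>
    have : 2 * (d :: w).length + 1 = (2 * w.length + 2) + 1 := by rw [List.length_cons]; ring
    rw [this]
    simp only [pth, lt_irrefl, if_false, List.length_cons]

lemma pth_succ (d : Bool) {w : List Bool} {j : ℕ} (h : j < 2 * w.length + 2) : pth (d :: w) (j + 1) = pth w j := by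
  simp only [pth, if_pos h]

lemma fcs_succ (d : Bool) {w : List Bool} {j : ℕ} (h : j < 2 * w.length + 1) : fcs (d :: w) (j + 1) = fcs w j := by
  simp only [fcs, if_pos h]

lemma pth_bij (w : List Bool) : Set.BijOn (pth w) (Set.Iio (2 * w.length + 2)) (verts w.length) := by
  induction w with
  | nil =>
    have hI : ∀ j, j ∈ Set.Iio (2 * ([] : List Bool).length + 2) → j = 0 ∨ j = 1 := by
      intro j hj
      simp only [List.length_nil, mem_Iio] at hj
      omega
    refine ⟨?_, ?_, ?_⟩
    · intro j hj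
      rcases hI j hj with rfl | rfl
      · simp only [pth, if_true]; exact vt_mem_verts le_rfl _
      · simp only [pth, one_ne_zero, if_false]; exact vt_mem_verts le_rfl _
    · intro j hj l hl h
      rcases hI j hj with rfl | rfl <;> rcases hI l hl with rfl | rfl
      · rfl
      · simp only [pth, if_true, one_ne_zero, if_false] at h
        exact absurd (vt_inj h).2 (by simp)
      · simp only [pth, if_true, one_ne_zero, if_false] at h
        exact absurd (vt_inj h).2 (by simp)
      · rfl
    · intro z hz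
      obtain ⟨i, s, hi, rfl⟩ := verts_cases hz
      have hi0 : i = 0 := by simpa using hi
      subst hi0
      cases s
      · exact ⟨1, by simp, by simp [pth]⟩
      · exact ⟨0, by simp, by simp [pth]⟩
  | cons d w ih =>
    obtain ⟨h1, h2, h3⟩ := ih
    have hn : 2 * (d :: w).length + 2 = 2 * w.length + 4 := by rw [List.length_cons]; ring
    have hsub : verts w.length ⊆ verts (w.length + 1) := by
      rintro z ⟨i, hi, h⟩
      exact ⟨i, by omega, h⟩
    have hnot : ∀ s, vt (w.length + 1) s ∉ verts w.length := by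
      intro s h
      obtain ⟨i, s', hi, h'⟩ := verts_cases h
      have := (vt_inj h').1
      omega
    have hcase : ∀ j, j ∈ Set.Iio (2 * (d :: w).length + 2) →
        (j = 0) ∨ (∃ l, j = l + 1 ∧ l < 2 * w.length + 2) ∨ j = (2 * w.length + 2) + 1 := by
      intro j hj
      rw [mem_Iio, hn] at hj
      cases j with
      | zero => exact Or.inl rfl
      | succ l =>
        rcases Nat.lt_or_ge l (2 * w.length + 2) with h | h
        · exact Or.inr (Or.inl ⟨l, rfl, h⟩)
        · right; right; omega
    have e0 : pth (d :: w) 0 = vt (w.length + 1) (sg (d :: w)) := rfl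
    have e1 : pth (d :: w) ((2 * w.length + 2) + 1) = vt (w.length + 1) (!sg (d :: w)) := by
      simp only [pth, lt_irrefl, if_false]
    refine ⟨?_, ?_, ?_⟩
    · intro j hj
      rw [List.length_cons]
      rcases hcase j hj with rfl | ⟨l, rfl, hl⟩ | rfl
      · rw [e0]; exact vt_mem_verts le_rfl _
      · rw [pth_succ d hl]; exact hsub (h1 hl)
      · rw [e1]; exact vt_mem_verts le_rfl _
    · intro j hj l hl h
      rcases hcase j hj with rfl | ⟨j, rfl, hj'⟩ | rfl
      · rcases hcase l hl with rfl | ⟨l, rfl, hl'⟩ | rfl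
        · rfl
        · rw [e0, pth_succ d hl'] at h
          exact absurd (h ▸ h1 hl') (hnot _)
        · rw [e0, e1] at h
          exact absurd (vt_inj h).2 (by simp)
      · rcases hcase l hl with rfl | ⟨l, rfl, hl'⟩ | rfl
        · rw [e0, pth_succ d hj'] at h
          exact absurd (h ▸ h1 hj') (hnot _)
        · rw [pth_succ d hj', pth_succ d hl'] at h
          rw [h2 hj' hl' h]
        · rw [e1, pth_succ d hj'] at h
          exact absurd (h ▸ h1 hj') (hnot _)
      · rcases hcase l hl with rfl | ⟨l, rfl, hl'⟩ | rfl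
        · rw [e0, e1] at h
          exact absurd (vt_inj h).2 (by simp)
        · rw [e1, pth_succ d hl'] at h
          exact absurd (h ▸ h1 hl') (hnot _)
        · rfl
    · intro z hz
      obtain ⟨i, s, hi, rfl⟩ := verts_cases hz
      rw [List.length_cons] at hi
      rcases Nat.lt_or_ge i (w.length + 1) with h | h
      · obtain ⟨l, hl, hl'⟩ := h3 (vt_mem_verts (by omega : i ≤ w.length) s)
        refine ⟨l + 1, ?_, ?_⟩
        · rw [mem_Iio] at hl ⊢; rw [hn]; omega
        · rw [pth_succ d hl]; exact hl'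
      · have hi' : i = w.length + 1 := by omega
        subst hi'
        by_cases hs : s = sg (d :: w)
        · refine ⟨0, ?_, ?_⟩
          · rw [mem_Iio, hn]; omega
          · rw [e0, hs]
        · refine ⟨(2 * w.length + 2) + 1, ?_, ?_⟩
          · rw [mem_Iio, hn]; omega
          · rw [e1]
            congr 1
            cases s <;> cases hsg : sg (d :: w) <;> simp_all

/-- The set of points of one strand of a block. -/
def strand (r : ℕ) (d : Bool) (t : ℝ) (s : Bool) : Set (ℂ × Bool) := {q | ∃ z ∈ cseg d t, q = face r s z}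

lemma cseg_eq (d : Bool) {t : ℝ} (ht : 0 < t) :
    cseg d t = segment ℝ (pa (10 * t)) (if d then pb t else pa t) := by
  have ht2 : 0 < t ^ 2 := by positivity
  ext z
  rw [segment_eq_image_lineMap]
  constructor
  · rintro ⟨h1, h2, h3⟩
    rw [lf_eq] at h2
    rw [rt_eq] at h3
    refine ⟨(z.re + 100 * t ^ 2) / (99 * t ^ 2), ⟨by apply div_nonneg <;> nlinarith, ?_⟩, ?_⟩
    · rw [div_le_one (by positivity)]; linarith
    · cases d
      · rw [if_neg Bool.false_ne_true, ml_eq] at h1
        rw [if_neg Bool.false_ne_true]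
        apply Complex.ext
        · simp only [AffineMap.lineMap_apply, vsub_eq_sub, vadd_eq_add, Complex.add_re, Complex.smul_re,
            Complex.sub_re, smul_eq_mul, pa]
          field_simp
          ring
        · simp only [AffineMap.lineMap_apply, vsub_eq_sub, vadd_eq_add, Complex.add_im, Complex.smul_im,
            Complex.sub_im, smul_eq_mul, pa]
          field_simp
          nlinarith
      · rw [if_pos rfl, el_eq] at h1
        rw [if_pos rfl]
        apply Complex.ext
        · simp only [AffineMap.lineMap_apply, vsub_eq_sub, vadd_eq_add, Complex.add_re, Complex.smul_re,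
            Complex.sub_re, smul_eq_mul, pa, pb]
          field_simp
          ring
        · simp only [AffineMap.lineMap_apply, vsub_eq_sub, vadd_eq_add, Complex.add_im, Complex.smul_im,
            Complex.sub_im, smul_eq_mul, pa, pb]
          field_simp
          nlinarith
  · rintro ⟨θ, ⟨h0, h1⟩, rfl⟩
    cases d
    · rw [if_neg Bool.false_ne_true]
      refine ⟨?_, ?_, ?_⟩
      · rw [if_neg Bool.false_ne_true, ml_eq]
        simp only [AffineMap.lineMap_apply, vsub_eq_sub, vadd_eq_add, Complex.add_re, Complex.smul_re,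
            Complex.sub_re, Complex.add_im, Complex.smul_im, Complex.sub_im, smul_eq_mul, pa]
        ring
      · rw [lf_eq]
        simp only [AffineMap.lineMap_apply, vsub_eq_sub, vadd_eq_add, Complex.add_re, Complex.smul_re,
            Complex.sub_re, smul_eq_mul, pa]
        nlinarith
      · rw [rt_eq]
        simp only [AffineMap.lineMap_apply, vsub_eq_sub, vadd_eq_add, Complex.add_re, Complex.smul_re,
            Complex.sub_re, smul_eq_mul, pa]
        nlinarith
    · rw [if_pos rfl]
      refine ⟨?_, ?_, ?_⟩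
      · rw [if_pos rfl, el_eq]
        simp only [AffineMap.lineMap_apply, vsub_eq_sub, vadd_eq_add, Complex.add_re, Complex.smul_re,
            Complex.sub_re, Complex.add_im, Complex.smul_im, Complex.sub_im, smul_eq_mul, pa, pb]
        ring
      · rw [lf_eq]
        simp only [AffineMap.lineMap_apply, vsub_eq_sub, vadd_eq_add, Complex.add_re, Complex.smul_re,
            Complex.sub_re, smul_eq_mul, pa, pb]
        nlinarith
      · rw [rt_eq]
        simp only [AffineMap.lineMap_apply, vsub_eq_sub, vadd_eq_add, Complex.add_re, Complex.smul_re,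
            Complex.sub_re, smul_eq_mul, pa, pb]
        nlinarith

lemma conj_segment (x y : ℂ) : (fun z : ℂ => (starRingEnd ℂ) z) '' segment ℝ x y =
    segment ℝ ((starRingEnd ℂ) x) ((starRingEnd ℂ) y) :=
  image_segment ℝ (Complex.conjLIE.toLinearEquiv.toLinearMap.toAffineMap : ℂ →ᵃ[ℝ] ℂ) x y

lemma conj_pa (t : ℝ) : (starRingEnd ℂ) (pa t) = pb t := by apply Complex.ext <;> simp [pa, pb]
lemma conj_pb (t : ℝ) : (starRingEnd ℂ) (pb t) = pa t := by apply Complex.ext <;> simp [pa, pb]

/-- Each strand is a straight segment on one face between two vertices. -/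
lemma strand_eq (r : ℕ) (d : Bool) (k : ℕ) (s : Bool) :
    strand r d (10 ^ k) s = sheet (M r) s '' segment ℝ (vt (k + 1) s) (vt k (xor s d)) := by
  have ht := pow10_pos k
  have e1 : strand r d (10 ^ k) s = face r s '' segment ℝ (pa (10 * 10 ^ k)) (if d then pb (10 ^ k) else pa (10 ^ k)) := by
    rw [← cseg_eq d ht]
    ext q
    constructor
    · rintro ⟨z, hz, rfl⟩; exact ⟨z, hz, rfl⟩
    · rintro ⟨z, hz, rfl⟩; exact ⟨z, hz, rfl⟩
  rw [e1]
  cases s
  · have e2 : face r false = (sheet (M r) false) ∘ (fun z : ℂ => (starRingEnd ℂ) z) := by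
      funext z; exact face_false z
    rw [e2, Set.image_comp, conj_segment]
    congr 2
    · rw [conj_pa, pow10_succ']; simp [vt]
    · cases d
      · simp [vt, conj_pa]
      · simp [vt, conj_pb]
  · have e2 : face r true = sheet (M r) true := by funext z; exact face_true z
    rw [e2]
    congr 2
    · rw [pow10_succ']; simp [vt]
    · cases d <;> simp [vt]

end Pool.Agent.P086e3e
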