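import Pool.Agent.Lib.P086e3e.Path

set_option autoImplicit false

open Complex Set Topology

namespace Pool.Agent.P086e3e

section

variable {r : ℕ}

lemma vt_frontier {i : ℕ} (h : i ≤ r) (s : Bool) : vt i s ∈ frontier (M r) := by
  have hM : vt i s ∈ M r := subset_convexHull ℝ _ (vt_mem_verts h s)
  rw [(M_isClosed r).frontier_eq]
  refine ⟨hM, fun hi => ?_⟩
  cases s
  · have := af_lt_of_interior (S := M r) (Or.inl one_ne_zero) (fun x hx => M_tu (10 ^ i) hx) hi
    change tu (10 ^ i) (vt i false) < 0 at this
    rw [tu_eq, vt_re, vt_im, if_neg Bool.false_ne_true] at this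
    nlinarith
  · have := af_lt_of_interior (S := M r) (Or.inl one_ne_zero) (fun x hx => M_tl (10 ^ i) hx) hi
    change tl (10 ^ i) (vt i true) < 0 at this
    rw [tl_eq, vt_re, vt_im, if_pos rfl] at this
    nlinarith

lemma sheet_vt {i : ℕ} (h : i ≤ r) (s s' : Bool) : sheet (M r) s (vt i s') = sheet (M r) true (vt i s') := by
  simp only [sheet, vt_frontier h s', if_true]

lemma face_vt {i : ℕ} (h : i ≤ r) (s s' : Bool) :
    face r s (vt i s') = sheet (M r) true (vt i (if s then s' else !s')) := by
  cases s
  · rw [face_false, if_neg Bool.false_ne_true]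
    have : (starRingEnd ℂ) (vt i s') = vt i (!s') := by
      cases s'
      · simp [vt, conj_pb]
      · simp [vt, conj_pa]
    rw [this, sheet_vt h]
  · rw [face_true, if_pos rfl]

lemma sheet_vt_inj {i j : ℕ} {s s' : Bool} (h : sheet (M r) true (vt i s) = sheet (M r) true (vt j s')) :
    i = j ∧ s = s' := vt_inj (congrArg Prod.fst h)

lemma strand_right {d : Bool} {k : ℕ} (hk : k + 1 ≤ r) {s : Bool} {q : ℂ × Bool} (hq : q ∈ strand r d (10 ^ k) s)
    (h : -(10 ^ k) ^ 2 ≤ q.1.re) : q = sheet (M r) true (vt k (xor s d)) := by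
  obtain ⟨z, ⟨h1, h2, h3⟩, rfl⟩ := hq
  have ht := pow10_pos k
  rw [face_re] at h
  rw [rt_eq] at h3
  have hz : z = vt k (!d) := by
    cases d
    · rw [if_neg Bool.false_ne_true, ml_eq] at h1
      apply Complex.ext
      · rw [vt_re]; linarith
      · rw [vt_im, Bool.not_false, if_pos rfl]
        have : (11 * 10 ^ k) * z.im = (11 * 10 ^ k) * (-(10 ^ k)) := by nlinarith
        exact mul_left_cancel₀ (by positivity) this
    · rw [if_pos rfl, el_eq] at h1
      apply Complex.ext
      · rw [vt_re]; linarith
      · rw [vt_im, Bool.not_true, if_neg Bool.false_ne_true]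
        have : (9 * 10 ^ k) * z.im = (9 * 10 ^ k) * (10 ^ k) := by nlinarith
        exact mul_left_cancel₀ (by positivity) this
  rw [hz, face_vt (by omega)]
  cases s <;> cases d <;> rfl

lemma strand_left {d : Bool} {k : ℕ} (hk : k + 1 ≤ r) {s : Bool} {q : ℂ × Bool} (hq : q ∈ strand r d (10 ^ k) s)
    (h : q.1.re ≤ -(10 ^ (k + 1)) ^ 2) : q = sheet (M r) true (vt (k + 1) s) := by
  obtain ⟨z, ⟨h1, h2, h3⟩, rfl⟩ := hq
  have ht := pow10_pos k
  rw [face_re, ← pow10_succ'] at h
  rw [lf_eq] at h2
  have hz : z = vt (k + 1) true := by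
    apply Complex.ext
    · rw [vt_re, ← pow10_succ']; linarith
    · rw [vt_im, if_pos rfl, ← pow10_succ']
      cases d
      · rw [if_neg Bool.false_ne_true, ml_eq] at h1
        have : (11 * 10 ^ k) * z.im = (11 * 10 ^ k) * (-(10 * 10 ^ k)) := by nlinarith
        exact mul_left_cancel₀ (by positivity) this
      · rw [if_pos rfl, el_eq] at h1
        have : (9 * 10 ^ k) * z.im = (9 * 10 ^ k) * (-(10 * 10 ^ k)) := by nlinarith
        exact mul_left_cancel₀ (by positivity) this
  rw [hz, face_vt hk]
  cases s <;> rfl

lemma strand_disj {d : Bool} {k : ℕ} (hk : k + 1 ≤ r) {s : Bool} {q : ℂ × Bool} (hq : q ∈ strand r d (10 ^ k) s)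
    (hq' : q ∈ strand r d (10 ^ k) (!s)) : False := by
  obtain ⟨z, ⟨h1, h2, h3⟩, rfl⟩ := hq
  obtain ⟨z', ⟨h1', h2', h3'⟩, h⟩ := hq'
  have ht := pow10_pos k
  have e1 := congrArg (fun q => q.1.re) h
  have e2 := congrArg (fun q => q.1.im) h
  simp only [face_re, face_im] at e1 e2
  have e3 : z.im = -z'.im := by
    cases s
    · rw [Bool.not_false, if_neg Bool.false_ne_true, if_pos rfl] at e2; linarith
    · rw [Bool.not_true, if_neg Bool.false_ne_true, if_pos rfl] at e2; linarith
  rw [rt_eq] at h3
  cases d
  · rw [if_neg Bool.false_ne_true, ml_eq] at h1 h1'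
    have : (22 * 10 ^ k) * z.im = 0 := by nlinarith
    have h0 : z.im = 0 := by
      rcases mul_eq_zero.1 this with h | h
      · exact absurd h (by positivity)
      · exact h
    rw [h0] at h1
    nlinarith
  · rw [if_pos rfl, el_eq] at h1 h1'
    have : (18 * 10 ^ k) * z.im = 0 := by nlinarith
    have h0 : z.im = 0 := by
      rcases mul_eq_zero.1 this with h | h
      · exact absurd h (by positivity)
      · exact h
    rw [h0] at h1
    have hnf : z ∉ frontier (M r) := by
      intro hf
      rcases frontier_block hk hf (by rw [rt_eq]; nlinarith) (by rw [rt_eq]; linarith) with g | g | ⟨g1, g2⟩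
      · rw [ml_eq, h0] at g; nlinarith
      · rw [mu_eq, h0] at g; nlinarith
      · subst g1
        have := g2.1
        rw [pow_zero] at h1
        linarith
    have := (face_inj hnf h).1
    cases s <;> simp at this

/-- The arcs of a word. -/
noncomputable def ar (r : ℕ) (w : List Bool) (j : ℕ) : Set (ℂ × Bool) := arc (M r) (pth w) (fcs w) j

lemma ar_succ (d : Bool) {w : List Bool} {j : ℕ} (h : j < 2 * w.length + 1) : ar r (d :: w) (j + 1) = ar r w j := by
  unfold ar arc
  rw [fcs_succ d h, pth_succ d (by omega), pth_succ d (by omega : j + 1 < 2 * w.length + 2)]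

lemma ar_zero (d : Bool) (w : List Bool) : ar r (d :: w) 0 = strand r d (10 ^ w.length) (sg (d :: w)) := by
  unfold ar arc
  rw [pth_succ d (by omega), strand_eq, pth_zero, pth_zero]
  have e : xor (sg (d :: w)) d = sg w := by simp only [sg]; cases d <;> cases sg w <;> rfl
  rw [e]
  rfl

lemma ar_last (d : Bool) (w : List Bool) :
    ar r (d :: w) (2 * w.length + 2) = strand r d (10 ^ w.length) (!sg (d :: w)) := by
  unfold ar arc
  have e1 : pth (d :: w) (2 * w.length + 2) = vt w.length (!sg w) := by
    rw [← pth_last w]
    exact pth_succ d (by omega)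
  have e2 : pth (d :: w) (2 * w.length + 2 + 1) = vt (w.length + 1) (!sg (d :: w)) := by
    simp only [pth, lt_irrefl, if_false]
  have e3 : fcs (d :: w) (2 * w.length + 2) = !sg (d :: w) := by
    have : ¬ (2 * w.length + 1 < 2 * w.length + 1) := lt_irrefl _
    simp only [fcs, this, if_false]
  rw [e1, e2, e3, strand_eq]
  have e : xor (!sg (d :: w)) d = !sg w := by simp only [sg]; cases d <;> cases sg w <;> rfl
  rw [e, segment_symm]

lemma A_nil_segment : A [] = segment ℝ (vt 0 true) (vt 0 false) := by
  ext z
  rw [segment_eq_image_lineMap]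
  constructor
  · rintro ⟨h1, h2, h3⟩
    refine ⟨(z.im + 1) / 2, ⟨by linarith, by linarith⟩, ?_⟩
    apply Complex.ext
    · simp [AffineMap.lineMap_apply, h1, vt_re]
    · simp only [AffineMap.lineMap_apply, vsub_eq_sub, vadd_eq_add, Complex.add_im, Complex.smul_im,
        Complex.sub_im, smul_eq_mul, vt_im, pow_zero, if_true, Bool.false_eq_true, if_false]
      ring
  · rintro ⟨θ, ⟨h0, h1⟩, rfl⟩
    refine ⟨?_, ?_, ?_⟩
    · simp [AffineMap.lineMap_apply, vt_re]
    · simp only [AffineMap.lineMap_apply, vsub_eq_sub, vadd_eq_add, Complex.add_im, Complex.smul_im,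
        Complex.sub_im, smul_eq_mul, vt_im, pow_zero, if_true, Bool.false_eq_true, if_false]
      linarith
    · simp only [AffineMap.lineMap_apply, vsub_eq_sub, vadd_eq_add, Complex.add_im, Complex.smul_im,
        Complex.sub_im, smul_eq_mul, vt_im, pow_zero, if_true, Bool.false_eq_true, if_false]
      linarith

lemma A_nil_frontier (hr : 1 ≤ r) {z : ℂ} (hz : z ∈ A []) : z ∈ frontier (M r) := by
  have hM : z ∈ M r := by
    have h : A [] ⊆ M r := by
      rw [A_nil_segment]
      exact (convex_iff_segment_subset.1 (M_convex r)) (subset_convexHull ℝ _ (vt_mem_verts (by omega) _))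
        (subset_convexHull ℝ _ (vt_mem_verts (by omega) _))
    exact h hz
  rw [(M_isClosed r).frontier_eq]
  refine ⟨hM, fun hi => ?_⟩
  have := af_lt_of_interior (S := M r) (Or.inl one_ne_zero) (fun x hx => M_rt hx) hi
  change rt 1 z < 0 at this
  rw [rt_eq, hz.1] at this
  norm_num at this

lemma A_nil_conj {z : ℂ} (hz : z ∈ A []) : (starRingEnd ℂ) z ∈ A [] := by
  obtain ⟨h1, h2, h3⟩ := hz
  exact ⟨by rw [Complex.conj_re]; exact h1, by rw [Complex.conj_im]; linarith, by rw [Complex.conj_im]; linarith⟩

lemma ar_nil (hr : 1 ≤ r) : ar r [] 0 = Gam r [] := by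
  have e : ar r [] 0 = sheet (M r) true '' A [] := by
    rw [A_nil_segment]
    rfl
  rw [e]
  ext q
  constructor
  · rintro ⟨z, hz, rfl⟩
    exact ⟨z, hz, true, (face_true z).symm⟩
  · rintro ⟨z, hz, s, rfl⟩
    cases s
    · refine ⟨(starRingEnd ℂ) z, A_nil_conj hz, ?_⟩
      have := A_nil_frontier hr (A_nil_conj hz)
      rw [face_false]
      simp only [sheet, this, if_true]
    · exact ⟨z, hz, (face_true z).symm⟩

/-- The cut of the path is the cut of the word. -/
lemma cut_eq (hr : 1 ≤ r) (w : List Bool) : {q | ∃ j, j < 2 * w.length + 1 ∧ q ∈ ar r w j} = Gam r w := by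
  induction w with
  | nil =>
    ext q
    constructor
    · rintro ⟨j, hj, hq⟩
      have hj0 : j = 0 := by simpa using hj
      subst hj0
      rw [ar_nil hr] at hq
      exact hq
    · intro hq
      exact ⟨0, by simp, by rw [ar_nil hr]; exact hq⟩
  | cons d w ih =>
    ext q
    have hs : ∀ s, s = sg (d :: w) ∨ s = !sg (d :: w) := by
      intro s
      cases s <;> cases sg (d :: w) <;> simp
    constructor
    · rintro ⟨j, hj, hq⟩
      rw [List.length_cons] at hj
      cases j with
      | zero =>
        rw [ar_zero] at hq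
        right
        obtain ⟨z, hz, hq⟩ := hq
        exact ⟨z, hz, _, hq⟩
      | succ j =>
        rcases Nat.lt_or_ge j (2 * w.length + 1) with h | h
        · rw [ar_succ d h] at hq
          left
          rw [← ih]
          exact ⟨j, h, hq⟩
        · have hj' : j + 1 = 2 * w.length + 2 := by omega
          rw [hj', ar_last] at hq
          right
          obtain ⟨z, hz, hq⟩ := hq
          exact ⟨z, hz, _, hq⟩
    · rintro (hq | ⟨z, hz, s, hq⟩)
      · rw [← ih] at hq
        obtain ⟨j, hj, hq⟩ := hq
        refine ⟨j + 1, by rw [List.length_cons]; omega, ?_⟩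
        rw [ar_succ d hj]
        exact hq
      · rcases hs s with h | h
        · refine ⟨0, by omega, ?_⟩
          rw [ar_zero, ← h]
          exact ⟨z, hz, hq⟩
        · refine ⟨2 * w.length + 2, by rw [List.length_cons]; omega, ?_⟩
          rw [ar_last, ← h]
          exact ⟨z, hz, hq⟩

lemma ar_sub_Gam (hr : 1 ≤ r) {w : List Bool} {j : ℕ} (hj : j < 2 * w.length + 1) {q : ℂ × Bool}
    (hq : q ∈ ar r w j) : q ∈ Gam r w := by
  rw [← cut_eq hr]; exact ⟨j, hj, hq⟩

lemma ar_col (hr : 1 ≤ r) {w : List Bool} (hw : w.length ≤ r) {j : ℕ} (hj : j < 2 * w.length + 1) {q : ℂ × Bool}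
    (hq : q ∈ ar r w j) (h : q.1.re ≤ -(10 ^ w.length) ^ 2) :
    w.length = 0 ∨ (j = 0 ∧ q = sheet (M r) true (pth w 0)) ∨
      (j = 2 * w.length ∧ q = sheet (M r) true (pth w (2 * w.length + 1))) := by
  cases w with
  | nil => left; rfl
  | cons d w =>
    right
    rw [List.length_cons] at hj hw
    have ht := pow10_pos w.length
    cases j with
    | zero =>
      left
      rw [ar_zero] at hq
      refine ⟨rfl, ?_⟩
      rw [pth_zero]
      exact strand_left hw hq h
    | succ j =>
      rcases Nat.lt_or_ge j (2 * w.length + 1) with h' | h'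
      · exfalso
        rw [ar_succ d h'] at hq
        have := Gam_re w (ar_sub_Gam hr h' hq)
        rw [List.length_cons, ← pow10_succ'] at h
        nlinarith
      · have hj' : j + 1 = 2 * w.length + 2 := by omega
        rw [hj', ar_last] at hq
        right
        refine ⟨by rw [List.length_cons]; omega, ?_⟩
        rw [pth_last]
        exact strand_left hw hq h

lemma vert_left (hr : 1 ≤ r) {w : List Bool} (hw : w.length ≤ r) {j : ℕ} (hj : j < 2 * w.length + 1) :
    sheet (M r) true (pth w j) ∈ ar r w j := by
  obtain ⟨i, s, hi, h⟩ := verts_cases ((pth_bij w).1 (by rw [mem_Iio]; omega : j ∈ Set.Iio (2 * w.length + 2)))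
  refine ⟨pth w j, left_mem_segment ℝ _ _, ?_⟩
  rw [h, sheet_vt (by omega)]

lemma vert_right (hr : 1 ≤ r) {w : List Bool} (hw : w.length ≤ r) {j : ℕ} (hj : j < 2 * w.length + 1) :
    sheet (M r) true (pth w (j + 1)) ∈ ar r w j := by
  obtain ⟨i, s, hi, h⟩ := verts_cases ((pth_bij w).1 (by rw [mem_Iio]; omega : j + 1 ∈ Set.Iio (2 * w.length + 2)))
  refine ⟨pth w (j + 1), right_mem_segment ℝ _ _, ?_⟩
  rw [h, sheet_vt (by omega)]

lemma simple_path (hr : 1 ≤ r) (w : List Bool) (hw : w.length ≤ r) :
    (∀ j, j + 2 < 2 * w.length + 2 → ar r w j ∩ ar r w (j + 1) = {sheet (M r) true (pth w (j + 1))}) ∧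
    (∀ j l, j + 1 < l → l + 1 < 2 * w.length + 2 → ar r w j ∩ ar r w l = ∅) := by
  induction w with
  | nil =>
    refine ⟨fun j hj => ?_, fun j l h1 h2 => ?_⟩
    · simp at hj
    · simp at h2; omega
  | cons d w ih =>
    obtain ⟨ih1, ih2⟩ := ih (by rw [List.length_cons] at hw; omega)
    have hw' : w.length + 1 ≤ r := by rw [List.length_cons] at hw; exact hw
    have hsg : xor (sg (d :: w)) d = sg w := by simp only [sg]; cases d <;> cases sg w <;> rfl
    have hsg' : xor (!sg (d :: w)) d = !sg w := by simp only [sg]; cases d <;> cases sg w <;> rfl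
    -- the first strand meets the inner part only in its end point
    have hfirst : ∀ q, q ∈ ar r (d :: w) 0 → ∀ l, l < 2 * w.length + 1 → q ∈ ar r w l →
        q = sheet (M r) true (pth w 0) ∧ l = 0 := by
      intro q hq l hl hq'
      rw [ar_zero] at hq
      have h1 := Gam_re w (ar_sub_Gam hr hl hq')
      have h2 := strand_right hw' hq h1
      rw [hsg, ← pth_zero] at h2
      refine ⟨h2, ?_⟩
      have h3 : q.1.re ≤ -(10 ^ w.length) ^ 2 := by
        rw [h2, pth_zero]
        change (vt w.length (sg w)).re ≤ _
        rw [vt_re]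
      rcases ar_col hr (by omega) hl hq' h3 with h | h | h
      · omega
      · exact h.1
      · exfalso
        have h4 := h.2
        rw [h2, pth_zero, pth_last] at h4
        exact absurd (sheet_vt_inj h4).2 (by simp)
    have hlast : ∀ q, q ∈ ar r (d :: w) (2 * w.length + 2) → ∀ l, l < 2 * w.length + 1 → q ∈ ar r w l →
        q = sheet (M r) true (pth w (2 * w.length + 1)) ∧ l = 2 * w.length := by
      intro q hq l hl hq'
      rw [ar_last] at hq
      have h1 := Gam_re w (ar_sub_Gam hr hl hq')
      have h2 := strand_right hw' hq h1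
      rw [hsg', ← pth_last] at h2
      refine ⟨h2, ?_⟩
      have h3 : q.1.re ≤ -(10 ^ w.length) ^ 2 := by
        rw [h2, pth_last]
        change (vt w.length (!sg w)).re ≤ _
        rw [vt_re]
      rcases ar_col hr (by omega) hl hq' h3 with h | h | h
      · omega
      · exfalso
        have h4 := h.2
        rw [h2, pth_zero, pth_last] at h4
        exact absurd (sheet_vt_inj h4).2 (by simp)
      · exact h.1
    rw [List.length_cons]
    refine ⟨fun j hj => ?_, fun j l h1 h2 => ?_⟩
    · apply subset_antisymm
      · rintro q ⟨hq1, hq2⟩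
        rw [mem_singleton_iff]
        cases j with
        | zero =>
          rw [zero_add, ar_succ d (by omega)] at hq2
          rw [zero_add, pth_succ d (by omega)]
          exact (hfirst q hq1 0 (by omega) hq2).1
        | succ j =>
          rw [ar_succ d (by omega)] at hq1
          rcases Nat.lt_or_ge (j + 1) (2 * w.length + 1) with h | h
          · rw [ar_succ d h] at hq2
            rw [pth_succ d (by omega)]
            have := ih1 j (by omega)
            have h5 : q ∈ ar r w j ∩ ar r w (j + 1) := ⟨hq1, hq2⟩
            rw [this] at h5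
            exact h5
          · have hj' : j + 1 + 1 = 2 * w.length + 2 := by omega
            rw [hj'] at hq2
            rw [pth_succ d (by omega)]
            have h5 := (hlast q hq2 j (by omega) hq1).1
            have h6 : j + 1 = 2 * w.length + 1 := by omega
            rw [h6]
            exact h5
      · rintro q hq
        rw [mem_singleton_iff] at hq
        subst hq
        exact ⟨vert_right hr hw (by rw [List.length_cons]; omega), vert_left hr hw (by rw [List.length_cons]; omega)⟩
    · apply Set.eq_empty_iff_forall_notMem.2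
      rintro q ⟨hq1, hq2⟩
      cases l with
      | zero => omega
      | succ l =>
        rcases Nat.lt_or_ge l (2 * w.length + 1) with h | h
        · rw [ar_succ d h] at hq2
          cases j with
          | zero =>
            have := (hfirst q hq1 l h hq2).2
            omega
          | succ j =>
            rw [ar_succ d (by omega)] at hq1
            have h5 : q ∈ ar r w j ∩ ar r w l := ⟨hq1, hq2⟩
            rw [ih2 j l (by omega) (by omega)] at h5
            exact h5
        · have hl' : l + 1 = 2 * w.length + 2 := by omega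
          rw [hl'] at hq2
          cases j with
          | zero =>
            rw [ar_zero] at hq1
            rw [ar_last] at hq2
            exact strand_disj hw' hq1 hq2
          | succ j =>
            rw [ar_succ d (by omega)] at hq1
            have := (hlast q hq2 j (by omega) hq1).2
            omega

theorem isCutPath (hr : 1 ≤ r) {w : List Bool} (hw : w.length = r) :
    IsCutPath (M r) (2 * r + 2) (pth w) (fcs w) := by
  obtain ⟨h1, h2⟩ := simple_path hr w hw.le
  subst hw
  refine ⟨?_, h1, h2⟩
  rw [extreme_M]
  exact pth_bij w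

theorem cut_Gam (hr : 1 ≤ r) {w : List Bool} (hw : w.length = r) :
    cut (M r) (2 * r + 2) (pth w) (fcs w) = Gam r w := by
  rw [← cut_eq hr w, hw]
  ext q
  constructor
  · rintro ⟨j, hj, hq⟩; exact ⟨j, by omega, hq⟩
  · rintro ⟨j, hj, hq⟩; exact ⟨j, by omega, hq⟩

/-- The set of arcs as unordered pairs. -/
def EE : List Bool → Set (Sym2 ℂ)
  | [] => {e | e = s(vt 0 true, vt 0 false)}
  | d :: w => {e | e ∈ EE w ∨ ∃ s, e = s(vt (w.length + 1) s, vt w.length (xor s d))}

lemma combTree_eq (w : List Bool) : combTree (2 * w.length + 2) (pth w) = EE w := by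
  induction w with
  | nil =>
    ext e
    constructor
    · rintro ⟨j, hj, he⟩
      have hj0 : j = 0 := by simp at hj; omega
      subst hj0
      simpa [pth, EE] using he
    · intro he
      exact ⟨0, by simp, by simpa [pth, EE] using he⟩
  | cons d w ih =>
    have hsg : xor (sg (d :: w)) d = sg w := by simp only [sg]; cases d <;> cases sg w <;> rfl
    have hsg' : xor (!sg (d :: w)) d = !sg w := by simp only [sg]; cases d <;> cases sg w <;> rfl
    have e1 : pth (d :: w) (2 * w.length + 2) = vt w.length (!sg w) := by
      rw [← pth_last w]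
      exact pth_succ d (by omega)
    have e2 : pth (d :: w) (2 * w.length + 2 + 1) = vt (w.length + 1) (!sg (d :: w)) := by
      simp only [pth, lt_irrefl, if_false]
    have e3 : pth (d :: w) 0 = vt (w.length + 1) (sg (d :: w)) := rfl
    have e4 : pth (d :: w) 1 = vt w.length (sg w) := by
      rw [← pth_zero w]
      exact pth_succ d (by omega)
    ext e
    rw [List.length_cons]
    constructor
    · rintro ⟨j, hj, he⟩
      cases j with
      | zero =>
        right
        refine ⟨sg (d :: w), ?_⟩
        rw [hsg, he, zero_add, e3, e4]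
      | succ j =>
        rcases Nat.lt_or_ge j (2 * w.length + 1) with h | h
        · left
          rw [← ih]
          refine ⟨j, by omega, ?_⟩
          rw [he, pth_succ d (by omega), pth_succ d (by omega : j + 1 < 2 * w.length + 2)]
        · right
          have hj' : j + 1 = 2 * w.length + 2 := by omega
          refine ⟨!sg (d :: w), ?_⟩
          rw [hsg', he, hj', e1, e2, Sym2.eq_swap]
    · rintro (he | ⟨s, he⟩)
      · rw [← ih] at he
        obtain ⟨j, hj, he⟩ := he
        refine ⟨j + 1, by omega, ?_⟩
        rw [he, pth_succ d (by omega), pth_succ d (by omega : j + 1 < 2 * w.length + 2)]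
      · by_cases hs : s = sg (d :: w)
        · refine ⟨0, by omega, ?_⟩
          rw [he, hs, hsg, zero_add, e3, e4]
        · have hs' : s = !sg (d :: w) := by
            cases s <;> cases hsg : sg (d :: w) <;> simp_all
          refine ⟨2 * w.length + 2, by omega, ?_⟩
          rw [he, hs', hsg', e1, e2, Sym2.eq_swap]

lemma EE_mem {w : List Bool} {e : Sym2 ℂ} (he : e ∈ EE w) {z : ℂ} (hz : z ∈ e) : z ∈ verts w.length := by
  induction w with
  | nil =>
    have he' : e = s(vt 0 true, vt 0 false) := he
    rw [he', Sym2.mem_iff] at hz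
    rcases hz with rfl | rfl
    · exact vt_mem_verts le_rfl _
    · exact vt_mem_verts le_rfl _
  | cons d w ih =>
    rw [List.length_cons]
    rcases he with he | ⟨s, he⟩
    · obtain ⟨i, hi, h⟩ := ih he
      exact ⟨i, by omega, h⟩
    · rw [he, Sym2.mem_iff] at hz
      rcases hz with rfl | rfl
      · exact vt_mem_verts le_rfl _
      · exact vt_mem_verts (by omega) _

lemma EE_inj {w w' : List Bool} (hl : w.length = w'.length) (h : EE w = EE w') : w = w' := by
  induction w generalizing w' with
  | nil =>
    cases w' with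
    | nil => rfl
    | cons d w' => simp at hl
  | cons d w ih =>
    cases w' with
    | nil => simp at hl
    | cons d' w' =>
      have hl' : w.length = w'.length := by simpa using hl
      have hnot : ∀ s, vt (w.length + 1) s ∉ verts w.length := by
        intro s h
        obtain ⟨i, s', hi, h'⟩ := verts_cases h
        have := (vt_inj h').1
        omega
      have hd : d = d' := by
        have h1 : s(vt (w.length + 1) true, vt w.length (xor true d)) ∈ EE (d :: w) := Or.inr ⟨true, rfl⟩
        rw [h] at h1
        rcases h1 with h1 | ⟨s, h1⟩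
        · have := EE_mem h1 (Sym2.mem_mk_left _ _)
          rw [← hl'] at this
          exact absurd this (hnot _)
        · rw [← hl', Sym2.eq_iff] at h1
          rcases h1 with ⟨h1, h2⟩ | ⟨h1, h2⟩
          · have e1 := (vt_inj h1).2
            have e2 := (vt_inj h2).2
            rw [← e1] at e2
            cases d <;> cases d' <;> simp_all
          · have := (vt_inj h1).1
            omega
      subst hd
      congr 1
      apply ih hl'
      have hsub : ∀ {u v : List Bool}, u.length = w.length → v.length = w.length →
          EE (d :: u) = EE (d :: v) → EE u ⊆ EE v := by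
        intro u v hu hv huv e he
        have h1 : e ∈ EE (d :: u) := Or.inl he
        rw [huv] at h1
        rcases h1 with h1 | ⟨s, h1⟩
        · exact h1
        · exfalso
          have h2 := EE_mem he (z := vt (v.length + 1) s) (by rw [h1]; exact Sym2.mem_mk_left _ _)
          rw [hu, hv] at h2
          exact hnot _ h2
      exact subset_antisymm (hsub rfl hl'.symm h) (hsub hl'.symm rfl h.symm)

end

end Pool.Agent.P086e3e
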