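import Pool.Agent.Lib.P086e3e.Geo

set_option autoImplicit false

open Complex Set

namespace Pool.Agent.P086e3e

/-- The vertices of the polygon. -/
def verts (r : ℕ) : Set ℂ := {z | ∃ i, i ≤ r ∧ (z = pa (10 ^ i) ∨ z = pb (10 ^ i))}

/-- The polygon. -/
def M (r : ℕ) : Set ℂ := convexHull ℝ (verts r)

lemma verts_finite (r : ℕ) : (verts r).Finite := by
  have : verts r ⊆ ((fun i : ℕ => pa (10 ^ i)) '' Set.Iic r) ∪ ((fun i : ℕ => pb (10 ^ i)) '' Set.Iic r) := by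
    rintro z ⟨i, hi, h | h⟩
    · exact Or.inl ⟨i, hi, h.symm⟩
    · exact Or.inr ⟨i, hi, h.symm⟩
  exact (((Set.finite_Iic r).image _).union ((Set.finite_Iic r).image _)).subset this

lemma M_isCompact (r : ℕ) : IsCompact (M r) := (verts_finite r).isCompact_convexHull ℝ

lemma M_isClosed (r : ℕ) : IsClosed (M r) := (M_isCompact r).isClosed

lemma M_convex (r : ℕ) : Convex ℝ (M r) := convex_convexHull ℝ _

lemma pa_mem {r i : ℕ} (h : i ≤ r) : pa (10 ^ i) ∈ M r := subset_convexHull ℝ _ ⟨i, h, Or.inl rfl⟩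
lemma pb_mem {r i : ℕ} (h : i ≤ r) : pb (10 ^ i) ∈ M r := subset_convexHull ℝ _ ⟨i, h, Or.inr rfl⟩

lemma M_af {r : ℕ} {α β γ : ℝ} (h : ∀ i ≤ r, af α β γ (pa (10 ^ i)) ≤ 0 ∧ af α β γ (pb (10 ^ i)) ≤ 0) {z : ℂ}
    (hz : z ∈ M r) : af α β γ z ≤ 0 := by
  have : M r ⊆ {z | af α β γ z ≤ 0} := by
    apply convexHull_min _ (convex_af_le α β γ)
    rintro z ⟨i, hi, rfl | rfl⟩
    · exact (h i hi).1
    · exact (h i hi).2
  exact this hz

lemma pow10_pos (i : ℕ) : (0:ℝ) < 10 ^ i := by positivity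

lemma one_le_pow10 (i : ℕ) : (1:ℝ) ≤ 10 ^ i := one_le_pow₀ (by norm_num)

lemma pow10_mono {i j : ℕ} (h : i ≤ j) : (10:ℝ) ^ i ≤ 10 ^ j := pow_le_pow_right₀ (by norm_num) h

lemma M_tu {r : ℕ} (Y : ℝ) {z : ℂ} (hz : z ∈ M r) : tu Y z ≤ 0 := by
  apply M_af _ hz
  intro i _
  constructor
  · simp only [af, pa]; nlinarith [sq_nonneg ((10:ℝ) ^ i + Y)]
  · simp only [af, pb]; nlinarith [sq_nonneg ((10:ℝ) ^ i - Y)]

lemma M_tl {r : ℕ} (Y : ℝ) {z : ℂ} (hz : z ∈ M r) : tl Y z ≤ 0 := by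
  apply M_af _ hz
  intro i _
  constructor
  · simp only [af, pa]; nlinarith [sq_nonneg ((10:ℝ) ^ i - Y)]
  · simp only [af, pb]; nlinarith [sq_nonneg ((10:ℝ) ^ i + Y)]

lemma M_lf {r : ℕ} {z : ℂ} (hz : z ∈ M r) : lf (10 ^ r) z ≤ 0 := by
  apply M_af _ hz
  intro i hi
  have h1 := pow10_mono hi
  have h2 := pow10_pos i
  constructor
  · simp only [af, pa]; nlinarith
  · simp only [af, pb]; nlinarith

lemma M_rt {r : ℕ} {z : ℂ} (hz : z ∈ M r) : rt 1 z ≤ 0 := by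
  apply M_af _ hz
  intro i _
  have h1 := one_le_pow10 i
  constructor
  · simp only [af, pa]; nlinarith
  · simp only [af, pb]; nlinarith

lemma pow10_sep (i j : ℕ) : 0 ≤ ((10:ℝ) ^ i - 10 ^ j) * (10 ^ i - 10 * 10 ^ j) := by
  rcases Nat.lt_or_ge j i with h | h
  · have h1 : (10:ℝ) ^ (j + 1) ≤ 10 ^ i := pow10_mono h
    rw [pow_succ] at h1
    have h2 := pow10_pos j
    apply mul_nonneg <;> linarith
  · have h1 : (10:ℝ) ^ i ≤ 10 ^ j := pow10_mono h
    have h2 := pow10_pos j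
    apply mul_nonneg_of_nonpos_of_nonpos <;> linarith

lemma M_mu {r : ℕ} (j : ℕ) {z : ℂ} (hz : z ∈ M r) : mu (10 ^ j) z ≤ 0 := by
  apply M_af _ hz
  intro i _
  have h1 := pow10_sep i j
  have h2 := pow10_pos j
  have h3 := pow10_pos i
  have h4 := mul_pos h2 h3
  constructor
  · simp only [af, pa]; nlinarith
  · simp only [af, pb]; nlinarith

lemma M_ml {r : ℕ} (j : ℕ) {z : ℂ} (hz : z ∈ M r) : ml (10 ^ j) z ≤ 0 := by
  apply M_af _ hz
  intro i _
  have h1 := pow10_sep i j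
  have h2 := pow10_pos j
  have h3 := pow10_pos i
  have h4 := mul_pos h2 h3
  constructor
  · simp only [af, pa]; nlinarith
  · simp only [af, pb]; nlinarith

/-- Conjugation as a homeomorphism. -/
noncomputable def cj : ℂ ≃ₜ ℂ := Complex.conjLIE.toHomeomorph

lemma cj_apply (z : ℂ) : cj z = (starRingEnd ℂ) z := rfl

lemma conj_mem_M {r : ℕ} {z : ℂ} (hz : z ∈ M r) : (starRingEnd ℂ) z ∈ M r := by
  have h1 : Convex ℝ {z : ℂ | (starRingEnd ℂ) z ∈ M r} := by
    have := (M_convex r).linear_preimage (Complex.conjLIE.toLinearEquiv : ℂ →ₗ[ℝ] ℂ)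
    exact this
  have : M r ⊆ {z : ℂ | (starRingEnd ℂ) z ∈ M r} := by
    apply convexHull_min _ h1
    rintro z ⟨i, hi, rfl | rfl⟩
    · have : (starRingEnd ℂ) (pa (10 ^ i)) = pb (10 ^ i) := by
        apply Complex.ext <;> simp [pa, pb]
      simp only [mem_ofPred_eq, this]
      exact pb_mem hi
    · have : (starRingEnd ℂ) (pb (10 ^ i)) = pa (10 ^ i) := by
        apply Complex.ext <;> simp [pa, pb]
      simp only [mem_ofPred_eq, this]
      exact pa_mem hi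
  exact this hz

lemma cj_preimage_M (r : ℕ) : cj ⁻¹' M r = M r := by
  ext z
  simp only [mem_preimage, cj_apply]
  constructor
  · intro h
    have := conj_mem_M h
    rwa [Complex.conj_conj] at this
  · exact conj_mem_M

lemma conj_frontier {r : ℕ} {z : ℂ} : (starRingEnd ℂ) z ∈ frontier (M r) ↔ z ∈ frontier (M r) := by
  have h1 := cj.preimage_frontier (M r)
  rw [cj_preimage_M] at h1
  rw [← cj_apply, ← mem_preimage, h1]

lemma conj_interior {r : ℕ} {z : ℂ} : (starRingEnd ℂ) z ∈ interior (M r) ↔ z ∈ interior (M r) := by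
  have h1 := cj.preimage_interior (M r)
  rw [cj_preimage_M] at h1
  rw [← cj_apply, ← mem_preimage, h1]

lemma mem_of_bary {S : Set ℂ} (hS : Convex ℝ S) {p q c : ℂ} (hp : p ∈ S) (hq : q ∈ S) (hc : c ∈ S) {α β γ : ℝ}
    (hα : 0 ≤ α) (hβ : 0 ≤ β) (hγ : 0 ≤ γ) (h : α + β + γ = 1) : α • p + β • q + γ • c ∈ S := by
  have h1 := hS.sum_mem (t := Finset.univ) (w := ![α, β, γ]) (z := ![p, q, c])
    (by intro i _; fin_cases i <;> simp [hα, hβ, hγ]) (by simp [Fin.sum_univ_three, h])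
    (by intro i _; fin_cases i <;> simp [hp, hq, hc])
  simpa [Fin.sum_univ_three] using h1

lemma convex_U (t : ℝ) : Convex ℝ (U t) :=
  (convex_af_le _ _ _).inter ((convex_af_le _ _ _).inter (convex_af_le _ _ _))

lemma convex_V (t : ℝ) : Convex ℝ (V t) :=
  (convex_af_le _ _ _).inter ((convex_af_ge _ _ _).inter (convex_af_le _ _ _))

lemma isClosed_U (t : ℝ) : IsClosed (U t) :=
  (isClosed_af_le _ _ _).inter ((isClosed_af_le _ _ _).inter (isClosed_af_le _ _ _))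

lemma isClosed_V (t : ℝ) : IsClosed (V t) :=
  (isClosed_af_le _ _ _).inter ((isClosed_af_ge _ _ _).inter (isClosed_af_le _ _ _))

lemma U_sub_of {t : ℝ} (ht : 0 < t) {S : Set ℂ} (hS : Convex ℝ S) (h1 : pa (10 * t) ∈ S) (h2 : pb t ∈ S)
    (h3 : pb (10 * t) ∈ S) : U t ⊆ S := by
  intro z hz
  obtain ⟨z1, z2, z3⟩ := hz
  have ht2 : 0 < t ^ 2 := by positivity
  have e : z = (-mu t z / (220 * t ^ 2)) • pa (10 * t) + (-lf (10 * t) z / (99 * t ^ 2)) • pb t +
      (-el t z / (180 * t ^ 2)) • pb (10 * t) := by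
    apply Complex.ext
    · simp only [Complex.add_re, Complex.smul_re, smul_eq_mul, pa, pb, mu_eq, lf_eq, el_eq]
      field_simp
      ring
    · simp only [Complex.add_im, Complex.smul_im, smul_eq_mul, pa, pb, mu_eq, lf_eq, el_eq]
      field_simp
      ring
  rw [e]
  apply mem_of_bary hS h1 h2 h3
  · exact div_nonneg (by linarith) (by positivity)
  · exact div_nonneg (by linarith) (by positivity)
  · exact div_nonneg (by linarith) (by positivity)
  · simp only [mu_eq, lf_eq, el_eq]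
    field_simp
    ring

lemma V_sub_of {t : ℝ} (ht : 0 < t) {S : Set ℂ} (hS : Convex ℝ S) (h1 : pa (10 * t) ∈ S) (h2 : pa t ∈ S)
    (h3 : pb t ∈ S) : V t ⊆ S := by
  intro z hz
  obtain ⟨z1, z2, z3⟩ := hz
  have ht2 : 0 < t ^ 2 := by positivity
  have e : z = (-rt t z / (99 * t ^ 2)) • pa (10 * t) + (el t z / (18 * t ^ 2)) • pa t +
      (-ml t z / (22 * t ^ 2)) • pb t := by
    apply Complex.ext
    · simp only [Complex.add_re, Complex.smul_re, smul_eq_mul, pa, pb, ml_eq, rt_eq, el_eq]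
      field_simp
      ring
    · simp only [Complex.add_im, Complex.smul_im, smul_eq_mul, pa, pb, ml_eq, rt_eq, el_eq]
      field_simp
      ring
  rw [e]
  apply mem_of_bary hS h1 h2 h3
  · exact div_nonneg (by linarith) (by positivity)
  · exact div_nonneg (by linarith) (by positivity)
  · exact div_nonneg (by linarith) (by positivity)
  · simp only [ml_eq, rt_eq, el_eq]
    field_simp
    ring

lemma U_vert {t : ℝ} (ht : 0 < t) : pa (10 * t) ∈ U t ∧ pb t ∈ U t ∧ pb (10 * t) ∈ U t := by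
  refine ⟨⟨?_, ?_, ?_⟩, ⟨?_, ?_, ?_⟩, ⟨?_, ?_, ?_⟩⟩ <;>
  · simp only [lf_eq, mu_eq, el_eq, pa, pb]
    nlinarith

lemma V_vert {t : ℝ} (ht : 0 < t) : pa (10 * t) ∈ V t ∧ pa t ∈ V t ∧ pb t ∈ V t := by
  refine ⟨⟨?_, ?_, ?_⟩, ⟨?_, ?_, ?_⟩, ⟨?_, ?_, ?_⟩⟩ <;>
  · simp only [rt_eq, ml_eq, el_eq, pa, pb]
    nlinarith

lemma U_hull {t : ℝ} (ht : 0 < t) : U t = convexHull ℝ {pa (10 * t), pb t, pb (10 * t)} := by
  apply subset_antisymm
  · apply U_sub_of ht (convex_convexHull ℝ _) <;> apply subset_convexHull <;> simp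
  · apply convexHull_min _ (convex_U t)
    obtain ⟨h1, h2, h3⟩ := U_vert ht
    rintro z (rfl | rfl | rfl) <;> assumption

lemma V_hull {t : ℝ} (ht : 0 < t) : V t = convexHull ℝ {pa (10 * t), pa t, pb t} := by
  apply subset_antisymm
  · apply V_sub_of ht (convex_convexHull ℝ _) <;> apply subset_convexHull <;> simp
  · apply convexHull_min _ (convex_V t)
    obtain ⟨h1, h2, h3⟩ := V_vert ht
    rintro z (rfl | rfl | rfl) <;> assumption

lemma pow10_succ' (j : ℕ) : (10:ℝ) * 10 ^ j = 10 ^ (j + 1) := by rw [pow_succ]; ring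

lemma U_sub_M {r j : ℕ} (h : j + 1 ≤ r) : U (10 ^ j) ⊆ M r := by
  apply U_sub_of (pow10_pos j) (M_convex r)
  · rw [pow10_succ']; exact pa_mem h
  · exact pb_mem (by omega)
  · rw [pow10_succ']; exact pb_mem h

lemma V_sub_M {r j : ℕ} (h : j + 1 ≤ r) : V (10 ^ j) ⊆ M r := by
  apply V_sub_of (pow10_pos j) (M_convex r)
  · rw [pow10_succ']; exact pa_mem h
  · exact pa_mem (by omega)
  · exact pb_mem (by omega)

/-- The points of the polygon left of the column `Y`. -/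
def Ml (r : ℕ) (Y : ℝ) : Set ℂ := {z | z ∈ M r ∧ rt Y z ≤ 0}

lemma isClosed_Ml (r : ℕ) (Y : ℝ) : IsClosed (Ml r Y) := (M_isClosed r).inter (isClosed_af_le _ _ _)

end Pool.Agent.P086e3e
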