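import Pool.Agent.Lib.P086e3e.Dom

set_option autoImplicit false

open Complex Set Topology

namespace Pool.Agent.P086e3e

/-- Local isometry into the doubly covered polygon at a point. -/
def LocIso (r : ℕ) (f : ℂ → ℂ × Bool) (z : ℂ) : Prop :=
  ∃ ε > 0, ∀ x ∈ Metric.ball z ε, ∀ y ∈ Metric.ball z ε, dblDist (M r) (f x) (f y) = dist x y

/-- The cut pieces of a letter. -/
def cseg (d : Bool) (t : ℝ) : Set ℂ :=
  {z | (if d then el t z else ml t z) = 0 ∧ lf (10 * t) z ≤ 0 ∧ rt t z ≤ 0}

/-- The cut in the part of the surface right of the left column of the word. -/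
def Gam (r : ℕ) : List Bool → Set (ℂ × Bool)
  | [] => {q | ∃ z ∈ A [], ∃ s, q = face r s z}
  | d :: w => {q | q ∈ Gam r w ∨ ∃ z ∈ cseg d (10 ^ w.length), ∃ s, q = face r s z}

section locIso

variable {r : ℕ}

lemma LocIso.congr {f g : ℂ → ℂ × Bool} {z : ℂ} (h : f =ᶠ[𝓝 z] g) (hg : LocIso r g z) : LocIso r f z := by
  obtain ⟨ε, hε, hb⟩ := hg
  obtain ⟨δ, hδ, hd⟩ := Metric.eventually_nhds_iff_ball.1 h
  refine ⟨min ε δ, lt_min hε hδ, fun x hx y hy => ?_⟩
  rw [Metric.mem_ball, lt_min_iff] at hx hy
  rw [hd x hx.2, hd y hy.2]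
  exact hb x hx.1 y hy.1

lemma LocIso.comp {f : ℂ → ℂ × Bool} {g : ℂ → ℂ} (hg : ∀ x y, dist (g x) (g y) = dist x y) {z : ℂ}
    (hf : LocIso r f (g z)) : LocIso r (fun x => f (g x)) z := by
  obtain ⟨ε, hε, hb⟩ := hf
  refine ⟨ε, hε, fun x hx y hy => ?_⟩
  rw [Metric.mem_ball] at hx hy
  rw [hb (g x) (by rw [Metric.mem_ball, hg]; exact hx) (g y) (by rw [Metric.mem_ball, hg]; exact hy), hg]

lemma locIso_face (s : Bool) (z : ℂ) : LocIso r (face r s) z :=
  ⟨1, one_pos, fun x _ y _ => dist_face s x y⟩

/-- Local isometry across an edge. -/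
lemma locIso_edge {f : ℂ → ℂ × Bool} {α β γ : ℝ} (h0 : α ≠ 0 ∨ β ≠ 0) (hM : ∀ x ∈ M r, af α β γ x ≤ 0)
    {g : ℂ → ℂ} (hg : ∀ x y, dist (g x) (g y) = dist x y) (hfix : ∀ x, af α β γ x = 0 → g x = (starRingEnd ℂ) x)
    (s : Bool) {z : ℂ} {O : Set ℂ} (hO : IsOpen O) (hz : z ∈ O)
    (h1 : ∀ x ∈ O, af α β γ x ≤ 0 → x ∈ M r ∧ f x = face r s x)
    (h2 : ∀ x ∈ O, 0 ≤ af α β γ x → f x = face r (!s) (g x)) : LocIso r f z := by
  obtain ⟨δ, hδ, hb⟩ := Metric.isOpen_iff.1 hO z hz
  have hmix : ∀ x y, dist x z < δ / 4 → dist y z < δ / 4 → af α β γ x ≤ 0 → 0 ≤ af α β γ y →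
      dblDist (M r) (f x) (f y) = dist x y := by
    intro x y hx hy hgx hgy
    have hxO : x ∈ O := hb (by rw [Metric.mem_ball]; linarith)
    have hyO : y ∈ O := hb (by rw [Metric.mem_ball]; linarith)
    rw [(h1 x hxO hgx).2, h2 y hyO hgy, dist_face_diff]
    refine edge_cross (M_isClosed r) h0 hM (ρ := fun y => (starRingEnd ℂ) (g y)) ?_ ?_ (z := z) (δ := δ) ?_ hx hy
      hgx hgy
    · intro x y
      rw [dist_conj, hg]
    · intro x hx
      rw [hfix x hx, Complex.conj_conj]
    · intro x hx hgx
      exact (h1 x (hb hx) hgx).1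
  refine ⟨δ / 4, by positivity, fun x hx y hy => ?_⟩
  rw [Metric.mem_ball] at hx hy
  have hxO : x ∈ O := hb (by rw [Metric.mem_ball]; linarith)
  have hyO : y ∈ O := hb (by rw [Metric.mem_ball]; linarith)
  rcases le_total (af α β γ x) 0 with hgx | hgx
  · rcases le_total (af α β γ y) 0 with hgy | hgy
    · rw [(h1 x hxO hgx).2, (h1 y hyO hgy).2, dist_face]
    · exact hmix x y hx hy hgx hgy
  · rcases le_total (af α β γ y) 0 with hgy | hgy
    · rw [dblDist_comm, dist_comm]
      exact hmix y x hy hx hgy hgx
    · rw [h2 x hxO hgx, h2 y hyO hgy, dist_face, hg]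

end locIso

section main

variable {r : ℕ}

lemma LI (w : List Bool) (hw : w.length ≤ r) (s : Bool) {z : ℂ} (hz : z ∈ D r w) : LocIso r (F r s w) z := by
  induction w generalizing s z with
  | nil => exact locIso_face s z
  | cons d w ih =>
    rw [List.length_cons] at hw
    cases d
    · have e : F r s (false :: w) = F r s w := by funext x; exact F_false s w x
      rw [e]
      rw [D_false hw] at hz
      exact ih (by omega) s hz
    · rcases D_true_cases hw hz with ⟨h1, h2, h3⟩ | ⟨h1, h2, h3⟩ | h1
      · have hopen : IsOpen (T' (10 ^ w.length) ⁻¹' (V (10 ^ w.length) ∪ A w))ᶜ :=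
          ((isClosed_N w).preimage (continuous_T' _)).isOpen_compl
        refine LocIso.congr ?_ (locIso_face s z)
        filter_upwards [hopen.mem_nhds h1] with x hx
        exact F_true_not s hx
      · have hopen : IsOpen (T' (10 ^ w.length) ⁻¹' interior (V (10 ^ w.length) ∪ A w)) :=
          isOpen_interior.preimage (continuous_T' _)
        refine LocIso.congr ?_ (LocIso.comp (f := F r (!s) w) (dist_T' (10 ^ w.length)) (ih (by omega) (!s) h2))
        filter_upwards [hopen.mem_nhds h1] with x hx
        exact F_true s (interior_subset hx)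
      · refine locIso_edge (α := 1) (β := 11 * 10 ^ w.length) (γ := -(10 * (10 ^ w.length) ^ 2))
          (Or.inl one_ne_zero) (fun x hx => M_mu _ hx) (dist_T' (10 ^ w.length)) (fun x hx => T'_of_mu hx) s
          (isOpen_Onb (10 ^ w.length)) (rimO_sub (pow10_pos _) h1) ?_ ?_
        · intro x hx hmu
          have hU := Onb_U hx hmu
          exact ⟨U_sub_M hw hU, F_U s true w hw hU⟩
        · intro x hx hmu
          have hV := Onb_V hx hmu
          rw [F_true s (Or.inl hV)]
          exact F_left (!s) w (by omega) hV.2.2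

lemma F_rim {w : List Bool} (h : w.length + 1 ≤ r) (s : Bool) {z : ℂ} (hz : z ∈ rimO (10 ^ w.length)) :
    F r s (true :: w) z = face r s z :=
  F_U s true w h (Onb_U (rimO_sub (pow10_pos _) hz) hz.1.le)

lemma RIM (hr : 1 ≤ r) (w : List Bool) (hw : w.length ≤ r) (s : Bool) {z : ℂ} (hz : z ∈ D r w)
    (hf : (F r s w z).1 ∈ frontier (M r)) : 0 < rt (10 ^ w.length) (F r s w z).1 := by
  induction w generalizing s z with
  | nil =>
    exfalso
    have h1 := D_nil_sub hr hz
    have h2 : z ∈ frontier (M r) := face_frontier.1 hf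
    rw [(M_isClosed r).frontier_eq] at h2
    exact h2.2 h1
  | cons d w ih =>
    rw [List.length_cons] at hw
    have ht := pow10_pos w.length
    rw [List.length_cons, ← pow10_succ']
    have hmono : ∀ x : ℂ, 0 < rt (10 ^ w.length) x → 0 < rt (10 * 10 ^ w.length) x := by
      intro x hx
      rw [rt_eq] at hx ⊢
      nlinarith
    cases d
    · rw [F_false] at hf ⊢
      rw [D_false hw] at hz
      exact hmono _ (ih (by omega) s hz hf)
    · rcases D_true_cases hw hz with ⟨h1, h2, h3⟩ | ⟨h1, h2, h3⟩ | h1
      · exfalso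
        rw [F_true_not s h1, face_frontier, (M_isClosed r).frontier_eq] at hf
        exact hf.2 h2
      · rw [F_true s (interior_subset h1)] at hf ⊢
        exact hmono _ (ih (by omega) (!s) h2 hf)
      · rw [F_rim hw s h1]
        rw [rt_eq, face_re]
        obtain ⟨g1, g2, g3⟩ := h1
        rw [mu_eq] at g1
        nlinarith

lemma INJ (hr : 1 ≤ r) (w : List Bool) (hw : w.length ≤ r) {s s' : Bool} {z z' : ℂ} (hz : z ∈ D r w)
    (hz' : z' ∈ D r w) (h : F r s w z = F r s' w z') : s = s' ∧ z = z' := by
  induction w generalizing s s' z z' with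
  | nil =>
    have h1 := D_nil_sub hr hz
    refine face_inj ?_ h
    rw [(M_isClosed r).frontier_eq]
    exact fun hc => hc.2 h1
  | cons d w ih =>
    rw [List.length_cons] at hw
    have ht := pow10_pos w.length
    cases d
    · rw [F_false, F_false] at h
      rw [D_false hw] at hz hz'
      exact ih (by omega) hz hz' h
    · have hnf : ∀ {x : ℂ}, x ∈ interior (M r) → x ∉ frontier (M r) := by
        intro x hx
        rw [(M_isClosed r).frontier_eq]
        exact fun hc => hc.2 hx
      -- auxiliary exclusions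
      have hAB : ∀ {s s' : Bool} {z z' : ℂ}, z ∈ interior (M r) → el (10 ^ w.length) z < 0 →
          T' (10 ^ w.length) z' ∈ D r w → 0 < el (10 ^ w.length) (T' (10 ^ w.length) z') →
          face r s z = F r (!s') w (T' (10 ^ w.length) z') → False := by
        intro s s' z z' h1 h2 h3 h4 h5
        have h6 := rt_of_el_lt (interior_subset h1) h2
        rw [← F_left s w (by omega) h6.le] at h5
        obtain ⟨_, h7⟩ := ih (by omega) (mem_D_of_rt h1 h6) h3 h5
        rw [← h7] at h4
        linarith
      have hAC : ∀ {s s' : Bool} {z z' : ℂ}, z ∈ interior (M r) → z' ∈ rimO (10 ^ w.length) →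
          face r s z = face r s' z' → False := by
        intro s s' z z' h1 h2 h3
        have h4 := rimO_frontier hw h2
        rw [← face_frontier (s := s'), ← h3, face_frontier] at h4
        exact hnf h1 h4
      have hBC : ∀ {s s' : Bool} {z z' : ℂ}, T' (10 ^ w.length) z ∈ D r w → z' ∈ rimO (10 ^ w.length) →
          F r (!s) w (T' (10 ^ w.length) z) = face r s' z' → False := by
        intro s s' z z' h1 h2 h3
        have h4 : (F r (!s) w (T' (10 ^ w.length) z)).1 ∈ frontier (M r) := by
          rw [h3, face_frontier]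
          exact rimO_frontier hw h2
        have h5 := RIM hr w (by omega) (!s) h1 h4
        rw [h3, rt_eq, face_re] at h5
        obtain ⟨g1, g2, g3⟩ := h2
        rw [mu_eq] at g1
        nlinarith
      rcases D_true_cases hw hz with ⟨a1, a2, a3⟩ | ⟨b1, b2, b3⟩ | c1
      · rw [F_true_not s a1] at h
        rcases D_true_cases hw hz' with ⟨a1', a2', a3'⟩ | ⟨b1', b2', b3'⟩ | c1'
        · rw [F_true_not s' a1'] at h
          exact face_inj (hnf a2) h
        · rw [F_true s' (interior_subset b1')] at h
          exact (hAB a2 a3 b2' b3' h).elim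
        · rw [F_rim hw s' c1'] at h
          exact (hAC a2 c1' h).elim
      · rw [F_true s (interior_subset b1)] at h
        rcases D_true_cases hw hz' with ⟨a1', a2', a3'⟩ | ⟨b1', b2', b3'⟩ | c1'
        · rw [F_true_not s' a1'] at h
          exact (hAB a2' a3' b2 b3 h.symm).elim
        · rw [F_true s' (interior_subset b1')] at h
          obtain ⟨h1, h2⟩ := ih (by omega) b2 b2' h
          refine ⟨by simpa using h1, ?_⟩
          rw [← T_T' (10 ^ w.length) z, h2, T_T']
        · rw [F_rim hw s' c1'] at h
          exact (hBC b2 c1' h).elim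
      · rw [F_rim hw s c1] at h
        rcases D_true_cases hw hz' with ⟨a1', a2', a3'⟩ | ⟨b1', b2', b3'⟩ | c1'
        · rw [F_true_not s' a1'] at h
          exact (hAC a2' c1 h.symm).elim
        · rw [F_true s' (interior_subset b1')] at h
          exact (hBC b2' c1 h.symm).elim
        · rw [F_rim hw s' c1'] at h
          have hss : s = s' := by
            have h2 := congrArg (fun q => q.1.im) h
            simp only [face_im] at h2
            obtain ⟨_, p1, _⟩ := c1
            obtain ⟨_, p2, _⟩ := c1'
            have p1' := ht.trans p1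
            have p2' := ht.trans p2
            cases s
            · cases s'
              · rfl
              · rw [if_neg Bool.false_ne_true, if_pos rfl] at h2
                linarith
            · cases s'
              · rw [if_neg Bool.false_ne_true, if_pos rfl] at h2
                linarith
              · rfl
          subst hss
          exact ⟨rfl, face_inj_same h⟩

end main

end Pool.Agent.P086e3e
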