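import Pool.Agent.Lib.P086e3e.Props

set_option autoImplicit false

open Complex Set Topology

namespace Pool.Agent.P086e3e

section cseg

variable {r : ℕ}

lemma cseg_false_V {t : ℝ} (ht : 0 < t) {z : ℂ} (hz : z ∈ cseg false t) : z ∈ V t ∧ ml t z = 0 := by
  obtain ⟨h1, h2, h3⟩ := hz
  rw [if_neg Bool.false_ne_true] at h1
  refine ⟨⟨h1.le, ?_, h3⟩, h1⟩
  rw [ml_eq] at h1
  rw [lf_eq] at h2
  rw [rt_eq] at h3
  rw [el_eq]
  nlinarith

lemma cseg_true_U {t : ℝ} (ht : 0 < t) {z : ℂ} (hz : z ∈ cseg true t) : z ∈ U t ∧ el t z = 0 := by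
  obtain ⟨h1, h2, h3⟩ := hz
  rw [if_pos rfl] at h1
  refine ⟨⟨h2, ?_, h1.le⟩, h1⟩
  rw [el_eq] at h1
  rw [lf_eq] at h2
  rw [rt_eq] at h3
  rw [mu_eq]
  nlinarith

lemma cseg_M {d : Bool} {j : ℕ} (hj : j + 1 ≤ r) {z : ℂ} (hz : z ∈ cseg d (10 ^ j)) : z ∈ M r := by
  cases d
  · exact V_sub_M hj (cseg_false_V (pow10_pos j) hz).1
  · exact U_sub_M hj (cseg_true_U (pow10_pos j) hz).1

lemma Gam_re (w : List Bool) {q : ℂ × Bool} (hq : q ∈ Gam r w) : -(10 ^ w.length) ^ 2 ≤ q.1.re := by
  induction w with
  | nil =>
    obtain ⟨z, hz, s, rfl⟩ := hq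
    rw [face_re, hz.1]
    simp
  | cons d w ih =>
    rw [List.length_cons, ← pow10_succ']
    have ht := pow10_pos w.length
    rcases hq with h | ⟨z, hz, s, rfl⟩
    · have := ih h
      nlinarith
    · rw [face_re]
      have := hz.2.1
      rw [lf_eq] at this
      linarith

lemma nf_of_int {x : ℂ} (hx : x ∈ interior (M r)) : x ∉ frontier (M r) := by
  rw [(M_isClosed r).frontier_eq]
  exact fun hc => hc.2 hx

lemma DISJ (hr : 1 ≤ r) (w : List Bool) (hw : w.length ≤ r) (s : Bool) {z : ℂ} (hz : z ∈ D r w) :
    F r s w z ∉ Gam r w := by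
  induction w generalizing s z with
  | nil =>
    rintro ⟨z', hz', s', h⟩
    have h1 := D_nil_sub hr hz
    have h2 : face r s z = face r s' z' := h
    obtain ⟨_, h3⟩ := face_inj (nf_of_int h1) h2
    have h4 := af_lt_of_interior (S := M r) (Or.inl one_ne_zero) (fun x hx => M_rt hx) h1
    change rt 1 z < 0 at h4
    rw [h3, rt_eq, hz'.1] at h4
    norm_num at h4
  | cons d w ih =>
    rw [List.length_cons] at hw
    have ht := pow10_pos w.length
    cases d
    · rw [D_false hw] at hz
      rw [F_false]
      rintro (h | ⟨x, hx, s', h⟩)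
      · exact ih (by omega) s hz h
      · obtain ⟨h1, h2⟩ := cseg_false_V ht hx
        have h3 : (F r s w z).1 ∈ frontier (M r) := by
          rw [h, face_frontier]
          exact frontier_of_ml (V_sub_M hw h1) h2
        have h4 := RIM hr w (by omega) s hz h3
        rw [h, rt_eq, face_re] at h4
        have h5 := h1.2.2
        rw [rt_eq] at h5
        linarith
    · rcases D_true_cases hw hz with ⟨a1, a2, a3⟩ | ⟨b1, b2, b3⟩ | c1
      · rw [F_true_not s a1]
        have h6 := rt_of_el_lt (interior_subset a2) a3
        rintro (h | ⟨x, hx, s', h⟩)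
        · rw [← F_left s w (by omega) h6.le] at h
          exact ih (by omega) s (mem_D_of_rt a2 h6) h
        · obtain ⟨_, h7⟩ := face_inj (nf_of_int a2) h
          have h8 := (cseg_true_U ht hx).2
          rw [← h7] at h8
          linarith
      · rw [F_true s (interior_subset b1)]
        rintro (h | ⟨x, hx, s', h⟩)
        · exact ih (by omega) (!s) b2 h
        · obtain ⟨hxU, hx0⟩ := cseg_true_U ht hx
          have hxM := U_sub_M hw hxU
          by_cases hxi : x ∈ interior (M r)
          · have h6 : rt (10 ^ w.length) x < 0 := by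
              have g1 := af_lt_of_interior (S := M r) (Or.inl one_ne_zero) (fun x hx => M_mu w.length hx) hxi
              change mu (10 ^ w.length) x < 0 at g1
              rw [mu_eq] at g1
              rw [el_eq] at hx0
              rw [rt_eq]
              nlinarith
            rw [← F_left s' w (by omega) h6.le] at h
            obtain ⟨_, h7⟩ := INJ hr w (by omega) b2 (mem_D_of_rt hxi h6) h
            rw [h7] at b3
            linarith
          · have h3 : (F r (!s) w (T' (10 ^ w.length) z)).1 ∈ frontier (M r) := by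
              rw [h, face_frontier, (M_isClosed r).frontier_eq]
              exact ⟨hxM, hxi⟩
            have h4 := RIM hr w (by omega) (!s) b2 h3
            rw [h, rt_eq, face_re] at h4
            have h5 := hx.2.2
            rw [rt_eq] at h5
            linarith
      · rw [F_rim hw s c1]
        obtain ⟨g1, g2, g3⟩ := c1
        rw [mu_eq] at g1
        rintro (h | ⟨x, hx, s', h⟩)
        · have := Gam_re w h
          rw [face_re] at this
          nlinarith
        · have h8 := (cseg_true_U ht hx).2
          have e1 := congrArg (fun q => q.1.re) h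
          have e2 := congrArg (fun q => q.1.im) h
          simp only [face_re, face_im] at e1 e2
          rw [el_eq] at h8
          have hcase : x.im = z.im ∨ x.im = -z.im := by
            cases s
            · cases s'
              · rw [if_neg Bool.false_ne_true, if_neg Bool.false_ne_true] at e2
                left; linarith
              · rw [if_neg Bool.false_ne_true, if_pos rfl] at e2
                right; linarith
            · cases s'
              · rw [if_neg Bool.false_ne_true, if_pos rfl] at e2
                right; linarith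
              · rw [if_pos rfl, if_pos rfl] at e2
                left; linarith
          rcases hcase with h9 | h9
          · rw [← e1, h9] at h8
            nlinarith
          · rw [← e1, h9] at h8
            nlinarith

/-- Boundary points of the polygon over a block are on its rims (or on the tip side). -/
lemma frontier_block {j : ℕ} (hj : j + 1 ≤ r) {z : ℂ} (hz : z ∈ frontier (M r)) (h1 : 0 < rt (10 * 10 ^ j) z)
    (h2 : rt (10 ^ j) z ≤ 0) : ml (10 ^ j) z = 0 ∨ mu (10 ^ j) z = 0 ∨ (j = 0 ∧ z ∈ A []) := by
  have hM : z ∈ M r := (M_isClosed r).frontier_subset hz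
  have hni : z ∉ interior (M r) := by
    rw [(M_isClosed r).frontier_eq] at hz
    exact hz.2
  have ht := pow10_pos j
  by_contra hcon
  push Not at hcon
  obtain ⟨c1, c2, c3⟩ := hcon
  have d1 : ml (10 ^ j) z < 0 := lt_of_le_of_ne (M_ml j hM) c1
  have d2 : mu (10 ^ j) z < 0 := lt_of_le_of_ne (M_mu j hM) c2
  have hblock : ∀ k, k + 1 ≤ r → ∀ x, mu (10 ^ k) x ≤ 0 → ml (10 ^ k) x ≤ 0 → lf (10 * 10 ^ k) x ≤ 0 →
      rt (10 ^ k) x ≤ 0 → x ∈ M r := by
    intro k hk x e1 e2 e3 e4
    rcases le_total (el (10 ^ k) x) 0 with h4 | h4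
    · exact U_sub_M hk ⟨e3, e1, h4⟩
    · exact V_sub_M hk ⟨e2, h4, e4⟩
  have hlf : lf (10 * 10 ^ j) z < 0 := by
    rw [rt_eq] at h1
    rw [lf_eq]
    linarith
  rcases eq_or_lt_of_le h2 with h3 | h3
  · -- on the column
    cases j with
    | zero =>
      apply c3 rfl
      have t1 := M_tu 1 hM
      have t2 := M_tl 1 hM
      rw [pow_zero, rt_eq] at h3
      rw [tu_eq] at t1
      rw [tl_eq] at t2
      exact ⟨by linarith, by linarith, by linarith⟩
    | succ k =>
      have hs := pow10_pos k
      have hsucc := pow10_succ' k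
      have hsucc2 := pow10_succ' (k + 1)
      apply hni
      have hO : IsOpen ({x | mu (10 ^ (k + 1)) x < 0} ∩ {x | ml (10 ^ (k + 1)) x < 0} ∩
          {x | lf (10 * 10 ^ (k + 1)) x < 0} ∩ {x | mu (10 ^ k) x < 0} ∩ {x | ml (10 ^ k) x < 0} ∩
          {x | rt (10 ^ k) x < 0}) :=
        (((((isOpen_af_lt _ _ _).inter (isOpen_af_lt _ _ _)).inter (isOpen_af_lt _ _ _)).inter
          (isOpen_af_lt _ _ _)).inter (isOpen_af_lt _ _ _)).inter (isOpen_af_lt _ _ _)
      refine interior_maximal ?_ hO ⟨⟨⟨⟨⟨d2, d1⟩, hlf⟩, ?_⟩, ?_⟩, ?_⟩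
      · rintro x ⟨⟨⟨⟨⟨x1, x2⟩, x3⟩, x4⟩, x5⟩, x6⟩
        rcases le_total (rt (10 ^ (k + 1)) x) 0 with h4 | h4
        · exact hblock (k + 1) hj x (le_of_lt x1) (le_of_lt x2) (le_of_lt x3) h4
        · refine hblock k (by omega) x (le_of_lt x4) (le_of_lt x5) ?_ (le_of_lt x6)
          rw [hsucc, lf_eq]
          rw [rt_eq] at h4
          linarith
      · change mu (10 ^ k) z < 0
        rw [← hsucc] at d1 d2 h3
        rw [mu_eq] at d2 ⊢
        rw [rt_eq] at h3
        nlinarith
      · change ml (10 ^ k) z < 0
        rw [← hsucc] at d1 d2 h3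
        rw [ml_eq] at d1 ⊢
        rw [rt_eq] at h3
        nlinarith
      · change rt (10 ^ k) z < 0
        rw [← hsucc] at h3
        rw [rt_eq] at h3 ⊢
        nlinarith
  · apply hni
    have hO : IsOpen ({x | mu (10 ^ j) x < 0} ∩ {x | ml (10 ^ j) x < 0} ∩
        {x | lf (10 * 10 ^ j) x < 0} ∩ {x | rt (10 ^ j) x < 0}) :=
      (((isOpen_af_lt _ _ _).inter (isOpen_af_lt _ _ _)).inter (isOpen_af_lt _ _ _)).inter (isOpen_af_lt _ _ _)
    refine interior_maximal ?_ hO ⟨⟨⟨d2, d1⟩, hlf⟩, h3⟩
    rintro x ⟨⟨⟨x1, x2⟩, x3⟩, x4⟩
    exact hblock j hj x (le_of_lt x1) (le_of_lt x2) (le_of_lt x3) (le_of_lt x4)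

lemma mu_conj (t : ℝ) (z : ℂ) : mu t ((starRingEnd ℂ) z) = ml t z := by
  rw [mu_eq, ml_eq, Complex.conj_re, Complex.conj_im]; ring

lemma ml_conj (t : ℝ) (z : ℂ) : ml t ((starRingEnd ℂ) z) = mu t z := by
  rw [mu_eq, ml_eq, Complex.conj_re, Complex.conj_im]; ring

/-- Every point of the surface off the cut and over the arm region is reached from the domain. -/
lemma SURJ (w : List Bool) (hw : w.length ≤ r) (s₀ : Bool) {z₀ : ℂ} (hz₀ : z₀ ∈ M r)
    (hpos : z₀ ∈ interior (M r) ∨ 0 < rt (10 ^ w.length) z₀) (hG : face r s₀ z₀ ∉ Gam r w) :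
    ∃ s z, z ∈ D r w ∧ F r s w z = face r s₀ z₀ := by
  induction w with
  | nil =>
    rcases hpos with h | h
    · refine ⟨s₀, z₀, ?_, rfl⟩
      refine interior_mono ?_ h
      intro x hx
      left
      refine ⟨hx, ?_⟩
      simp only [List.length_nil, pow_zero]
      exact M_rt hx
    · simp only [List.length_nil, pow_zero] at h
      have := M_rt hz₀
      linarith
  | cons d w ih =>
    rw [List.length_cons] at hw
    have ht := pow10_pos w.length
    rw [List.length_cons, ← pow10_succ'] at hpos
    have hGw : face r s₀ z₀ ∉ Gam r w := fun h => hG (Or.inl h)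
    have hGc : ∀ x ∈ cseg d (10 ^ w.length), ∀ s, face r s₀ z₀ ≠ face r s x :=
      fun x hx s h => hG (Or.inr ⟨x, hx, s, h⟩)
    have hlf_of : 0 < rt (10 * 10 ^ w.length) z₀ → lf (10 * 10 ^ w.length) z₀ < 0 := by
      intro h
      rw [rt_eq] at h
      rw [lf_eq]
      linarith
    cases d
    · -- extension letter `false`
      have hcase : z₀ ∈ interior (M r) ∨ 0 < rt (10 ^ w.length) z₀ := by
        by_contra hcon
        push Not at hcon
        obtain ⟨hn1, hn2⟩ := hcon
        have hrt := hpos.resolve_left hn1
        have hfr : z₀ ∈ frontier (M r) := by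
          rw [(M_isClosed r).frontier_eq]; exact ⟨hz₀, hn1⟩
        rcases frontier_block hw hfr hrt hn2 with h | h | ⟨h, h'⟩
        · refine hGc z₀ ⟨by rw [if_neg Bool.false_ne_true]; exact h, (hlf_of hrt).le, hn2⟩ s₀ rfl
        · refine hGc ((starRingEnd ℂ) z₀) ⟨?_, ?_, ?_⟩ (!s₀) (face_flip hfr).symm
          · rw [if_neg Bool.false_ne_true, ml_conj]; exact h
          · rw [lf_eq, Complex.conj_re, ← lf_eq]; exact (hlf_of hrt).le
          · rw [rt_eq, Complex.conj_re, ← rt_eq]; exact hn2
        · have hw0 : w = [] := List.eq_nil_of_length_eq_zero h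
          subst hw0
          exact hGw ⟨z₀, h', s₀, rfl⟩
      obtain ⟨s, z, h1, h2⟩ := ih (by omega) hcase hGw
      exact ⟨s, z, by rw [D_false hw]; exact h1, by rw [F_false]; exact h2⟩
    · -- a switch
      have hpush : ∀ s z, z ∈ D r w → F r s w z = face r s₀ z₀ → 0 < el (10 ^ w.length) z →
          ∃ s z, z ∈ D r (true :: w) ∧ F r s (true :: w) z = face r s₀ z₀ := by
        intro s z h1 h2 h3
        have hN : z ∈ interior (V (10 ^ w.length) ∪ A w) := by
          have hO : IsOpen (D r w ∩ {x | 0 < el (10 ^ w.length) x}) := isOpen_D.inter (isOpen_af_gt _ _ _)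
          refine interior_maximal ?_ hO ⟨h1, h3⟩
          rintro x ⟨hx1, hx2⟩
          rcases interior_subset hx1 with h | h
          · exact Or.inl ⟨M_ml _ h.1, le_of_lt hx2, h.2⟩
          · exact Or.inr h
        refine ⟨!s, T (10 ^ w.length) z, mem_D_of_N hN, ?_⟩
        rw [F_true (!s) (by rw [T'_T]; exact interior_subset hN), T'_T, Bool.not_not]
        exact h2
      rcases hpos with hi | hrt
      · rcases lt_trichotomy (el (10 ^ w.length) z₀) 0 with h | h | h
        · refine ⟨s₀, z₀, mem_D_of_el hw hi h, ?_⟩
          apply F_true_not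
          apply N_not_of_mu
          exact af_lt_of_interior (S := M r) (Or.inl one_ne_zero) (fun x hx => M_mu w.length hx) hi
        · exfalso
          refine hGc z₀ ⟨by rw [if_pos rfl]; exact h, ?_, rt_of_el hz₀ h.le⟩ s₀ rfl
          have h1 := M_tl (10 * 10 ^ w.length) hz₀
          rw [tl_eq] at h1
          rw [el_eq] at h
          rw [lf_eq]
          nlinarith
        · obtain ⟨s, z, h1, h2⟩ := ih (by omega) (Or.inl hi) hGw
          refine hpush s z h1 h2 ?_
          by_contra hle
          push Not at hle
          have h3 : rt (10 ^ w.length) z ≤ 0 := by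
            rcases interior_subset h1 with h4 | h4
            · exact h4.2
            · obtain ⟨g1, g2, g3⟩ := A_W w h4
              rw [lf_eq] at g1
              rw [tu_eq] at g2
              rw [tl_eq] at g3
              rw [el_eq] at hle
              rw [rt_eq]
              nlinarith
          rw [F_left s w (by omega) h3] at h2
          obtain ⟨_, h5⟩ := face_inj (nf_of_int hi) h2.symm
          rw [← h5] at hle
          linarith
      · by_cases hi : z₀ ∈ interior (M r)
        · rcases lt_trichotomy (el (10 ^ w.length) z₀) 0 with h | h | h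
          · refine ⟨s₀, z₀, mem_D_of_el hw hi h, ?_⟩
            apply F_true_not
            apply N_not_of_mu
            exact af_lt_of_interior (S := M r) (Or.inl one_ne_zero) (fun x hx => M_mu w.length hx) hi
          · exfalso
            exact hGc z₀ ⟨by rw [if_pos rfl]; exact h, (hlf_of hrt).le, rt_of_el hz₀ h.le⟩ s₀ rfl
          · obtain ⟨s, z, h1, h2⟩ := ih (by omega) (Or.inl hi) hGw
            refine hpush s z h1 h2 ?_
            by_contra hle
            push Not at hle
            have h3 : rt (10 ^ w.length) z ≤ 0 := by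
              rcases interior_subset h1 with h4 | h4
              · exact h4.2
              · obtain ⟨g1, g2, g3⟩ := A_W w h4
                rw [lf_eq] at g1
                rw [tu_eq] at g2
                rw [tl_eq] at g3
                rw [el_eq] at hle
                rw [rt_eq]
                nlinarith
            rw [F_left s w (by omega) h3] at h2
            obtain ⟨_, h5⟩ := face_inj (nf_of_int hi) h2.symm
            rw [← h5] at hle
            linarith
        · have hfr : z₀ ∈ frontier (M r) := by
            rw [(M_isClosed r).frontier_eq]; exact ⟨hz₀, hi⟩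
          rcases le_or_gt (rt (10 ^ w.length) z₀) 0 with hn2 | hn2
          · have hgo : ∀ (s₁ : Bool) (z₁ : ℂ), face r s₁ z₁ = face r s₀ z₀ → mu (10 ^ w.length) z₁ = 0 →
                z₁.re = z₀.re → ∃ s z, z ∈ D r (true :: w) ∧ F r s (true :: w) z = face r s₀ z₀ := by
              intro s₁ z₁ e1 e2 e3
              have e2' := e2
              rw [mu_eq, e3] at e2
              have f1 := hn2
              have f2 := hrt
              rw [rt_eq] at f1 f2
              have i1 : 10 ^ w.length ≤ z₁.im := by
                have : (11 * 10 ^ w.length) * 10 ^ w.length ≤ (11 * 10 ^ w.length) * z₁.im := by nlinarith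
                exact le_of_mul_le_mul_left this (by positivity)
              have i2 : z₁.im < 10 * 10 ^ w.length := by
                have : (11 * 10 ^ w.length) * z₁.im < (11 * 10 ^ w.length) * (10 * 10 ^ w.length) := by nlinarith
                exact lt_of_mul_lt_mul_left this (by positivity)
              have i3 : z₁.im ≠ 10 ^ w.length := by
                intro hc
                refine hGc z₁ ⟨?_, ?_, ?_⟩ s₁ e1.symm
                · rw [if_pos rfl, el_eq, e3, hc]
                  rw [hc] at e2
                  nlinarith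
                · rw [lf_eq, e3, ← lf_eq]; exact (hlf_of hrt).le
                · rw [rt_eq, e3, ← rt_eq]; exact hn2
              have hrim : z₁ ∈ rimO (10 ^ w.length) := ⟨e2', lt_of_le_of_ne i1 (Ne.symm i3), i2⟩
              exact ⟨s₁, z₁, mem_D_of_rim hrim, by rw [F_rim hw s₁ hrim]; exact e1⟩
            rcases frontier_block hw hfr hrt hn2 with h | h | ⟨h, h'⟩
            · refine hgo (!s₀) ((starRingEnd ℂ) z₀) (face_flip hfr) ?_ (Complex.conj_re _)
              rw [mu_conj]; exact h
            · exact hgo s₀ z₀ rfl h rfl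
            · have hw0 : w = [] := List.eq_nil_of_length_eq_zero h
              subst hw0
              exact (hGw ⟨z₀, h', s₀, rfl⟩).elim
          · obtain ⟨s, z, h1, h2⟩ := ih (by omega) (Or.inr hn2) hGw
            refine hpush s z h1 h2 ?_
            by_contra hle
            push Not at hle
            have h3 : rt (10 ^ w.length) z ≤ 0 := by
              rcases interior_subset h1 with h4 | h4
              · exact h4.2
              · obtain ⟨g1, g2, g3⟩ := A_W w h4
                rw [lf_eq] at g1
                rw [tu_eq] at g2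
                rw [tl_eq] at g3
                rw [el_eq] at hle
                rw [rt_eq]
                nlinarith
            rw [F_left s w (by omega) h3] at h2
            have h5 := congrArg (fun q => q.1.re) h2
            simp only [face_re] at h5
            rw [rt_eq] at h3 hn2
            linarith

/-- The folding map takes values in the surface. -/
lemma F_mem (s : Bool) (w : List Bool) (hw : w.length ≤ r) (hr : 1 ≤ r) {z : ℂ}
    (hz : z ∈ Ml r (10 ^ w.length) ∪ A w) : F r s w z ∈ Dbl (M r) := by
  induction w generalizing s z with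
  | nil =>
    apply face_mem
    rcases hz with h | h
    · exact h.1
    · apply V_sub_M (j := 0) (by omega)
      obtain ⟨h1, h2, h3⟩ := A_W [] h
      simp only [List.length_nil, pow_zero] at h1 h2 h3 ⊢
      refine V_col one_pos ?_ h2 h3
      obtain ⟨h4, _, _⟩ := h
      rw [rt_eq]
      linarith
  | cons d w ih =>
    rw [List.length_cons] at hw
    simp only [F]
    split_ifs with hc
    · apply ih _ (by omega)
      rcases hc with h | h
      · exact Or.inl (V_sub_Ml hw h)
      · exact Or.inr h
    · apply face_mem
      rcases hz with h | h | h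
      · exact h.1
      · exact U_sub_M hw h
      · exact absurd h hc

end cseg

end Pool.Agent.P086e3e
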