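import Pool.Agent.Lib.P086e3e.Props2

set_option autoImplicit false

open Complex Set Topology

namespace Pool.Agent.P086e3e

/-- The half turn about the centre of the left side. -/
def R (Y : ℝ) (z : ℂ) : ℂ := ⟨-(2 * Y ^ 2) - z.re, -z.im⟩

lemma R_R (Y : ℝ) (z : ℂ) : R Y (R Y z) = z := by
  apply Complex.ext <;> simp [R]

lemma dist_R (Y : ℝ) (x y : ℂ) : dist (R Y x) (R Y y) = dist x y := by
  rw [Complex.dist_eq_re_im, Complex.dist_eq_re_im]
  congr 1
  simp only [R]
  ring

lemma continuous_R (Y : ℝ) : Continuous (R Y) := (Isometry.of_dist_eq (dist_R Y)).continuous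

lemma lf_R (Y : ℝ) (z : ℂ) : lf Y (R Y z) = -lf Y z := by
  rw [lf_eq, lf_eq]; simp only [R]; ring

noncomputable def Raff (Y : ℝ) : ℂ →ᵃ[ℝ] ℂ where
  toFun := R Y
  linear :=
    { toFun := fun v => ⟨-v.re, -v.im⟩
      map_add' := by
        intro x y
        apply Complex.ext <;> simp only [Complex.add_re, Complex.add_im] <;> ring
      map_smul' := by
        intro c x
        apply Complex.ext <;> simp only [Complex.smul_re, Complex.smul_im, smul_eq_mul, RingHom.id_apply] <;> ring }
  map_vadd' := by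
    intro p v
    apply Complex.ext <;>
    · simp only [R, vadd_eq_add, Complex.add_re, Complex.add_im, LinearMap.coe_mk, AddHom.coe_mk]
      ring

lemma Raff_coe (Y : ℝ) : ⇑(Raff Y) = R Y := rfl

lemma R_preimage_eq (Y : ℝ) (S : Set ℂ) : R Y ⁻¹' S = R Y '' S :=
  (congrFun (Set.image_eq_preimage_of_inverse (R_R Y) (R_R Y)) S).symm

/-- The unfolded polygon of a word. -/
noncomputable def P (w : List Bool) : Set ℂ := A w ∪ R (10 ^ w.length) ⁻¹' A w

/-- The unfolding map (from the plane to the surface). -/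
noncomputable def G (r : ℕ) (w : List Bool) (z : ℂ) : ℂ × Bool :=
  open Classical in
  if lf (10 ^ w.length) z ≤ 0 then F r true w z else F r false w (R (10 ^ w.length) z)

lemma W_im {Y : ℝ} (hY : 0 < Y) {z : ℂ} (hz : z ∈ W Y) : -Y ≤ z.im ∧ z.im ≤ Y := by
  obtain ⟨h1, h2, h3⟩ := hz
  rw [lf_eq] at h1
  rw [tu_eq] at h2
  rw [tl_eq] at h3
  constructor
  · have : (2 * Y) * (-Y) ≤ (2 * Y) * z.im := by nlinarith
    exact le_of_mul_le_mul_left this (by positivity)
  · have : (2 * Y) * z.im ≤ (2 * Y) * Y := by nlinarith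
    exact le_of_mul_le_mul_left this (by positivity)

lemma A_col' (w : List Bool) {z : ℂ} (h1 : lf (10 ^ w.length) z = 0) (h2 : -(10 ^ w.length) ≤ z.im)
    (h3 : z.im ≤ 10 ^ w.length) : z ∈ A w := by
  have hY := pow10_pos w.length
  refine A_col w h1 ?_ ?_
  · rw [lf_eq] at h1
    rw [tu_eq]
    nlinarith
  · rw [lf_eq] at h1
    rw [tl_eq]
    nlinarith

lemma convex_P (w : List Bool) : Convex ℝ (P w) := by
  have hY := pow10_pos w.length
  unfold P
  have hRA : Convex ℝ (R (10 ^ w.length) ⁻¹' A w) := by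
    rw [← Raff_coe]
    exact (convex_A w).affine_preimage _
  refine glue_convex (convex_A w) hRA (a := -1) (b := 0) (c := -((10 ^ w.length) ^ 2)) (a1 := 0) (b1 := 1)
    (c1 := -(10 ^ w.length)) (a2 := 0) (b2 := -1) (c2 := -(10 ^ w.length)) ?_ ?_ ?_ ?_ ?_
  · exact fun z hz => (A_W w hz).1
  · intro z hz
    have h1 := (A_W w hz).1
    rw [lf_R] at h1
    change 0 ≤ lf _ z
    linarith
  · rintro z (hz | hz)
    · have := (W_im hY (A_W w hz)).2
      simp only [af]; linarith
    · have := (W_im hY (A_W w hz)).1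
      simp only [R] at this
      simp only [af]; linarith
  · rintro z (hz | hz)
    · have := (W_im hY (A_W w hz)).1
      simp only [af]; linarith
    · have := (W_im hY (A_W w hz)).2
      simp only [R] at this
      simp only [af]; linarith
  · intro z h1 h2 h3
    simp only [af] at h2 h3
    have h1' : lf (10 ^ w.length) z = 0 := h1
    refine ⟨A_col' w h1' (by linarith) (by linarith), ?_⟩
    refine A_col' w ?_ ?_ ?_
    · rw [lf_R, h1']; simp
    · simp only [R]; linarith
    · simp only [R]; linarith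

open Classical in
lemma P_hull (d : Bool) (w : List Bool) :
    ∃ F : Finset ℂ, P (d :: w) = convexHull ℝ (F : Set ℂ) ∧
      ∀ z ∈ F, z = pa (10 * 10 ^ w.length) ∨ z = pb (10 * 10 ^ w.length) ∨ -(10 ^ w.length) ^ 2 ≤ z.re ∨
        z.re ≤ -(199 * (10 ^ w.length) ^ 2) := by
  obtain ⟨F, hF, hF2⟩ := A_hull_cons d w (A_hull w)
  have hY : (10:ℝ) ^ (d :: w).length = 10 * 10 ^ w.length := by rw [List.length_cons, pow10_succ']
  refine ⟨F ∪ F.image (R (10 ^ (d :: w).length)), ?_, ?_⟩
  · rw [Finset.coe_union]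
    apply hull_union hF _ (convex_P (d :: w))
    rw [R_preimage_eq, hF, ← Raff_coe, AffineMap.image_convexHull, Finset.coe_image]
  · intro z hz
    rw [Finset.mem_union] at hz
    rcases hz with hz | hz
    · rcases hF2 z hz with h | h | h
      · exact Or.inl h
      · exact Or.inr (Or.inl h)
      · exact Or.inr (Or.inr (Or.inl h))
    · rw [Finset.mem_image] at hz
      obtain ⟨v, hv, rfl⟩ := hz
      rw [hY]
      rcases hF2 v hv with h | h | h
      · right; left
        rw [h]
        apply Complex.ext <;> simp only [R, pa, pb] <;> ring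
      · left
        rw [h]
        apply Complex.ext <;> simp only [R, pa, pb] <;> ring
      · right; right; right
        simp only [R]
        linarith

/-- The open left side. -/
def LS (t : ℝ) : Set ℂ := {z | lf (10 * t) z = 0 ∧ -(10 * t) < z.im ∧ z.im < 10 * t}

/-- A neighbourhood of the open left side. -/
def Onb2 (t : ℝ) : Set ℂ := {x | mu t x < 0 ∧ el t x < 0 ∧ mu t (R (10 * t) x) < 0 ∧ el t (R (10 * t) x) < 0}

lemma isOpen_Onb2 (t : ℝ) : IsOpen (Onb2 t) :=
  (isOpen_af_lt _ _ _).inter ((isOpen_af_lt _ _ _).inter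
    (((isOpen_af_lt _ _ _).preimage (continuous_R _)).inter ((isOpen_af_lt _ _ _).preimage (continuous_R _))))

lemma LS_sub {t : ℝ} (ht : 0 < t) : LS t ⊆ Onb2 t := by
  rintro z ⟨h1, h2, h3⟩
  rw [lf_eq] at h1
  refine ⟨?_, ?_, ?_, ?_⟩
  · rw [mu_eq]; nlinarith
  · rw [el_eq]; nlinarith
  · rw [mu_eq]; simp only [R]; nlinarith
  · rw [el_eq]; simp only [R]; nlinarith

lemma Onb2_U {t : ℝ} {x : ℂ} (hx : x ∈ Onb2 t) (h : lf (10 * t) x ≤ 0) : x ∈ U t := ⟨h, hx.1.le, hx.2.1.le⟩

lemma Onb2_R {t : ℝ} {x : ℂ} (hx : x ∈ Onb2 t) (h : 0 ≤ lf (10 * t) x) : R (10 * t) x ∈ U t :=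
  ⟨by rw [lf_R]; linarith, hx.2.2.1.le, hx.2.2.2.le⟩

section final

variable {d : Bool} {w : List Bool}

lemma len_eq (d : Bool) (w : List Bool) : (10:ℝ) ^ (d :: w).length = 10 * 10 ^ w.length := by
  rw [List.length_cons, pow10_succ']

lemma LS_int {z : ℂ} (hz : z ∈ LS (10 ^ w.length)) : z ∈ interior (P (d :: w)) := by
  refine interior_maximal ?_ (isOpen_Onb2 _) (LS_sub (pow10_pos _) hz)
  intro x hx
  unfold P
  rw [len_eq]
  rcases le_total (lf (10 * 10 ^ w.length) x) 0 with h | h
  · exact Or.inl (Or.inl (Onb2_U hx h))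
  · exact Or.inr (Or.inl (Onb2_R hx h))

lemma int_P_cases {z : ℂ} (hz : z ∈ interior (P (d :: w))) :
    (lf (10 * 10 ^ w.length) z < 0 ∧ z ∈ interior (A (d :: w))) ∨
    (0 < lf (10 * 10 ^ w.length) z ∧ R (10 * 10 ^ w.length) z ∈ interior (A (d :: w))) ∨
    z ∈ LS (10 ^ w.length) := by
  have ht := pow10_pos w.length
  have hP : ∀ x ∈ P (d :: w), (x ∈ A (d :: w) ∧ lf (10 * 10 ^ w.length) x ≤ 0) ∨
      (R (10 * 10 ^ w.length) x ∈ A (d :: w) ∧ 0 ≤ lf (10 * 10 ^ w.length) x) := by
    intro x hx
    unfold P at hx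
    rw [len_eq] at hx
    rcases hx with hx | hx
    · left
      have := (A_W _ hx).1
      rw [len_eq] at this
      exact ⟨hx, this⟩
    · right
      have := (A_W _ hx).1
      rw [len_eq, lf_R] at this
      exact ⟨hx, by linarith⟩
  rcases lt_trichotomy (lf (10 * 10 ^ w.length) z) 0 with h | h | h
  · left
    refine ⟨h, ?_⟩
    have hO : IsOpen (interior (P (d :: w)) ∩ {x | lf (10 * 10 ^ w.length) x < 0}) :=
      isOpen_interior.inter (isOpen_af_lt _ _ _)
    refine interior_maximal ?_ hO ⟨hz, h⟩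
    rintro x ⟨hx1, hx2⟩
    have hx2' : lf (10 * 10 ^ w.length) x < 0 := hx2
    rcases hP x (interior_subset hx1) with h1 | h1
    · exact h1.1
    · linarith [h1.2]
  · right; right
    have hb : ∀ x ∈ P (d :: w), -(10 * 10 ^ w.length) ≤ x.im ∧ x.im ≤ 10 * 10 ^ w.length := by
      intro x hx
      rcases hP x hx with h1 | h1
      · have := W_im (by positivity) (A_W _ h1.1)
        rw [len_eq] at this
        exact this
      · have := W_im (by positivity) (A_W _ h1.1)
        rw [len_eq] at this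
        simp only [R] at this
        constructor <;> linarith [this.1, this.2]
    have g1 := af_lt_of_interior (S := P (d :: w)) (α := 0) (β := 1) (γ := -(10 * 10 ^ w.length))
      (Or.inr one_ne_zero) (fun x hx => by have := (hb x hx).2; simp only [af]; linarith) hz
    have g2 := af_lt_of_interior (S := P (d :: w)) (α := 0) (β := -1) (γ := -(10 * 10 ^ w.length))
      (Or.inr (by norm_num)) (fun x hx => by have := (hb x hx).1; simp only [af]; linarith) hz
    simp only [af] at g1 g2
    exact ⟨h, by linarith, by linarith⟩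
  · right; left
    refine ⟨h, ?_⟩
    have hO : IsOpen (R (10 * 10 ^ w.length) ⁻¹' (interior (P (d :: w)) ∩ {x | 0 < lf (10 * 10 ^ w.length) x})) :=
      (isOpen_interior.inter (isOpen_af_gt _ _ _)).preimage (continuous_R _)
    refine interior_maximal ?_ hO ⟨by rw [R_R]; exact hz, by
      change 0 < lf _ (R _ (R _ z)); rw [R_R]; exact h⟩
    rintro x ⟨hx1, hx2⟩
    have hx2' : 0 < lf (10 * 10 ^ w.length) (R (10 * 10 ^ w.length) x) := hx2
    rcases hP _ (interior_subset hx1) with h1 | h1
    · linarith [h1.2]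
    · have := h1.1
      rwa [R_R] at this

lemma D_top : D (w.length + 1) (d :: w) = interior (A (d :: w)) := by
  unfold D
  congr 1
  apply union_eq_self_of_subset_left
  rintro x ⟨hx1, hx2⟩
  have h1 := M_lf hx1
  have h2 := M_tu (10 ^ (d :: w).length) hx1
  have h3 := M_tl (10 ^ (d :: w).length) hx1
  refine A_col _ ?_ h2 h3
  rw [← List.length_cons (a := d)] at h1
  rw [lf_eq] at h1 ⊢
  rw [rt_eq] at hx2
  linarith

lemma G_left {z : ℂ} (h : lf (10 * 10 ^ w.length) z ≤ 0) :
    G (w.length + 1) (d :: w) z = F (w.length + 1) true (d :: w) z := by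
  unfold G
  rw [len_eq, if_pos h]

lemma G_right {z : ℂ} (h : 0 < lf (10 * 10 ^ w.length) z) :
    G (w.length + 1) (d :: w) z = F (w.length + 1) false (d :: w) (R (10 * 10 ^ w.length) z) := by
  unfold G
  rw [len_eq, if_neg (not_le.2 h)]

lemma R_of_lf {Y : ℝ} {z : ℂ} (h : lf Y z = 0) : R Y z = (starRingEnd ℂ) z := by
  rw [lf_eq] at h
  apply Complex.ext
  · simp only [R, Complex.conj_re]; linarith
  · simp only [R, Complex.conj_im]

lemma M_lf' {x : ℂ} (hx : x ∈ M (w.length + 1)) : lf (10 * 10 ^ w.length) x ≤ 0 := by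
  rw [pow10_succ']
  exact M_lf hx

lemma frontier_of_lf {z : ℂ} (hz : z ∈ M (w.length + 1)) (h : lf (10 * 10 ^ w.length) z = 0) :
    z ∈ frontier (M (w.length + 1)) := by
  rw [(M_isClosed _).frontier_eq]
  refine ⟨hz, fun hi => ?_⟩
  have := af_lt_of_interior (S := M (w.length + 1)) (Or.inl (by norm_num)) (fun x hx => M_lf' hx) hi
  change lf (10 * 10 ^ w.length) z < 0 at this
  linarith

lemma G_LS {z : ℂ} (hz : z ∈ LS (10 ^ w.length)) :
    G (w.length + 1) (d :: w) z = face (w.length + 1) true z ∧ z ∈ frontier (M (w.length + 1)) := by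
  have hU := Onb2_U (LS_sub (pow10_pos _) hz) hz.1.le
  refine ⟨?_, frontier_of_lf (U_sub_M le_rfl hU) hz.1⟩
  rw [G_left hz.1.le]
  exact F_U true d w le_rfl hU

lemma G_locIso {z : ℂ} (hz : z ∈ interior (P (d :: w))) :
    LocIso (w.length + 1) (G (w.length + 1) (d :: w)) z := by
  rcases int_P_cases hz with ⟨h1, h2⟩ | ⟨h1, h2⟩ | h1
  · rw [← D_top] at h2
    refine LocIso.congr ?_ (LI (d :: w) le_rfl true h2)
    filter_upwards [(isOpen_af_lt (-1) 0 (-((10 * 10 ^ w.length) ^ 2))).mem_nhds h1] with x hx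
    exact G_left (le_of_lt hx)
  · rw [← D_top] at h2
    refine LocIso.congr ?_ (LocIso.comp (f := F (w.length + 1) false (d :: w)) (dist_R (10 * 10 ^ w.length))
      (LI (d :: w) le_rfl false h2))
    filter_upwards [(isOpen_af_gt (-1) 0 (-((10 * 10 ^ w.length) ^ 2))).mem_nhds h1] with x hx
    exact G_right hx
  · refine locIso_edge (α := -1) (β := 0) (γ := -((10 * 10 ^ w.length) ^ 2)) (Or.inl (by norm_num))
      (fun x hx => M_lf' hx) (dist_R (10 * 10 ^ w.length)) (fun x hx => R_of_lf hx) true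
      (isOpen_Onb2 (10 ^ w.length)) (LS_sub (pow10_pos _) h1) ?_ ?_
    · intro x hx hlf
      have hU := Onb2_U hx hlf
      exact ⟨U_sub_M le_rfl hU, by rw [G_left hlf]; exact F_U true d w le_rfl hU⟩
    · intro x hx hlf
      have hU := Onb2_R hx hlf
      rcases eq_or_lt_of_le hlf with h | h
      · have hx0 : lf (10 * 10 ^ w.length) x = 0 := h.symm
        have hU' := Onb2_U hx hx0.le
        have hf := frontier_of_lf (U_sub_M le_rfl hU') hx0
        rw [G_left hx0.le, F_U true d w le_rfl hU', R_of_lf hx0, face_flip hf]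
      · rw [G_right h, Bool.not_true]
        exact F_U false d w le_rfl hU

lemma LS_not_Gam {z : ℂ} (hz : z ∈ LS (10 ^ w.length)) :
    face (w.length + 1) true z ∉ Gam (w.length + 1) (d :: w) := by
  have ht := pow10_pos w.length
  obtain ⟨h1, h2, h3⟩ := hz
  rw [lf_eq] at h1
  rintro (h | ⟨x, hx, s, h⟩)
  · have := Gam_re w h
    rw [face_re] at this
    nlinarith
  · have e1 := congrArg (fun q => q.1.re) h
    have e2 := congrArg (fun q => q.1.im) h
    simp only [face_re, face_im] at e1 e2
    rw [if_pos trivial] at e2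
    have hx1 : x.im = -(10 * 10 ^ w.length) := by
      cases d
      · have := hx.1
        rw [if_neg Bool.false_ne_true, ml_eq, ← e1] at this
        have h5 : (11 * 10 ^ w.length) * x.im = (11 * 10 ^ w.length) * (-(10 * 10 ^ w.length)) := by nlinarith
        exact mul_left_cancel₀ (by positivity) h5
      · have := hx.1
        rw [if_pos rfl, el_eq, ← e1] at this
        have h5 : (9 * 10 ^ w.length) * x.im = (9 * 10 ^ w.length) * (-(10 * 10 ^ w.length)) := by nlinarith
        exact mul_left_cancel₀ (by positivity) h5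
    cases s
    · rw [if_neg Bool.false_ne_true, hx1] at e2
      linarith
    · rw [if_pos rfl, hx1] at e2
      linarith

lemma pa_cseg (d : Bool) {t : ℝ} (ht : 0 < t) : pa (10 * t) ∈ cseg d t := by
  refine ⟨?_, ?_, ?_⟩
  · cases d
    · rw [if_neg Bool.false_ne_true, ml_eq]; simp only [pa]; ring
    · rw [if_pos rfl, el_eq]; simp only [pa]; ring
  · rw [lf_eq]; simp only [pa]; nlinarith
  · rw [rt_eq]; simp only [pa]; nlinarith

theorem G_bijOn : Set.BijOn (G (w.length + 1) (d :: w)) (interior (P (d :: w)))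
    (Dbl (M (w.length + 1)) \ Gam (w.length + 1) (d :: w)) := by
  have ht := pow10_pos w.length
  have hr : 1 ≤ w.length + 1 := by omega
  have hlen : (d :: w).length ≤ w.length + 1 := le_rfl
  refine ⟨?_, ?_, ?_⟩
  · intro z hz
    rcases int_P_cases hz with ⟨h1, h2⟩ | ⟨h1, h2⟩ | h1
    · rw [G_left h1.le]
      rw [← D_top] at h2
      exact ⟨F_mem _ _ hlen hr (interior_subset h2), DISJ hr _ hlen _ h2⟩
    · rw [G_right h1]
      rw [← D_top] at h2
      exact ⟨F_mem _ _ hlen hr (interior_subset h2), DISJ hr _ hlen _ h2⟩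
    · obtain ⟨g1, g2⟩ := G_LS (d := d) h1
      rw [g1]
      exact ⟨face_mem ((M_isClosed _).frontier_subset g2), LS_not_Gam h1⟩
  · -- injectivity
    have hLM : ∀ (s : Bool) (x z : ℂ), x ∈ interior (A (d :: w)) → z ∈ LS (10 ^ w.length) →
        F (w.length + 1) s (d :: w) x ≠ face (w.length + 1) true z := by
      intro s x z hx hz h
      rw [← D_top] at hx
      obtain ⟨g1, g2⟩ := G_LS (d := d) hz
      have h3 : (F (w.length + 1) s (d :: w) x).1 ∈ frontier (M (w.length + 1)) := by
        rw [h, face_frontier]; exact g2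
      have h4 := RIM hr (d :: w) hlen s hx h3
      rw [h, len_eq, rt_eq, face_re] at h4
      have h5 := hz.1
      rw [lf_eq] at h5
      linarith
    intro z hz z' hz' h
    rcases int_P_cases hz with ⟨a1, a2⟩ | ⟨a1, a2⟩ | a1
    · rw [G_left a1.le] at h
      rcases int_P_cases hz' with ⟨b1, b2⟩ | ⟨b1, b2⟩ | b1
      · rw [G_left b1.le] at h
        rw [← D_top] at a2 b2
        exact (INJ hr _ hlen a2 b2 h).2
      · rw [G_right b1] at h
        rw [← D_top] at a2 b2
        exact absurd (INJ hr _ hlen a2 b2 h).1 (by simp)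
      · rw [(G_LS b1).1] at h
        exact absurd h (hLM _ _ _ a2 b1)
    · rw [G_right a1] at h
      rcases int_P_cases hz' with ⟨b1, b2⟩ | ⟨b1, b2⟩ | b1
      · rw [G_left b1.le] at h
        rw [← D_top] at a2 b2
        exact absurd (INJ hr _ hlen a2 b2 h).1 (by simp)
      · rw [G_right b1] at h
        rw [← D_top] at a2 b2
        have := (INJ hr _ hlen a2 b2 h).2
        rw [← R_R (10 * 10 ^ w.length) z, this, R_R]
      · rw [(G_LS b1).1] at h
        exact absurd h (hLM _ _ _ a2 b1)
    · rw [(G_LS a1).1] at h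
      rcases int_P_cases hz' with ⟨b1, b2⟩ | ⟨b1, b2⟩ | b1
      · rw [G_left b1.le] at h
        exact absurd h.symm (hLM _ _ _ b2 a1)
      · rw [G_right b1] at h
        exact absurd h.symm (hLM _ _ _ b2 a1)
      · rw [(G_LS b1).1] at h
        exact face_inj_same h
  · -- surjectivity
    rintro ⟨q1, q2⟩ ⟨⟨hq1, hq2⟩, hqG⟩
    simp only at hq1 hq2
    obtain ⟨s₀, z₀, hz₀, hqz⟩ : ∃ s₀ z₀, z₀ ∈ M (w.length + 1) ∧ face (w.length + 1) s₀ z₀ = (q1, q2) := by
      cases q2
      · refine ⟨false, (starRingEnd ℂ) q1, conj_mem_M hq1, ?_⟩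
        have hnf : q1 ∉ frontier (M (w.length + 1)) := fun h => Bool.false_ne_true (hq2 h)
        rw [face_false, sheet, Complex.conj_conj, if_neg hnf]
      · refine ⟨true, q1, hq1, ?_⟩
        rw [face_true, sheet]
        simp
    rw [← hqz] at hqG ⊢
    by_cases hcase : z₀ ∈ interior (M (w.length + 1)) ∨ 0 < rt (10 ^ (d :: w).length) z₀
    · obtain ⟨s, z, h1, h2⟩ := SURJ (d :: w) hlen s₀ hz₀ hcase hqG
      rw [D_top] at h1
      have hlf : lf (10 * 10 ^ w.length) z < 0 := by
        refine af_lt_of_interior (S := A (d :: w)) (Or.inl (by norm_num)) ?_ h1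
        intro x hx
        have := (A_W _ hx).1
        rw [len_eq] at this
        exact this
      cases s
      · refine ⟨R (10 * 10 ^ w.length) z, ?_, ?_⟩
        · have hO : IsOpen (R (10 * 10 ^ w.length) ⁻¹' interior (A (d :: w))) :=
            isOpen_interior.preimage (continuous_R _)
          refine interior_maximal ?_ hO (by rw [mem_preimage, R_R]; exact h1)
          intro x hx
          right
          rw [len_eq]
          have hx' : R (10 * 10 ^ w.length) x ∈ interior (A (d :: w)) := hx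
          have h9 := interior_subset hx'
          exact h9
        · rw [G_right (by rw [lf_R]; linarith), R_R]
          exact h2
      · refine ⟨z, interior_mono subset_union_left h1, ?_⟩
        rw [G_left hlf.le]
        exact h2
    · push Not at hcase
      obtain ⟨hc1, hc2⟩ := hcase
      have hfr : z₀ ∈ frontier (M (w.length + 1)) := by
        rw [(M_isClosed _).frontier_eq]; exact ⟨hz₀, hc1⟩
      have hlf : lf (10 * 10 ^ w.length) z₀ = 0 := by
        apply le_antisymm (M_lf' hz₀)
        rw [len_eq, rt_eq] at hc2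
        rw [lf_eq]
        linarith
      have t1 := M_tu (10 * 10 ^ w.length) hz₀
      have t2 := M_tl (10 * 10 ^ w.length) hz₀
      have him := W_im (by positivity) (⟨hlf.le, t1, t2⟩ : z₀ ∈ W (10 * 10 ^ w.length))
      have hne1 : z₀.im ≠ -(10 * 10 ^ w.length) := by
        intro hc
        apply hqG
        right
        refine ⟨pa (10 * 10 ^ w.length), pa_cseg d ht, s₀, ?_⟩
        congr 1
        apply Complex.ext
        · rw [lf_eq] at hlf; simp only [pa]; linarith
        · simp only [pa]; exact hc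
      have hne2 : z₀.im ≠ 10 * 10 ^ w.length := by
        intro hc
        apply hqG
        right
        refine ⟨pa (10 * 10 ^ w.length), pa_cseg d ht, !s₀, ?_⟩
        rw [← face_flip hfr]
        congr 1
        apply Complex.ext
        · rw [lf_eq] at hlf; simp only [pa, Complex.conj_re]; linarith
        · simp only [pa, Complex.conj_im]; rw [hc]
      have hLS : z₀ ∈ LS (10 ^ w.length) :=
        ⟨hlf, lt_of_le_of_ne him.1 (Ne.symm hne1), lt_of_le_of_ne him.2 hne2⟩
      cases s₀
      · have hLS' : (starRingEnd ℂ) z₀ ∈ LS (10 ^ w.length) := by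
          refine ⟨?_, ?_, ?_⟩
          · rw [lf_eq, Complex.conj_re, ← lf_eq]; exact hlf
          · rw [Complex.conj_im]; linarith [hLS.2.2]
          · rw [Complex.conj_im]; linarith [hLS.2.1]
        refine ⟨(starRingEnd ℂ) z₀, LS_int hLS', ?_⟩
        rw [(G_LS hLS').1]
        exact face_flip (s := false) hfr
      · exact ⟨z₀, LS_int hLS, (G_LS hLS).1⟩

theorem unfolding (d : Bool) (w : List Bool) :
    IsConvexUnfolding (M (w.length + 1)) (Gam (w.length + 1) (d :: w)) (P (d :: w)) := by
  obtain ⟨F, hF, _⟩ := P_hull d w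
  refine ⟨⟨F, hF⟩, ?_, G (w.length + 1) (d :: w), G_bijOn, fun z hz => G_locIso hz⟩
  refine ⟨⟨-(10 * 10 ^ w.length) ^ 2, 0⟩, LS_int ⟨?_, ?_, ?_⟩⟩
  · rw [lf_eq]; simp
  · have := pow10_pos w.length
    simp only
    linarith
  · have := pow10_pos w.length
    simp only
    linarith

end final

end Pool.Agent.P086e3e
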